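import Mathlib

/-!
# The alternating zeta series to the left of `1` (Euler transform)
-/

set_option autoImplicit false

namespace Pool.Agent.P07318d

open Finset MeasureTheory Filter

/-- iterated differences of `x^(-s)` -/
noncomputable def DK : ℕ → ℂ → ℝ → ℂ
  | 0, s, x => (x : ℂ) ^ (-s)
  | (K + 1), s, x => DK K s x - DK K s (x + 1)

lemma cpow_cont {x : ℝ} (hx : 0 < x) (s : ℂ) : ContinuousOn (fun v : ℝ => ((x + v : ℝ) : ℂ) ^ (-s)) (Set.Icc 0 1) := by
  intro v hv
  apply ContinuousAt.continuousWithinAt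
  apply ContinuousAt.cpow
  · exact (Complex.continuous_ofReal.comp (by fun_prop : Continuous fun v : ℝ => x + v)).continuousAt
  · exact continuousAt_const
  · rw [Complex.ofReal_mem_slitPlane]
    have := hv.1
    linarith

lemma DK_cont (K : ℕ) : ∀ {x : ℝ} (_ : 0 < x) (s : ℂ), ContinuousOn (fun v : ℝ => DK K s (x + v)) (Set.Icc 0 1) := by
  induction K with
  | zero => intro x hx s; exact cpow_cont hx s
  | succ K ih =>
    intro x hx s
    have h1 := ih hx s
    have h2 := ih (show 0 < x + 1 by linarith) s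
    show ContinuousOn (fun v : ℝ => DK K s (x + v) - DK K s (x + v + 1)) (Set.Icc 0 1)
    apply h1.sub
    apply h2.congr
    intro v _
    show DK K s (x + v + 1) = DK K s (x + 1 + v)
    congr 1; ring

lemma DK_int (K : ℕ) : ∀ {x : ℝ} (_ : 0 < x) {s : ℂ} (_ : 0 < s.re),
    DK (K + 1) s x = s * ∫ v in (0:ℝ)..1, DK K (s + 1) (x + v) := by
  induction K with
  | zero =>
    intro x hx s hs
    show (x : ℂ) ^ (-s) - ((x + 1 : ℝ) : ℂ) ^ (-s) = s * ∫ v in (0:ℝ)..1, ((x + v : ℝ) : ℂ) ^ (-(s + 1))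
    have hs0 : s ≠ 0 := by rintro rfl; simp at hs
    have h1 : ∫ v in (0:ℝ)..1, ((x + v : ℝ) : ℂ) ^ (-(s + 1)) = ∫ y in x..(x + 1), (y : ℂ) ^ (-(s + 1)) := by
      have := intervalIntegral.integral_comp_add_left (a := 0) (b := 1)
        (fun y : ℝ => (y : ℂ) ^ (-(s + 1))) x
      rw [add_zero] at this
      exact this
    rw [h1, integral_cpow]
    · have h2 : (-(s + 1) + 1 : ℂ) = -s := by ring
      rw [h2, div_neg, mul_neg, mul_div_assoc', ← neg_div, ← mul_neg, mul_div_assoc, mul_div_cancel₀]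
      · ring
      · exact hs0
    · right
      constructor
      · intro h
        apply hs0
        have : s = -(-(s + 1)) - 1 := by ring
        rw [this, h]; ring
      · rw [Set.uIcc_of_le (by linarith), Set.mem_Icc]
        intro h; linarith [h.1]
  | succ K ih =>
    intro x hx s hs
    show DK (K + 1) s x - DK (K + 1) s (x + 1) = _
    have hx1 : 0 < x + 1 := by linarith
    rw [ih hx hs, ih hx1 hs, ← mul_sub, ← intervalIntegral.integral_sub]
    · congr 1
      apply intervalIntegral.integral_congr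
      intro v _
      show DK K (s + 1) (x + v) - DK K (s + 1) (x + 1 + v) = DK K (s + 1) (x + v) - DK K (s + 1) (x + v + 1)
      congr 2; ring
    · apply ContinuousOn.intervalIntegrable
      rw [Set.uIcc_of_le (by norm_num)]
      exact DK_cont K hx _
    · apply ContinuousOn.intervalIntegrable
      rw [Set.uIcc_of_le (by norm_num)]
      exact DK_cont K hx1 _

lemma DK_bound (K : ℕ) : ∀ {x : ℝ} (_ : 0 < x) {s : ℂ} (_ : 0 < s.re),
    ‖DK K s x‖ ≤ (∏ i ∈ Finset.range K, ‖s + i‖) * x ^ (-(s.re + K)) := by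
  induction K with
  | zero =>
    intro x hx s hs
    show ‖(x : ℂ) ^ (-s)‖ ≤ _
    rw [Complex.norm_cpow_eq_rpow_re_of_pos hx]
    simp
  | succ K ih =>
    intro x hx s hs
    rw [DK_int K hx hs, norm_mul]
    have hs1 : 0 < (s + 1).re := by simp; linarith
    have hb : ∀ v ∈ Set.uIoc (0:ℝ) 1, ‖DK K (s + 1) (x + v)‖ ≤
        (∏ i ∈ Finset.range K, ‖s + 1 + i‖) * x ^ (-((s + 1).re + K)) := by
      intro v hv
      rw [Set.uIoc_of_le (by norm_num)] at hv
      have hxv : 0 < x + v := by linarith [hv.1]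
      refine (ih hxv hs1).trans ?_
      apply mul_le_mul_of_nonneg_left _ (Finset.prod_nonneg (fun _ _ => norm_nonneg _))
      apply Real.rpow_le_rpow_of_nonpos hx (by linarith [hv.1])
      have : (0:ℝ) ≤ K := Nat.cast_nonneg _
      linarith
    have h1 := intervalIntegral.norm_integral_le_of_norm_le_const hb
    rw [sub_zero, abs_one, mul_one] at h1
    refine (mul_le_mul_of_nonneg_left h1 (norm_nonneg _)).trans (le_of_eq ?_)
    rw [Finset.prod_range_succ', ← mul_assoc]
    have e1 : ∏ i ∈ Finset.range K, ‖s + 1 + (i : ℂ)‖ = ∏ i ∈ Finset.range K, ‖s + ((i + 1 : ℕ) : ℂ)‖ := by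
      refine Finset.prod_congr rfl (fun i _ => ?_)
      congr 1; push_cast; ring
    rw [e1]
    have e2 : (s + 1).re + (K : ℝ) = s.re + ((K + 1 : ℕ) : ℝ) := by
      simp; ring
    rw [e2]
    push_cast
    rw [add_zero]
    ring

/-- the tail after `K` Euler steps -/
noncomputable def TK (K m : ℕ) (s : ℂ) : ℂ := ∑' j : ℕ, (-1 : ℂ) ^ j * DK K s ((m : ℝ) + 1 + j)

lemma xj_pos (m j : ℕ) : (0:ℝ) < (m : ℝ) + 1 + j := by positivity

lemma summable_aux {m : ℕ} {r : ℝ} (hr : 1 < r) : Summable (fun j : ℕ => ((m : ℝ) + 1 + j) ^ (-r)) := by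
  have h1 : Summable (fun n : ℕ => ((n : ℝ)) ^ (-r)) := Real.summable_nat_rpow.2 (by linarith)
  have h2 := (summable_nat_add_iff (m + 1)).2 h1
  refine h2.congr (fun j => ?_)
  congr 1; push_cast; ring

lemma TK_summable {K m : ℕ} {s : ℂ} (hs : 0 < s.re) (h : 1 < s.re + K) :
    Summable (fun j : ℕ => (-1 : ℂ) ^ j * DK K s ((m : ℝ) + 1 + j)) := by
  apply Summable.of_norm_bounded (g := fun j : ℕ => (∏ i ∈ Finset.range K, ‖s + i‖) * ((m : ℝ) + 1 + j) ^ (-(s.re + K)))
  · exact (summable_aux h).mul_left _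
  · intro j
    rw [norm_mul, norm_pow, norm_neg, norm_one, one_pow, one_mul]
    exact DK_bound K (xj_pos m j) hs

lemma TK_step {K m : ℕ} {s : ℂ} (hs : 0 < s.re) (h : 1 < s.re + K) :
    TK (K + 1) m s = 2 * TK K m s - DK K s ((m : ℝ) + 1) := by
  have hS := TK_summable (m := m) hs h
  have h1 : ∑' j : ℕ, (-1 : ℂ) ^ (j + 1) * DK K s ((m : ℝ) + 1 + ((j + 1 : ℕ) : ℝ)) =
      TK K m s - DK K s ((m : ℝ) + 1) := by
    have := hS.tsum_eq_zero_add
    unfold TK
    rw [this]
    simp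
  have hS1 := (summable_nat_add_iff 1).2 hS
  have h2 : TK (K + 1) m s = ∑' j : ℕ, ((-1 : ℂ) ^ j * DK K s ((m : ℝ) + 1 + j) +
      (-1 : ℂ) ^ (j + 1) * DK K s ((m : ℝ) + 1 + ((j + 1 : ℕ) : ℝ))) := by
    unfold TK
    congr 1
    funext j
    show (-1 : ℂ) ^ j * (DK K s ((m : ℝ) + 1 + j) - DK K s ((m : ℝ) + 1 + j + 1)) = _
    have : (m : ℝ) + 1 + ((j + 1 : ℕ) : ℝ) = (m : ℝ) + 1 + j + 1 := by push_cast; ring
    rw [this, pow_succ]; ring
  rw [h2, hS.tsum_add hS1, h1]
  show TK K m s + _ = _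
  ring

lemma TK_zero_euler {K m : ℕ} {s : ℂ} (hs : 1 < s.re) :
    TK 0 m s = ∑ i ∈ Finset.range K, (1 / 2 : ℂ) ^ (i + 1) * DK i s ((m : ℝ) + 1) + (1 / 2 : ℂ) ^ K * TK K m s := by
  induction K with
  | zero => simp
  | succ K ih =>
    have h1 := TK_step (K := K) (m := m) (s := s) (by linarith) (by
      have : (0:ℝ) ≤ K := Nat.cast_nonneg _
      linarith)
    rw [Finset.sum_range_succ, h1, ih]
    rw [pow_succ]; ring

lemma eta_eq {s : ℂ} (hs : 1 < s.re) :
    (1 - 2 * (2 : ℂ) ^ (-s)) * riemannZeta s = TK 0 0 s := by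
  set g : ℕ → ℂ := fun n => (((n : ℝ) + 1 : ℝ) : ℂ) ^ (-s) with hg
  have hsum : Summable g := by
    apply Summable.of_norm_bounded (g := fun j : ℕ => (((0:ℕ) : ℝ) + 1 + j) ^ (-s.re))
    · exact summable_aux hs
    · intro j
      rw [hg]
      simp only
      rw [Complex.norm_cpow_eq_rpow_re_of_pos (by positivity)]
      simp only [Complex.neg_re, Nat.cast_zero, zero_add]
      rw [add_comm]
  have hz : riemannZeta s = ∑' n, g n := by
    rw [zeta_eq_tsum_one_div_nat_add_one_cpow hs]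
    congr 1
    funext n
    rw [hg]
    simp only
    rw [Complex.cpow_neg, one_div]
    push_cast
    rfl
  have he : Summable (fun k => g (2 * k)) := hsum.comp_injective (fun a b h => by simpa using h)
  have ho : Summable (fun k => g (2 * k + 1)) := hsum.comp_injective (fun a b h => by
    have : 2 * a + 1 = 2 * b + 1 := h
    omega)
  have h1 : ∑' n, g n = ∑' k, g (2 * k) + ∑' k, g (2 * k + 1) := (tsum_even_add_odd he ho).symm
  have h2 : ∑' k, g (2 * k + 1) = (2 : ℂ) ^ (-s) * ∑' n, g n := by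
    rw [← tsum_mul_left]
    congr 1
    funext k
    rw [hg]
    simp only
    have e : ((((2 * k + 1 : ℕ) : ℝ) + 1 : ℝ) : ℂ) = ((2 : ℝ) : ℂ) * (((k : ℝ) + 1 : ℝ) : ℂ) := by
      push_cast; ring
    rw [e, Complex.mul_cpow_ofReal_nonneg (by norm_num) (by positivity)]
    push_cast
    rfl
  have h3 : TK 0 0 s = ∑' k, g (2 * k) - ∑' k, g (2 * k + 1) := by
    unfold TK
    have hf : ∀ j : ℕ, (-1 : ℂ) ^ j * DK 0 s (((0:ℕ) : ℝ) + 1 + j) = (-1 : ℂ) ^ j * g j := by
      intro j
      rw [hg]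
      show _ * ((((0:ℕ) : ℝ) + 1 + j : ℝ) : ℂ) ^ (-s) = _
      congr 3
      push_cast; ring
    simp_rw [hf]
    have he' : Summable (fun k : ℕ => (-1 : ℂ) ^ (2 * k) * g (2 * k)) := by
      refine he.congr (fun k => ?_)
      rw [pow_mul]; simp
    have ho' : Summable (fun k : ℕ => (-1 : ℂ) ^ (2 * k + 1) * g (2 * k + 1)) := by
      refine ho.neg.congr (fun k => ?_)
      rw [pow_succ, pow_mul]; simp
    have h5 : ∑' k : ℕ, (-1 : ℂ) ^ (2 * k) * g (2 * k) + ∑' k : ℕ, (-1 : ℂ) ^ (2 * k + 1) * g (2 * k + 1) =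
        ∑' j : ℕ, (-1 : ℂ) ^ j * g j :=
      tsum_even_add_odd (f := fun j : ℕ => (-1 : ℂ) ^ j * g j) he' ho'
    have h6 : ∀ k : ℕ, (-1 : ℂ) ^ (2 * k) * g (2 * k) = g (2 * k) := by
      intro k; rw [pow_mul]; simp
    have h7 : ∀ k : ℕ, (-1 : ℂ) ^ (2 * k + 1) * g (2 * k + 1) = - g (2 * k + 1) := by
      intro k; rw [pow_succ, pow_mul]; simp
    simp only [h6, h7, tsum_neg] at h5
    linear_combination -h5
  linear_combination (1 - 2 * (2 : ℂ) ^ (-s)) * hz - h3 + h1 + 2 * h2

lemma TK_zero_split {m : ℕ} {s : ℂ} (hs : 1 < s.re) :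
    TK 0 0 s = ∑ n ∈ Finset.range m, (-1 : ℂ) ^ n * (((n : ℝ) + 1 : ℝ) : ℂ) ^ (-s) + (-1 : ℂ) ^ m * TK 0 m s := by
  have hS := TK_summable (K := 0) (m := 0) (s := s) (by linarith) (by simpa using hs)
  have h1 := hS.sum_add_tsum_nat_add m
  unfold TK
  rw [← h1]
  congr 1
  · refine Finset.sum_congr rfl (fun n _ => ?_)
    show _ * ((((0:ℕ) : ℝ) + 1 + n : ℝ) : ℂ) ^ (-s) = _
    congr 3
    push_cast; ring
  · rw [← tsum_mul_left]
    congr 1
    funext j
    rw [pow_add, mul_comm ((-1 : ℂ) ^ j), mul_assoc]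
    congr 2
    have : ((0:ℕ) : ℝ) + 1 + ((j + m : ℕ) : ℝ) = (m : ℝ) + 1 + j := by push_cast; ring
    rw [this]

/-- right-hand side of the Euler transform -/
noncomputable def EulR (K m : ℕ) (s : ℂ) : ℂ :=
  ∑ n ∈ Finset.range m, (-1 : ℂ) ^ n * (((n : ℝ) + 1 : ℝ) : ℂ) ^ (-s) +
    (-1 : ℂ) ^ m * (∑ i ∈ Finset.range K, (1 / 2 : ℂ) ^ (i + 1) * DK i s ((m : ℝ) + 1) + (1 / 2 : ℂ) ^ K * TK K m s)

lemma eta_euler_right {K m : ℕ} {s : ℂ} (hs : 1 < s.re) :
    (1 - 2 * (2 : ℂ) ^ (-s)) * riemannZeta s = EulR K m s := by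
  rw [eta_eq hs, TK_zero_split (m := m) hs, TK_zero_euler (K := K) (m := m) hs]
  rfl

lemma DK_diff (K : ℕ) : ∀ {x : ℝ} (_ : 0 < x), Differentiable ℂ (fun s => DK K s x) := by
  induction K with
  | zero =>
    intro x hx
    show Differentiable ℂ (fun s => (x : ℂ) ^ (-s))
    intro s
    apply DifferentiableAt.const_cpow (by fun_prop)
    left
    exact_mod_cast hx.ne'
  | succ K ih =>
    intro x hx
    show Differentiable ℂ (fun s => DK K s x - DK K s (x + 1))
    exact (ih hx).sub (ih (by linarith))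

/-- the region -/
def Reg (R : ℝ) : Set ℂ := ({s | 0 < s.re} ∩ {s | 0 < s.im}) ∩ Metric.ball 0 R

lemma Reg_open (R : ℝ) : IsOpen (Reg R) := by
  apply IsOpen.inter
  · exact (isOpen_lt continuous_const Complex.continuous_re).inter (isOpen_lt continuous_const Complex.continuous_im)
  · exact Metric.isOpen_ball

lemma Reg_convex (R : ℝ) : Convex ℝ (Reg R) := by
  apply Convex.inter
  · exact (convex_halfSpace_re_gt 0).inter (convex_halfSpace_im_gt 0)
  · exact convex_ball 0 R

lemma TK_diff {K m : ℕ} (hK : 2 ≤ K) (R : ℝ) : DifferentiableOn ℂ (fun s => TK K m s) (Reg R) := by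
  unfold TK
  apply Complex.differentiableOn_tsum_of_summable_norm
    (u := fun j : ℕ => (∏ i ∈ Finset.range K, (R + i)) * ((m : ℝ) + 1 + j) ^ (-(2:ℝ)))
  · exact (summable_aux (by norm_num)).mul_left _
  · intro j
    exact ((DK_diff K (xj_pos m j)).const_mul _).differentiableOn
  · exact Reg_open R
  · intro j s hs
    have hre : 0 < s.re := hs.1.1
    have hR : ‖s‖ < R := by simpa using hs.2
    rw [norm_mul, norm_pow, norm_neg, norm_one, one_pow, one_mul]
    refine (DK_bound K (xj_pos m j) hre).trans ?_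
    apply mul_le_mul
    · apply Finset.prod_le_prod (fun _ _ => norm_nonneg _)
      intro i _
      refine (norm_add_le _ _).trans ?_
      rw [Complex.norm_natCast]
      linarith
    · apply Real.rpow_le_rpow_of_exponent_le
      · have : (0:ℝ) ≤ m := Nat.cast_nonneg _
        have : (0:ℝ) ≤ j := Nat.cast_nonneg _
        linarith
      · have : (2:ℝ) ≤ K := by exact_mod_cast hK
        linarith
    · positivity
    · apply Finset.prod_nonneg
      intro i _
      have : (0:ℝ) ≤ i := Nat.cast_nonneg _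
      have : 0 ≤ ‖s‖ := norm_nonneg _
      linarith

theorem eta_euler {K m : ℕ} (hK : 2 ≤ K) {s : ℂ} (hs : 0 < s.re) (him : 0 < s.im) :
    (1 - 2 * (2 : ℂ) ^ (-s)) * riemannZeta s = EulR K m s := by
  set R := ‖s‖ + 3 with hR
  have hsU : s ∈ Reg R := by
    refine ⟨⟨hs, him⟩, ?_⟩
    simp [hR]
  have hz0 : (2 + Complex.I : ℂ) ∈ Reg R := by
    refine ⟨⟨by simp, by simp⟩, ?_⟩
    rw [mem_ball_zero_iff]
    have h1 : ‖(2 + Complex.I : ℂ)‖ ≤ 3 := by
      refine (norm_add_le _ _).trans ?_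
      simp; norm_num
    have h2 : 0 < ‖s‖ := norm_pos_iff.2 (by rintro rfl; simp at hs)
    linarith
  have hf : DifferentiableOn ℂ (fun s => (1 - 2 * (2 : ℂ) ^ (-s)) * riemannZeta s) (Reg R) := by
    intro w hw
    apply DifferentiableAt.differentiableWithinAt
    apply DifferentiableAt.mul
    · apply DifferentiableAt.sub (by fun_prop)
      apply DifferentiableAt.const_mul
      apply DifferentiableAt.const_cpow (by fun_prop)
      left; norm_num
    · apply differentiableAt_riemannZeta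
      rintro rfl
      have := hw.1.2
      simp at this
  have hg : DifferentiableOn ℂ (fun s => EulR K m s) (Reg R) := by
    unfold EulR
    apply DifferentiableOn.add
    · apply DifferentiableOn.fun_sum
      intro n _
      apply DifferentiableOn.const_mul
      intro w _
      apply DifferentiableAt.differentiableWithinAt
      apply DifferentiableAt.const_cpow (by fun_prop)
      left
      have : ((n : ℝ) + 1) ≠ 0 := by positivity
      exact_mod_cast this
    · apply DifferentiableOn.const_mul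
      apply DifferentiableOn.add
      · apply DifferentiableOn.fun_sum
        intro i _
        apply DifferentiableOn.const_mul
        exact (DK_diff i (by positivity)).differentiableOn
      · apply DifferentiableOn.const_mul
        exact TK_diff hK R
  have hfa := hf.analyticOnNhd (Reg_open R)
  have hga := hg.analyticOnNhd (Reg_open R)
  have hEq := hfa.eqOn_of_preconnected_of_eventuallyEq hga (Reg_convex R).isPreconnected hz0 (by
    have : {w : ℂ | 1 < w.re} ∈ nhds (2 + Complex.I : ℂ) :=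
      (isOpen_lt continuous_const Complex.continuous_re).mem_nhds (by simp)
    filter_upwards [this] with w hw
    exact eta_euler_right hw)
  exact hEq hsU

lemma tail_sq_le {m : ℕ} (hm : 1 ≤ m) : ∑' j : ℕ, ((m : ℝ) + 1 + j) ^ (-(2:ℝ)) ≤ 1 / m := by
  have hmr : (1:ℝ) ≤ m := by exact_mod_cast hm
  apply Real.tsum_le_of_sum_range_le
  · intro j; positivity
  · intro J
    have h1 : ∀ J : ℕ, ∑ j ∈ Finset.range J, ((m : ℝ) + 1 + j) ^ (-(2:ℝ)) ≤ 1 / m - 1 / (m + J) := by
      intro J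
      induction J with
      | zero => simp
      | succ J ih =>
        rw [Finset.sum_range_succ]
        have h2 : ((m : ℝ) + 1 + J) ^ (-(2:ℝ)) ≤ 1 / ((m:ℝ) + J) - 1 / (m + (J + 1 : ℕ)) := by
          have hJ : (0:ℝ) ≤ J := Nat.cast_nonneg _
          rw [Real.rpow_neg (by positivity)]
          push_cast
          have e : ((m:ℝ) + 1 + J) ^ (2:ℝ) = (m + 1 + J) ^ 2 := by
            exact_mod_cast Real.rpow_natCast ((m:ℝ) + 1 + J) 2
          rw [e, div_sub_div _ _ (by positivity) (by positivity), inv_eq_one_div,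
            div_le_div_iff₀ (by positivity) (by positivity)]
          nlinarith
        linarith
    refine (h1 J).trans ?_
    have : 0 ≤ 1 / ((m:ℝ) + J) := by positivity
    linarith

theorem eta_approx {m K : ℕ} (hK : 2 ≤ K) (hm : 1 ≤ m) (h2K : m ≤ 2 ^ K) {s : ℂ} (hs : 0 < s.re)
    (him : 0 < s.im) (hsm : ‖s‖ + K ≤ m) :
    ‖(1 - 2 * (2 : ℂ) ^ (-s)) * riemannZeta s -
      ∑ n ∈ Finset.range m, (-1 : ℂ) ^ n * (((n : ℝ) + 1 : ℝ) : ℂ) ^ (-s)‖ ≤ 2 * (m : ℝ) ^ (-s.re) := by
  have hmr : (1:ℝ) ≤ m := by exact_mod_cast hm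
  have hm0 : (0:ℝ) < m := by linarith
  rw [eta_euler (K := K) (m := m) hK hs him]
  unfold EulR
  rw [add_sub_cancel_left, norm_mul, norm_pow, norm_neg, norm_one, one_pow, one_mul]
  have hprod : ∀ i, i ≤ K → ∏ l ∈ Finset.range i, ‖s + l‖ ≤ (m : ℝ) ^ i := by
    intro i hi
    calc ∏ l ∈ Finset.range i, ‖s + l‖ ≤ ∏ l ∈ Finset.range i, (m : ℝ) := by
          apply Finset.prod_le_prod (fun _ _ => norm_nonneg _)
          intro l hl
          refine (norm_add_le _ _).trans ?_
          rw [Complex.norm_natCast]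
          have : (l : ℝ) ≤ K := by
            have := Finset.mem_range.1 hl
            exact_mod_cast (by omega : l ≤ K)
          linarith
      _ = (m : ℝ) ^ i := by simp
  -- first part
  have hA : ‖∑ i ∈ Finset.range K, (1 / 2 : ℂ) ^ (i + 1) * DK i s ((m : ℝ) + 1)‖ ≤ (m : ℝ) ^ (-s.re) := by
    refine (norm_sum_le _ _).trans ?_
    have h1 : ∀ i ∈ Finset.range K, ‖(1 / 2 : ℂ) ^ (i + 1) * DK i s ((m : ℝ) + 1)‖ ≤
        (1 / 2 : ℝ) ^ (i + 1) * (m : ℝ) ^ (-s.re) := by
      intro i hi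
      have hi' := Finset.mem_range.1 hi
      rw [norm_mul, norm_pow]
      have e1 : ‖(1 / 2 : ℂ)‖ = 1 / 2 := by norm_num
      rw [e1]
      apply mul_le_mul_of_nonneg_left _ (by positivity)
      refine (DK_bound i (x := (m : ℝ) + 1) (by positivity) hs).trans ?_
      calc (∏ l ∈ Finset.range i, ‖s + l‖) * ((m : ℝ) + 1) ^ (-(s.re + i))
          ≤ (m : ℝ) ^ i * (m : ℝ) ^ (-(s.re + i)) := by
            apply mul_le_mul (hprod i hi'.le) _ (by positivity) (by positivity)
            apply Real.rpow_le_rpow_of_nonpos hm0 (by linarith)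
            have : (0:ℝ) ≤ i := Nat.cast_nonneg _
            linarith
        _ = (m : ℝ) ^ (-s.re) := by
            rw [← Real.rpow_natCast, ← Real.rpow_add hm0]
            congr 1; ring
    refine (Finset.sum_le_sum h1).trans ?_
    rw [← Finset.sum_mul]
    have h2 : ∑ i ∈ Finset.range K, (1 / 2 : ℝ) ^ (i + 1) ≤ 1 := by
      have : ∀ K : ℕ, ∑ i ∈ Finset.range K, (1 / 2 : ℝ) ^ (i + 1) = 1 - (1 / 2) ^ K := by
        intro K
        induction K with
        | zero => simp
        | succ K ih => rw [Finset.sum_range_succ, ih]; ring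
      rw [this]
      have : (0:ℝ) ≤ (1 / 2) ^ K := by positivity
      linarith
    have h3 : 0 ≤ (m : ℝ) ^ (-s.re) := by positivity
    nlinarith
  -- second part
  have hB : ‖(1 / 2 : ℂ) ^ K * TK K m s‖ ≤ (m : ℝ) ^ (-s.re) := by
    have h1 : ‖TK K m s‖ ≤ (m : ℝ) ^ K * ((m : ℝ) ^ (-(s.re + K) + 2) * (1 / m)) := by
      unfold TK
      have hb : ∀ j : ℕ, ‖(-1 : ℂ) ^ j * DK K s ((m : ℝ) + 1 + j)‖ ≤
          (m : ℝ) ^ K * ((m : ℝ) ^ (-(s.re + K) + 2) * ((m : ℝ) + 1 + j) ^ (-(2:ℝ))) := by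
        intro j
        rw [norm_mul, norm_pow, norm_neg, norm_one, one_pow, one_mul]
        refine (DK_bound K (xj_pos m j) hs).trans ?_
        apply mul_le_mul (hprod K le_rfl) _ (by positivity) (by positivity)
        have hxj := xj_pos m j
        have e1 : -(s.re + (K:ℝ)) = (-(s.re + K) + 2) + (-2) := by ring
        rw [e1, Real.rpow_add hxj]
        have e2 : (-(s.re + (K:ℝ)) + 2) + (-2) + 2 = -(s.re + K) + 2 := by ring
        apply mul_le_mul_of_nonneg_right _ (by positivity)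
        rw [e2]
        apply Real.rpow_le_rpow_of_nonpos hm0
        · have : (0:ℝ) ≤ j := Nat.cast_nonneg _
          linarith
        · have : (2:ℝ) ≤ K := by exact_mod_cast hK
          linarith
      have hsum : Summable (fun j : ℕ => (m : ℝ) ^ K * ((m : ℝ) ^ (-(s.re + K) + 2) * ((m : ℝ) + 1 + j) ^ (-(2:ℝ)))) :=
        ((summable_aux (by norm_num)).mul_left _).mul_left _
      refine (tsum_of_norm_bounded hsum.hasSum hb).trans ?_
      rw [tsum_mul_left, tsum_mul_left]
      apply mul_le_mul_of_nonneg_left _ (by positivity)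
      apply mul_le_mul_of_nonneg_left (tail_sq_le hm) (by positivity)
    rw [norm_mul, norm_pow]
    have e1 : ‖(1 / 2 : ℂ)‖ = 1 / 2 := by norm_num
    rw [e1]
    have h2 : (m : ℝ) ^ K * ((m : ℝ) ^ (-(s.re + K) + 2) * (1 / m)) = m * (m : ℝ) ^ (-s.re) := by
      have e2 : (1 / (m:ℝ)) = (m : ℝ) ^ (-1 : ℝ) := by rw [Real.rpow_neg_one, one_div]
      have e3 : (m : ℝ) * (m : ℝ) ^ (-s.re) = (m : ℝ) ^ (1 - s.re) := by
        rw [sub_eq_add_neg, Real.rpow_add hm0, Real.rpow_one]
      rw [e2, e3, ← Real.rpow_natCast, ← Real.rpow_add hm0, ← Real.rpow_add hm0]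
      congr 1; ring
    rw [h2] at h1
    have h3 : (1 / 2 : ℝ) ^ K * m ≤ 1 := by
      have : (m : ℝ) ≤ 2 ^ K := by exact_mod_cast h2K
      rw [one_div, inv_pow, inv_mul_le_iff₀ (by positivity), mul_one]
      exact this
    have h4 : 0 ≤ (m : ℝ) ^ (-s.re) := by positivity
    calc (1 / 2 : ℝ) ^ K * ‖TK K m s‖ ≤ (1 / 2 : ℝ) ^ K * (m * (m : ℝ) ^ (-s.re)) :=
          mul_le_mul_of_nonneg_left h1 (by positivity)
      _ = ((1 / 2 : ℝ) ^ K * m) * (m : ℝ) ^ (-s.re) := by ring
      _ ≤ 1 * (m : ℝ) ^ (-s.re) := mul_le_mul_of_nonneg_right h3 h4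
      _ = _ := one_mul _
  refine (norm_add_le _ _).trans ?_
  linarith

end Pool.Agent.P07318d
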