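import Pool.Agent.Lib.P07318d.Window

/-!
# High moments of the window error
-/

set_option autoImplicit false

namespace Pool.Agent.P07318d

open Finset MeasureTheory

lemma rpow_neg_le_half {σ : ℝ} (hσ : 1 / 2 ≤ σ) {n : ℕ} (hn : 1 ≤ n) :
    (n : ℝ) ^ (-σ) ≤ (n : ℝ) ^ (-(1 / 2) : ℝ) :=
  Real.rpow_le_rpow_of_exponent_le (by exact_mod_cast hn) (by linarith)

lemma half_mul_self {n : ℕ} (hn : 1 ≤ n) : (n : ℝ) ^ (-(1 / 2) : ℝ) * (n : ℝ) ^ (-(1 / 2) : ℝ) = 1 / n := by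
  have : (0:ℝ) < n := by exact_mod_cast hn
  rw [← Real.rpow_add this]
  norm_num
  rw [Real.rpow_neg_one]

lemma fiber_sum_le (N k : ℕ) {σ : ℝ} (hσ : 1 / 2 ≤ σ) {r : ℕ × ℕ} (hr : r ∈ RR (N ^ k)) :
    ∑ p ∈ (offd (N ^ k)).filter (fun p => red p = r), gam N k σ p ≤
      ((dd r.1 * dd r.2) ^ k * ((r.1 : ℝ) ^ (-(1 / 2) : ℝ) * (r.2 : ℝ) ^ (-(1 / 2) : ℝ))) *
        (1 + Real.log ((N ^ k : ℕ) : ℝ)) ^ (2 ^ (2 * k)) := by
  have hr' := RR_spec r hr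
  set K := N ^ k with hK
  set Fb := (offd K).filter (fun p => red p = r) with hFb
  have hterm : ∀ p ∈ Fb, gam N k σ p ≤
      ((dd r.1 * dd r.2) ^ k * ((r.1 : ℝ) ^ (-(1 / 2) : ℝ) * (r.2 : ℝ) ^ (-(1 / 2) : ℝ))) *
        ((dd (Nat.gcd p.1 p.2)) ^ (2 * k) / ((Nat.gcd p.1 p.2 : ℕ) : ℝ)) := by
    intro p hp
    rw [hFb, Finset.mem_filter, mem_offd] at hp
    obtain ⟨hg, e1, e2, hr1, hr2, _⟩ := red_spec hp.1.1.1.1 hp.1.1.2.1
    rw [hp.2] at e1 e2 hr1 hr2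
    set g := Nat.gcd p.1 p.2 with hgdef
    have b1 : (al N k p.1 : ℝ) ≤ dd r.1 ^ k * dd g ^ k := by
      refine (al_le (by omega)).trans ?_
      rw [← mul_pow, ← e1]
      exact pow_le_pow_left₀ (dd_nonneg _) (dd_mul_le _ _) k
    have b2 : (al N k p.2 : ℝ) ≤ dd r.2 ^ k * dd g ^ k := by
      refine (al_le (by omega)).trans ?_
      rw [← mul_pow, ← e2]
      exact pow_le_pow_left₀ (dd_nonneg _) (dd_mul_le _ _) k
    have c1 : (p.1 : ℝ) ^ (-σ) ≤ (r.1 : ℝ) ^ (-(1 / 2) : ℝ) * (g : ℝ) ^ (-(1 / 2) : ℝ) := by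
      refine (rpow_neg_le_half hσ hp.1.1.1.1).trans (le_of_eq ?_)
      rw [← Real.mul_rpow (Nat.cast_nonneg _) (Nat.cast_nonneg _)]
      congr 1
      exact_mod_cast e1.symm
    have c2 : (p.2 : ℝ) ^ (-σ) ≤ (r.2 : ℝ) ^ (-(1 / 2) : ℝ) * (g : ℝ) ^ (-(1 / 2) : ℝ) := by
      refine (rpow_neg_le_half hσ hp.1.1.2.1).trans (le_of_eq ?_)
      rw [← Real.mul_rpow (Nat.cast_nonneg _) (Nat.cast_nonneg _)]
      congr 1
      exact_mod_cast e2.symm
    have hd1 := dd_nonneg r.1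
    have hd2 := dd_nonneg r.2
    have hdg := dd_nonneg g
    have hgg := half_mul_self hg
    unfold gam
    calc (al N k p.1 * al N k p.2 : ℝ) * ((p.1 : ℝ) ^ (-σ) * (p.2 : ℝ) ^ (-σ)) ≤
        ((dd r.1 ^ k * dd g ^ k) * (dd r.2 ^ k * dd g ^ k)) *
          (((r.1 : ℝ) ^ (-(1 / 2) : ℝ) * (g : ℝ) ^ (-(1 / 2) : ℝ)) *
            ((r.2 : ℝ) ^ (-(1 / 2) : ℝ) * (g : ℝ) ^ (-(1 / 2) : ℝ))) := by
          apply mul_le_mul
          · exact mul_le_mul b1 b2 (Nat.cast_nonneg _) (by positivity)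
          · exact mul_le_mul c1 c2 (by positivity) (by positivity)
          · positivity
          · positivity
      _ = ((dd r.1 * dd r.2) ^ k * ((r.1 : ℝ) ^ (-(1 / 2) : ℝ) * (r.2 : ℝ) ^ (-(1 / 2) : ℝ))) *
          (dd g ^ (2 * k) * ((g : ℝ) ^ (-(1 / 2) : ℝ) * (g : ℝ) ^ (-(1 / 2) : ℝ))) := by
          rw [mul_pow, two_mul, pow_add]; ring
      _ = _ := by rw [hgg]; ring
  refine (Finset.sum_le_sum hterm).trans ?_
  rw [← Finset.mul_sum]
  apply mul_le_mul_of_nonneg_left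
  · have hinj : Set.InjOn (fun p : ℕ × ℕ => Nat.gcd p.1 p.2) (Fb : Set (ℕ × ℕ)) := by
      intro p hp p' hp' h
      rw [Finset.mem_coe, hFb, Finset.mem_filter, mem_offd] at hp hp'
      obtain ⟨_, e1, e2, _, _, _⟩ := red_spec hp.1.1.1.1 hp.1.1.2.1
      obtain ⟨_, e1', e2', _, _, _⟩ := red_spec hp'.1.1.1.1 hp'.1.1.2.1
      rw [hp.2] at e1 e2
      rw [hp'.2] at e1' e2'
      simp only at h
      rw [h] at e1 e2
      exact Prod.ext (e1.symm.trans e1') (e2.symm.trans e2')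
    rw [← Finset.sum_image (f := fun g : ℕ => (dd g) ^ (2 * k) / (g : ℝ)) (s := Fb)
      (g := fun p : ℕ × ℕ => Nat.gcd p.1 p.2) hinj]
    refine le_trans ?_ (divsum_le_log (2 * k) K)
    apply Finset.sum_le_sum_of_subset_of_nonneg
    · intro g hg
      obtain ⟨p, hp, rfl⟩ := Finset.mem_image.1 hg
      rw [hFb, Finset.mem_filter, mem_offd] at hp
      rw [Finset.mem_Icc]
      exact ⟨Nat.gcd_pos_of_pos_left _ hp.1.1.1.1, (Nat.gcd_le_left _ hp.1.1.1.1).trans hp.1.1.1.2⟩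
    · intro g _ _
      have := dd_nonneg g
      positivity
  · have := dd_nonneg r.1
    have := dd_nonneg r.2
    positivity

lemma norm_cw_le (N k : ℕ) {σ : ℝ} (hσ : 1 / 2 ≤ σ) (V : ℝ) {r : ℕ × ℕ} (hr : r ∈ RR (N ^ k)) :
    ‖cw N k σ V r‖ ≤ ((dd r.1 * dd r.2) ^ k * ((r.1 : ℝ) ^ (-(1 / 2) : ℝ) * (r.2 : ℝ) ^ (-(1 / 2) : ℝ))) *
        (1 + Real.log ((N ^ k : ℕ) : ℝ)) ^ (2 ^ (2 * k)) * ‖wV V (ph r)‖ := by
  unfold cw
  rw [norm_mul, Complex.norm_real, Real.norm_of_nonneg (Finset.sum_nonneg (fun p _ => gam_nonneg N k σ p))]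
  exact mul_le_mul_of_nonneg_right (fiber_sum_le N k hσ hr) (norm_nonneg _)

/-- kernel -/
noncomputable def GK (a b : ℕ) : ℝ := (max (a:ℝ) (b:ℝ)) / (|(a : ℝ) - b| * ((a : ℝ) * b))

lemma GK_nonneg (a b : ℕ) : 0 ≤ GK a b := by
  unfold GK
  apply div_nonneg
  · exact le_max_of_le_left (Nat.cast_nonneg _)
  · positivity

lemma GK_symm (a b : ℕ) : GK a b = GK b a := by
  unfold GK
  rw [max_comm, abs_sub_comm, mul_comm (a : ℝ) b]

lemma GK_le {a b : ℕ} (ha : 1 ≤ a) (hb : 1 ≤ b) : GK a b ≤ (1 / a) * (1 / |(a : ℝ) - b| + 1 / b) := by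
  have ha' : (0:ℝ) < a := by exact_mod_cast ha
  have hb' : (0:ℝ) < b := by exact_mod_cast hb
  unfold GK
  rcases eq_or_ne a b with h | h
  · subst h; simp; positivity
  · have h1 : 0 < |(a : ℝ) - b| := by
      rw [abs_pos]
      intro h2
      apply h
      exact_mod_cast sub_eq_zero.1 h2
    have h2 : max (a:ℝ) (b:ℝ) ≤ b + |(a : ℝ) - b| := by
      apply max_le
      · have := le_abs_self ((a : ℝ) - b); linarith
      · linarith
    have h3 : (1 / (a:ℝ)) * (1 / |(a : ℝ) - b| + 1 / b) = (b + |(a : ℝ) - b|) / (|(a : ℝ) - b| * ((a : ℝ) * b)) := by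
      field_simp
    rw [h3]
    exact div_le_div_of_nonneg_right h2 (by positivity)

lemma sum_inj_le {K : ℕ} (S : Finset ℕ) (φ : ℕ → ℕ) (hinj : Set.InjOn φ (S : Set ℕ))
    (hm : ∀ b ∈ S, φ b ∈ Finset.Icc 1 K) : ∑ b ∈ S, (1 / (φ b : ℝ)) ≤ 1 + Real.log K := by
  rw [← Finset.sum_image (f := fun n : ℕ => 1 / (n : ℝ)) (g := φ) hinj]
  refine le_trans ?_ (harm_le K)
  apply Finset.sum_le_sum_of_subset_of_nonneg
  · intro n hn
    obtain ⟨b, hb, rfl⟩ := Finset.mem_image.1 hn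
    exact hm b hb
  · intro n _ _; positivity

lemma sum_inv_dist_le {K a : ℕ} (ha1 : 1 ≤ a) (haK : a ≤ K) :
    ∑ b ∈ Finset.Icc 1 K, (1 / |(a : ℝ) - b|) ≤ 2 * (1 + Real.log K) := by
  rw [← Finset.sum_filter_add_sum_filter_not (Finset.Icc 1 K) (fun b => b < a)]
  have h1 : ∑ b ∈ (Finset.Icc 1 K).filter (fun b => b < a), (1 / |(a : ℝ) - b|) ≤ 1 + Real.log K := by
    have : ∀ b ∈ (Finset.Icc 1 K).filter (fun b => b < a), 1 / |(a : ℝ) - b| = 1 / (((a - b : ℕ)) : ℝ) := by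
      intro b hb
      rw [Finset.mem_filter] at hb
      rw [Nat.cast_sub hb.2.le, abs_of_nonneg]
      have : (b:ℝ) < a := by exact_mod_cast hb.2
      linarith
    rw [Finset.sum_congr rfl this]
    apply sum_inj_le _ (fun b => a - b)
    · intro b hb b' hb' h
      rw [Finset.mem_coe, Finset.mem_filter] at hb hb'
      simp only at h
      omega
    · intro b hb
      rw [Finset.mem_filter, Finset.mem_Icc] at hb
      rw [Finset.mem_Icc]
      omega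
  have h2 : ∑ b ∈ (Finset.Icc 1 K).filter (fun b => ¬ (b < a)), (1 / |(a : ℝ) - b|) ≤ 1 + Real.log K := by
    have h3 : ∑ b ∈ (Finset.Icc 1 K).filter (fun b => ¬ (b < a)), (1 / |(a : ℝ) - b|) =
        ∑ b ∈ (Finset.Icc 1 K).filter (fun b => a < b), (1 / |(a : ℝ) - b|) := by
      symm
      apply Finset.sum_subset
      · intro b hb
        rw [Finset.mem_filter] at hb ⊢
        exact ⟨hb.1, by omega⟩
      · intro b hb hb'
        rw [Finset.mem_filter] at hb hb'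
        have : b = a := by
          by_contra hne
          exact hb' ⟨hb.1, by omega⟩
        rw [this]; simp
    rw [h3]
    have : ∀ b ∈ (Finset.Icc 1 K).filter (fun b => a < b), 1 / |(a : ℝ) - b| = 1 / (((b - a : ℕ)) : ℝ) := by
      intro b hb
      rw [Finset.mem_filter] at hb
      rw [Nat.cast_sub hb.2.le, abs_sub_comm, abs_of_nonneg]
      have : (a:ℝ) < b := by exact_mod_cast hb.2
      linarith
    rw [Finset.sum_congr rfl this]
    apply sum_inj_le _ (fun b => b - a)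
    · intro b hb b' hb' h
      rw [Finset.mem_coe, Finset.mem_filter] at hb hb'
      simp only at h
      omega
    · intro b hb
      rw [Finset.mem_filter, Finset.mem_Icc] at hb
      rw [Finset.mem_Icc]
      omega
  linarith

lemma GK_sum_le {K a : ℕ} (ha1 : 1 ≤ a) (haK : a ≤ K) :
    ∑ b ∈ Finset.Icc 1 K, GK a b ≤ 3 * (1 + Real.log K) / a := by
  have h1 : ∀ b ∈ Finset.Icc 1 K, GK a b ≤ (1 / a) * (1 / |(a : ℝ) - b| + 1 / b) :=
    fun b hb => GK_le ha1 (Finset.mem_Icc.1 hb).1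
  refine (Finset.sum_le_sum h1).trans ?_
  rw [← Finset.mul_sum, Finset.sum_add_distrib]
  have h2 := sum_inv_dist_le ha1 haK
  have h3 := harm_le K
  have ha' : (0:ℝ) < a := by exact_mod_cast ha1
  rw [one_div, inv_mul_eq_div]
  apply div_le_div_of_nonneg_right _ ha'.le
  linarith

lemma quad_sum_le (K : ℕ) (f : ℕ → ℝ) :
    ∑ r ∈ offd K, GK r.1 r.2 * (f r.1 * f r.2) ≤ ∑ a ∈ Finset.Icc 1 K, f a ^ 2 * (3 * (1 + Real.log K) / a) := by
  have h0 : ∑ r ∈ offd K, GK r.1 r.2 * (f r.1 * f r.2) ≤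
      ∑ r ∈ offd K, GK r.1 r.2 * ((f r.1 ^ 2 + f r.2 ^ 2) / 2) := by
    apply Finset.sum_le_sum
    intro r _
    apply mul_le_mul_of_nonneg_left _ (GK_nonneg _ _)
    nlinarith [sq_nonneg (f r.1 - f r.2)]
  have h1 : ∑ r ∈ offd K, GK r.1 r.2 * ((f r.1 ^ 2 + f r.2 ^ 2) / 2) ≤
      ∑ r ∈ Finset.Icc 1 K ×ˢ Finset.Icc 1 K, GK r.1 r.2 * ((f r.1 ^ 2 + f r.2 ^ 2) / 2) := by
    apply Finset.sum_le_sum_of_subset_of_nonneg (Finset.filter_subset _ _)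
    intro r _ _
    have := GK_nonneg r.1 r.2
    positivity
  have h2 : ∑ r ∈ Finset.Icc 1 K ×ˢ Finset.Icc 1 K, GK r.1 r.2 * ((f r.1 ^ 2 + f r.2 ^ 2) / 2) =
      ∑ a ∈ Finset.Icc 1 K, ∑ b ∈ Finset.Icc 1 K, GK a b * f a ^ 2 := by
    rw [Finset.sum_product]
    have e1 : ∑ a ∈ Finset.Icc 1 K, ∑ b ∈ Finset.Icc 1 K, GK a b * f b ^ 2 =
        ∑ a ∈ Finset.Icc 1 K, ∑ b ∈ Finset.Icc 1 K, GK a b * f a ^ 2 := by
      rw [Finset.sum_comm]
      refine Finset.sum_congr rfl (fun a _ => Finset.sum_congr rfl (fun b _ => ?_))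
      rw [GK_symm]
    have e2 : ∑ a ∈ Finset.Icc 1 K, ∑ b ∈ Finset.Icc 1 K, GK a b * ((f a ^ 2 + f b ^ 2) / 2) =
        (∑ a ∈ Finset.Icc 1 K, ∑ b ∈ Finset.Icc 1 K, GK a b * f a ^ 2) / 2 +
        (∑ a ∈ Finset.Icc 1 K, ∑ b ∈ Finset.Icc 1 K, GK a b * f b ^ 2) / 2 := by
      rw [← add_div, ← Finset.sum_add_distrib, Finset.sum_div]
      refine Finset.sum_congr rfl (fun a _ => ?_)
      rw [← Finset.sum_add_distrib, Finset.sum_div]
      refine Finset.sum_congr rfl (fun b _ => ?_)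
      ring
    rw [e2, e1]; ring
  refine h0.trans (h1.trans (h2.le.trans ?_))
  apply Finset.sum_le_sum
  intro a ha
  rw [← Finset.sum_mul, mul_comm]
  exact mul_le_mul_of_nonneg_left (GK_sum_le (Finset.mem_Icc.1 ha).1 (Finset.mem_Icc.1 ha).2) (sq_nonneg _)

lemma log_diff_lower {a b : ℕ} (ha : 1 ≤ a) (hb : 1 ≤ b) :
    |(a : ℝ) - b| / max (a:ℝ) (b:ℝ) ≤ |Real.log b - Real.log a| := by
  wlog h : b ≤ a generalizing a b
  · rw [abs_sub_comm, max_comm, abs_sub_comm (Real.log b)]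
    exact this hb ha (by omega)
  have ha' : (0:ℝ) < a := by exact_mod_cast ha
  have hb' : (0:ℝ) < b := by exact_mod_cast hb
  have h' : (b:ℝ) ≤ a := by exact_mod_cast h
  rw [max_eq_left h', abs_of_nonneg (by linarith)]
  have h1 : Real.log b - Real.log a ≤ b / a - 1 := by
    rw [← Real.log_div hb'.ne' ha'.ne']
    exact Real.log_le_sub_one_of_pos (by positivity)
  have h2 : ((a:ℝ) - b) / a = -(b / a - 1) := by field_simp; ring
  rw [h2]
  refine le_trans ?_ (neg_le_abs _)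
  linarith

/-- exponent of the logarithm -/
def EE (k q : ℕ) : ℕ := 2 ^ (2 * k) * 2 + 1 + 2 ^ (2 * (2 * k + Mj q))

theorem weighted_sum_le (N k q : ℕ) (hN : 1 ≤ N) {σ : ℝ} (hσ : 1 / 2 ≤ σ) {V : ℝ} (hV : 0 ≤ V) :
    ∑ r ∈ RR (N ^ k), ‖cw N k σ V r‖ ^ 2 * Wt q (pl (N ^ k)) (Ex r) ≤
      6 * V * (1 + Real.log ((N ^ k : ℕ) : ℝ)) ^ EE k q := by
  set K := N ^ k with hK
  have hK1 : 1 ≤ K := Nat.one_le_pow _ _ hN
  set L := 1 + Real.log (K : ℝ) with hL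
  have hL1 : 1 ≤ L := by
    have : 0 ≤ Real.log (K : ℝ) := Real.log_nonneg (by exact_mod_cast hK1)
    linarith
  set f : ℕ → ℝ := fun n => dd n ^ (2 * k + Mj q) with hf
  have hf0 : ∀ n, 0 ≤ f n := fun n => pow_nonneg (dd_nonneg n) _
  have hterm : ∀ r ∈ RR K, ‖cw N k σ V r‖ ^ 2 * Wt q (pl K) (Ex r) ≤
      (2 * V * (L ^ (2 ^ (2 * k))) ^ 2) * (GK r.1 r.2 * (f r.1 * f r.2)) := by
    intro r hr
    have hs := RR_spec r hr
    have ho := (mem_offd.1 (RR_sub hr)).2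
    have ha' : (0:ℝ) < r.1 := by exact_mod_cast hs.1.1
    have hb' : (0:ℝ) < r.2 := by exact_mod_cast hs.2.1
    have hne : ((r.1 : ℕ) : ℝ) ≠ r.2 := by exact_mod_cast ho
    have hab : 0 < |(r.1 : ℝ) - r.2| := abs_pos.2 (sub_ne_zero.2 hne)
    have hmax : 0 < max (r.1:ℝ) (r.2:ℝ) := lt_max_of_lt_left ha'
    have h1 := norm_cw_le N k hσ V hr
    have h2 : Wt q (pl K) (Ex r) ≤ (dd r.1 * dd r.2) ^ Mj q := Wt_le (by omega) (by omega) hs.1.2 hs.2.2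
    have hlow := log_diff_lower hs.1.1 hs.2.1
    have hph : 0 < |ph r| := by
      unfold ph
      exact lt_of_lt_of_le (by positivity) hlow
    have h3 : ‖wV V (ph r)‖ ^ 2 ≤ V * (2 * (max (r.1:ℝ) (r.2:ℝ) / |(r.1 : ℝ) - r.2|)) := by
      refine (norm_wV_sq_le hV (abs_pos.1 hph)).trans ?_
      apply mul_le_mul_of_nonneg_left _ hV
      rw [div_eq_mul_inv]
      apply mul_le_mul_of_nonneg_left _ (by norm_num)
      rw [← inv_div]
      apply inv_anti₀ (by positivity)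
      exact hlow
    have hd1 := dd_nonneg r.1
    have hd2 := dd_nonneg r.2
    have hh1 := half_mul_self hs.1.1
    have hh2 := half_mul_self hs.2.1
    have hsq : ‖cw N k σ V r‖ ^ 2 ≤ ((dd r.1 * dd r.2) ^ (2 * k) * (1 / ((r.1:ℝ) * r.2))) * (L ^ (2 ^ (2 * k))) ^ 2 *
        ‖wV V (ph r)‖ ^ 2 := by
      refine (pow_le_pow_left₀ (norm_nonneg _) h1 2).trans (le_of_eq ?_)
      have e1 : (1 / ((r.1:ℝ) * r.2)) = ((r.1 : ℝ) ^ (-(1 / 2) : ℝ) * (r.1 : ℝ) ^ (-(1 / 2) : ℝ)) *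
          ((r.2 : ℝ) ^ (-(1 / 2) : ℝ) * (r.2 : ℝ) ^ (-(1 / 2) : ℝ)) := by
        rw [hh1, hh2]; field_simp
      rw [e1, mul_comm 2 k, pow_mul]
      ring
    calc ‖cw N k σ V r‖ ^ 2 * Wt q (pl K) (Ex r)
        ≤ (((dd r.1 * dd r.2) ^ (2 * k) * (1 / ((r.1:ℝ) * r.2))) * (L ^ (2 ^ (2 * k))) ^ 2 *
          (V * (2 * (max (r.1:ℝ) (r.2:ℝ) / |(r.1 : ℝ) - r.2|)))) * (dd r.1 * dd r.2) ^ Mj q := by
          apply mul_le_mul _ h2 (Wt_nonneg _ _ _) (by positivity)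
          exact hsq.trans (mul_le_mul_of_nonneg_left h3 (by positivity))
      _ = _ := by
          rw [hf]
          unfold GK
          simp only
          rw [pow_add, pow_add, mul_pow, mul_pow]
          field_simp
  refine (Finset.sum_le_sum hterm).trans ?_
  rw [← Finset.mul_sum]
  have h1 : ∑ r ∈ RR K, GK r.1 r.2 * (f r.1 * f r.2) ≤ ∑ r ∈ offd K, GK r.1 r.2 * (f r.1 * f r.2) := by
    apply Finset.sum_le_sum_of_subset_of_nonneg RR_sub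
    intro r _ _
    exact mul_nonneg (GK_nonneg _ _) (mul_nonneg (hf0 _) (hf0 _))
  have h2 := quad_sum_le K f
  have h3 : ∑ a ∈ Finset.Icc 1 K, f a ^ 2 * (3 * (1 + Real.log K) / a) ≤
      3 * L * L ^ (2 ^ (2 * (2 * k + Mj q))) := by
    have e : ∑ a ∈ Finset.Icc 1 K, f a ^ 2 * (3 * (1 + Real.log K) / a) =
        3 * L * ∑ a ∈ Finset.Icc 1 K, dd a ^ (2 * (2 * k + Mj q)) / (a : ℝ) := by
      rw [Finset.mul_sum]
      refine Finset.sum_congr rfl (fun a _ => ?_)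
      rw [hf, hL]
      simp only
      rw [← pow_mul, mul_comm (2 * k + Mj q) 2]
      ring
    rw [e]
    exact mul_le_mul_of_nonneg_left (divsum_le_log _ _) (by positivity)
  have h4 : 0 ≤ 2 * V * (L ^ (2 ^ (2 * k))) ^ 2 := by positivity
  refine (mul_le_mul_of_nonneg_left (h1.trans (h2.trans h3)) h4).trans (le_of_eq ?_)
  unfold EE
  rw [pow_add, pow_add, pow_one, pow_mul]
  ring

theorem l1_sum_le (N k : ℕ) {σ : ℝ} (hσ : 0 ≤ σ) {V : ℝ} (hV : 0 ≤ V) :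
    ∑ r ∈ RR (N ^ k), ‖cw N k σ V r‖ ≤ V * ((N ^ k : ℕ) : ℝ) ^ 2 := by
  set K := N ^ k with hK
  have h1 : ∀ r ∈ RR K, ‖cw N k σ V r‖ ≤ V * ∑ p ∈ (offd K).filter (fun p => red p = r), gam N k σ p := by
    intro r _
    unfold cw
    rw [norm_mul, Complex.norm_real, Real.norm_of_nonneg (Finset.sum_nonneg (fun p _ => gam_nonneg N k σ p)), mul_comm]
    exact mul_le_mul_of_nonneg_right (norm_wV_le hV) (Finset.sum_nonneg (fun p _ => gam_nonneg N k σ p))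
  refine (Finset.sum_le_sum h1).trans ?_
  rw [← Finset.mul_sum]
  apply mul_le_mul_of_nonneg_left _ hV
  rw [Finset.sum_fiberwise_of_maps_to (s := offd K) (t := RR K) (g := red)
      (fun p hp => Finset.mem_image_of_mem _ hp)]
  have h2 : ∑ p ∈ offd K, gam N k σ p ≤ ∑ p ∈ Finset.Icc 1 K ×ˢ Finset.Icc 1 K, gam N k σ p :=
    Finset.sum_le_sum_of_subset_of_nonneg (Finset.filter_subset _ _) (fun p _ _ => gam_nonneg N k σ p)
  refine h2.trans ?_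
  have h3 : ∀ p ∈ Finset.Icc 1 K ×ˢ Finset.Icc 1 K, gam N k σ p ≤ (al N k p.1 : ℝ) * (al N k p.2 : ℝ) := by
    intro p hp
    rw [Finset.mem_product, Finset.mem_Icc, Finset.mem_Icc] at hp
    unfold gam
    have hle : ∀ n : ℕ, 1 ≤ n → (n : ℝ) ^ (-σ) ≤ 1 := by
      intro n hn
      apply Real.rpow_le_one_of_one_le_of_nonpos (by exact_mod_cast hn) (by linarith)
    have h4 : (p.1 : ℝ) ^ (-σ) * (p.2 : ℝ) ^ (-σ) ≤ 1 :=
      mul_le_one₀ (hle _ hp.1.1) (by positivity) (hle _ hp.2.1)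
    have h5 : (0:ℝ) ≤ (al N k p.1 : ℝ) * (al N k p.2 : ℝ) := by positivity
    nlinarith
  refine (Finset.sum_le_sum h3).trans ?_
  rw [Finset.sum_product]
  simp only
  rw [← Finset.sum_mul_sum]
  have h4 : ∑ n ∈ Finset.Icc 1 K, (al N k n : ℝ) = (K : ℝ) := by
    have := sum_al N k
    rw [← hK] at this
    exact_mod_cast this
  rw [h4, sq]

/-- the window error -/
noncomputable def We (N k : ℕ) (σ V u : ℝ) : ℝ := (∫ t in u..(u + V), ‖PN N σ t‖ ^ (2 * k)) - V * Dg N k σ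

lemma abs_We (N k : ℕ) (σ V u : ℝ) : |We N k σ V u| = ‖Osum (RR (N ^ k)) (cw N k σ V) u‖ := by
  rw [← window_eq, Complex.norm_real]; rfl

theorem We_mean (N k q : ℕ) (hN : 1 ≤ N) {σ : ℝ} (hσ : 1 / 2 ≤ σ) {V U : ℝ} (hV : 0 ≤ V) (hU : 0 ≤ U) :
    ∫ u in U..(2 * U), |We N k σ V u| ^ (2 * q) ≤
      U * (6 * V * (1 + Real.log ((N ^ k : ℕ) : ℝ)) ^ EE k q) ^ q +
        (V * ((N ^ k : ℕ) : ℝ) ^ 2) ^ (2 * q) * (2 * ((N ^ k : ℕ) : ℝ) ^ (2 * q)) := by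
  simp_rw [abs_We]
  refine (mean_pow_le (K := N ^ k) (q := q) RR_spec RR_coprime (cw N k σ V) hU).trans ?_
  have h1 := weighted_sum_le N k q hN hσ hV
  have h2 := l1_sum_le N k (show 0 ≤ σ by linarith) hV
  have h3 : 0 ≤ ∑ r ∈ RR (N ^ k), ‖cw N k σ V r‖ ^ 2 * Wt q (pl (N ^ k)) (Ex r) :=
    Finset.sum_nonneg (fun r _ => mul_nonneg (by positivity) (Wt_nonneg _ _ _))
  have h4 : 0 ≤ ∑ r ∈ RR (N ^ k), ‖cw N k σ V r‖ := Finset.sum_nonneg (fun r _ => norm_nonneg _)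
  apply add_le_add
  · exact mul_le_mul_of_nonneg_left (pow_le_pow_left₀ h3 h1 q) hU
  · exact mul_le_mul_of_nonneg_right (pow_le_pow_left₀ h4 h2 _) (by positivity)

end Pool.Agent.P07318d
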