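import Pool.Agent.Lib.P07318d.MeanU

/-!
# Divisor sums
-/

set_option autoImplicit false

namespace Pool.Agent.P07318d

open Finset

/-- number of divisors, as a real number -/
noncomputable def dd (n : ℕ) : ℝ := (n.divisors.card : ℝ)

lemma dd_nonneg (n : ℕ) : 0 ≤ dd n := Nat.cast_nonneg _

lemma one_le_dd {n : ℕ} (hn : n ≠ 0) : 1 ≤ dd n := by
  unfold dd
  have : 1 ≤ n.divisors.card := Finset.card_pos.2 ⟨1, Nat.one_mem_divisors.2 hn⟩
  exact_mod_cast this

lemma card_divisors_mul_le (m n : ℕ) : (m * n).divisors.card ≤ m.divisors.card * n.divisors.card := by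
  have h : (m * n).divisors ⊆ (m.divisors ×ˢ n.divisors).image (fun p => p.1 * p.2) := by
    intro k hk
    rw [Nat.mem_divisors] at hk
    obtain ⟨k1, k2, h1, h2, h3⟩ := (Nat.dvd_mul).1 hk.1
    rw [Finset.mem_image]
    refine ⟨(k1, k2), ?_, h3⟩
    rw [Finset.mem_product, Nat.mem_divisors, Nat.mem_divisors]
    exact ⟨⟨h1, left_ne_zero_of_mul hk.2⟩, ⟨h2, right_ne_zero_of_mul hk.2⟩⟩
  refine (Finset.card_le_card h).trans ?_
  refine Finset.card_image_le.trans ?_
  rw [Finset.card_product]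

lemma dd_mul_le (m n : ℕ) : dd (m * n) ≤ dd m * dd n := by
  unfold dd; exact_mod_cast card_divisors_mul_le m n

theorem divsum_le (M x : ℕ) (s : ℝ) :
    ∑ n ∈ Finset.Icc 1 x, (dd n) ^ M * (n : ℝ) ^ (-s) ≤ (∑ n ∈ Finset.Icc 1 x, (n : ℝ) ^ (-s)) ^ (2 ^ M) := by
  induction M with
  | zero => simp
  | succ M ih =>
    set g : ℕ × ℕ → ℝ := fun p => ((dd p.1) ^ M * (p.1 : ℝ) ^ (-s)) * ((dd p.2) ^ M * (p.2 : ℝ) ^ (-s)) with hg
    have hg0 : ∀ p, 0 ≤ g p := by
      intro p; rw [hg]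
      have := dd_nonneg p.1
      have := dd_nonneg p.2
      positivity
    set P := (Finset.Icc 1 x ×ˢ Finset.Icc 1 x).filter (fun p => p.1 * p.2 ≤ x) with hP
    have h1 : ∑ n ∈ Finset.Icc 1 x, (dd n) ^ (M + 1) * (n : ℝ) ^ (-s) ≤ ∑ p ∈ P, g p := by
      rw [← Finset.sum_fiberwise_of_maps_to (s := P) (t := Finset.Icc 1 x) (g := fun p => p.1 * p.2)
        (by
          intro p hp
          rw [hP, Finset.mem_filter, Finset.mem_product, Finset.mem_Icc, Finset.mem_Icc] at hp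
          rw [Finset.mem_Icc]
          exact ⟨Nat.mul_pos hp.1.1.1 hp.1.2.1, hp.2⟩)]
      apply Finset.sum_le_sum
      intro n hn
      rw [Finset.mem_Icc] at hn
      have h2 : P.filter (fun p => p.1 * p.2 = n) = n.divisorsAntidiagonal := by
        ext ⟨a, b⟩
        rw [Finset.mem_filter, hP, Finset.mem_filter, Finset.mem_product, Finset.mem_Icc, Finset.mem_Icc,
          Nat.mem_divisorsAntidiagonal]
        constructor
        · rintro ⟨_, h⟩
          exact ⟨h, by omega⟩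
        · rintro ⟨h, h'⟩
          simp only at h
          have ha : a ≠ 0 := by rintro rfl; simp at h; omega
          have hb : b ≠ 0 := by rintro rfl; simp at h; omega
          have ha' : a ≤ n := Nat.le_of_dvd (by omega) ⟨b, h.symm⟩
          have hb' : b ≤ n := Nat.le_of_dvd (by omega) ⟨a, by rw [mul_comm]; exact h.symm⟩
          refine ⟨⟨⟨⟨by simp only; omega, by simp only; omega⟩, ⟨by simp only; omega, by simp only; omega⟩⟩, by simp only; omega⟩, h⟩
      rw [h2]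
      have h3 : ∀ p ∈ n.divisorsAntidiagonal, (dd n) ^ M * (n : ℝ) ^ (-s) ≤ g p := by
        intro p hp
        rw [Nat.mem_divisorsAntidiagonal] at hp
        rw [hg, ← hp.1]
        simp only
        have h4 : dd (p.1 * p.2) ^ M ≤ dd p.1 ^ M * dd p.2 ^ M := by
          rw [← mul_pow]
          exact pow_le_pow_left₀ (dd_nonneg _) (dd_mul_le _ _) M
        have h5 : (((p.1 * p.2 : ℕ)) : ℝ) ^ (-s) = (p.1 : ℝ) ^ (-s) * (p.2 : ℝ) ^ (-s) := by
          push_cast
          rw [Real.mul_rpow (Nat.cast_nonneg _) (Nat.cast_nonneg _)]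
        rw [h5]
        have h6 : 0 ≤ (p.1 : ℝ) ^ (-s) * (p.2 : ℝ) ^ (-s) := by positivity
        calc _ ≤ (dd p.1 ^ M * dd p.2 ^ M) * ((p.1 : ℝ) ^ (-s) * (p.2 : ℝ) ^ (-s)) :=
              mul_le_mul_of_nonneg_right h4 h6
          _ = _ := by ring
      have h4 : n.divisorsAntidiagonal.card = n.divisors.card := by
        rw [← Nat.map_div_right_divisors, Finset.card_map]
      calc (dd n) ^ (M + 1) * (n : ℝ) ^ (-s) = n.divisorsAntidiagonal.card • ((dd n) ^ M * (n : ℝ) ^ (-s)) := by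
            rw [h4, nsmul_eq_mul]; unfold dd; ring
        _ ≤ _ := Finset.card_nsmul_le_sum _ _ _ h3
    have h2 : ∑ p ∈ P, g p ≤ ∑ p ∈ Finset.Icc 1 x ×ˢ Finset.Icc 1 x, g p :=
      Finset.sum_le_sum_of_subset_of_nonneg (Finset.filter_subset _ _) (fun p _ _ => hg0 p)
    have h3 : ∑ p ∈ Finset.Icc 1 x ×ˢ Finset.Icc 1 x, g p =
        (∑ n ∈ Finset.Icc 1 x, (dd n) ^ M * (n : ℝ) ^ (-s)) ^ 2 := by
      rw [Finset.sum_product, sq, Finset.sum_mul_sum]
    have h4 : 0 ≤ ∑ n ∈ Finset.Icc 1 x, (dd n) ^ M * (n : ℝ) ^ (-s) :=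
      Finset.sum_nonneg (fun n _ => by have := dd_nonneg n; positivity)
    calc _ ≤ (∑ n ∈ Finset.Icc 1 x, (dd n) ^ M * (n : ℝ) ^ (-s)) ^ 2 := h1.trans (h2.trans h3.le)
      _ ≤ ((∑ n ∈ Finset.Icc 1 x, (n : ℝ) ^ (-s)) ^ (2 ^ M)) ^ 2 := pow_le_pow_left₀ h4 ih 2
      _ = _ := by rw [← pow_mul, pow_succ]

lemma harm_le (x : ℕ) : ∑ n ∈ Finset.Icc 1 x, (1 / (n : ℝ)) ≤ 1 + Real.log x := by
  have h := harmonic_le_one_add_log x
  refine le_trans (le_of_eq ?_) h
  rw [harmonic_eq_sum_Icc]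
  push_cast
  refine Finset.sum_congr rfl (fun n _ => by rw [one_div])

lemma divsum_le_log (M x : ℕ) :
    ∑ n ∈ Finset.Icc 1 x, (dd n) ^ M / (n : ℝ) ≤ (1 + Real.log x) ^ (2 ^ M) := by
  have h := divsum_le M x 1
  have e1 : ∀ n : ℕ, (n : ℝ) ^ (-1 : ℝ) = 1 / (n : ℝ) := by
    intro n; rw [Real.rpow_neg_one, one_div]
  simp only [e1] at h
  have e2 : ∑ n ∈ Finset.Icc 1 x, (dd n) ^ M / (n : ℝ) = ∑ n ∈ Finset.Icc 1 x, (dd n) ^ M * (1 / (n : ℝ)) :=
    Finset.sum_congr rfl (fun n _ => by ring)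
  rw [e2]
  refine h.trans (pow_le_pow_left₀ (Finset.sum_nonneg (fun _ _ => by positivity)) (harm_le x) _)

/-- comparison with an integral -/
lemma zeta_sum_le {η : ℝ} (hη : 0 < η) (x : ℕ) :
    ∑ n ∈ Finset.Icc 1 x, (n : ℝ) ^ (-(1 + η)) ≤ 1 + 1 / η := by
  have h1 : ∀ x : ℕ, 1 ≤ x → ∑ n ∈ Finset.Icc 1 x, (n : ℝ) ^ (-(1 + η)) ≤
      1 + (1 - (x : ℝ) ^ (-η)) / η := by
    intro x hx
    induction x, hx using Nat.le_induction with
    | base => simp
    | succ x hx ih =>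
      rw [← Finset.insert_Icc_right_eq_Icc_add_one (by omega), Finset.sum_insert (by simp)]
      have hxr : (1:ℝ) ≤ x := by exact_mod_cast hx
      -- Bernoulli: (x/(x+1))^(-η)... 
      have h2 : ((x + 1 : ℕ) : ℝ) ^ (-(1 + η)) ≤ ((x : ℝ) ^ (-η) - ((x + 1 : ℕ) : ℝ) ^ (-η)) / η := by
        push_cast
        rw [le_div_iff₀ hη]
        have h3 : 1 + η * (1 / (x + 1 : ℝ)) ≤ ((x : ℝ) / (x + 1)) ^ (-η) := by
          have h4 : ((x : ℝ) / (x + 1)) ^ (-η) = Real.exp (-η * Real.log ((x : ℝ) / (x + 1))) := by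
            rw [Real.rpow_def_of_pos (by positivity)]; congr 1; ring
          rw [h4]
          have h5 : Real.log ((x : ℝ) / (x + 1)) ≤ (x : ℝ) / (x + 1) - 1 :=
            Real.log_le_sub_one_of_pos (by positivity)
          have h6 : (x : ℝ) / (x + 1) - 1 = - (1 / (x + 1)) := by field_simp; ring
          have h7 := Real.add_one_le_exp (-η * Real.log ((x : ℝ) / (x + 1)))
          rw [h6] at h5
          nlinarith
        have h8 : (x : ℝ) ^ (-η) = ((x : ℝ) / (x + 1)) ^ (-η) * ((x:ℝ) + 1) ^ (-η) := by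
          rw [← Real.mul_rpow (by positivity) (by positivity)]
          congr 1; field_simp
        have h9 : ((x:ℝ) + 1) ^ (-(1 + η)) = ((x:ℝ) + 1) ^ (-η) * (1 / (x + 1)) := by
          rw [show (-(1 + η)) = -η + (-1) by ring, Real.rpow_add (by positivity), Real.rpow_neg_one, one_div]
        rw [h8, h9]
        have h10 : 0 < ((x:ℝ) + 1) ^ (-η) := by positivity
        nlinarith [mul_le_mul_of_nonneg_right h3 h10.le]
      have h3 : (1 - ((x + 1 : ℕ) : ℝ) ^ (-η)) / η = (1 - (x : ℝ) ^ (-η)) / η +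
          ((x : ℝ) ^ (-η) - ((x + 1 : ℕ) : ℝ) ^ (-η)) / η := by ring
      rw [h3]
      linarith
  rcases Nat.eq_zero_or_pos x with h | h
  · subst h; simp; positivity
  · refine (h1 x h).trans ?_
    have h4 : 0 ≤ (x : ℝ) ^ (-η) := by positivity
    have h5 : (1 - (x : ℝ) ^ (-η)) / η ≤ 1 / η := div_le_div_of_nonneg_right (by linarith) hη.le
    linarith

/-- exponent -/
def Mj (j : ℕ) : ℕ := 3 * j + 8

lemma wt_le (j : ℕ) (n : ℤ) : wt j n ≤ ((n.natAbs : ℝ) + 1) ^ Mj j := by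
  unfold wt Mj
  split_ifs with h
  · subst h; simp
  · have h1 : (1:ℝ) ≤ (n.natAbs : ℝ) := by
      have : 1 ≤ n.natAbs := by omega
      exact_mod_cast this
    have h2 : ((n : ℤ) : ℝ) ^ 2 = (n.natAbs : ℝ) ^ 2 := by
      rw [← sq_abs]
      congr 1
      rw [Nat.cast_natAbs]; push_cast; rfl
    rw [h2]
    have h3 : (3 * j + 8) = 3 * j + 6 + 2 := by ring
    rw [h3, pow_add]
    have h4 : 4 * (1 + 9 * (5:ℝ) ^ j) ≤ ((n.natAbs : ℝ) + 1) ^ (3 * j + 6) := by
      have h5 : (2:ℝ) ^ (3 * j + 6) ≤ ((n.natAbs : ℝ) + 1) ^ (3 * j + 6) :=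
        pow_le_pow_left₀ (by norm_num) (by linarith) _
      have h6 : (2:ℝ) ^ (3 * j + 6) = 64 * 8 ^ j := by
        rw [pow_add, pow_mul]; norm_num; ring
      have h7 : (5:ℝ) ^ j ≤ 8 ^ j := pow_le_pow_left₀ (by norm_num) (by norm_num) j
      have h8 : (1:ℝ) ≤ 8 ^ j := one_le_pow₀ (by norm_num)
      linarith
    have h9 : (n.natAbs : ℝ) ^ 2 ≤ ((n.natAbs : ℝ) + 1) ^ 2 := pow_le_pow_left₀ (by positivity) (by linarith) 2
    exact mul_le_mul h4 h9 (by positivity) (by positivity)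

lemma prod_fact_le {K n : ℕ} (hn : n ≠ 0) (hnK : n ≤ K) :
    ((pl K).map (fun p => ((n.factorization p : ℝ) + 1))).prod = dd n := by
  unfold dd pl
  rw [Nat.card_divisors hn]
  have h1 : (((Finset.range (K + 1)).filter Nat.Prime).toList.map (fun p => ((n.factorization p : ℝ) + 1))).prod =
      ∏ p ∈ (Finset.range (K + 1)).filter Nat.Prime, ((n.factorization p : ℝ) + 1) := by
    rw [Finset.prod_map_toList]
  rw [h1]
  push_cast
  symm
  apply Finset.prod_subset
  · intro p hp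
    rw [Nat.mem_primeFactors] at hp
    rw [Finset.mem_filter, Finset.mem_range]
    exact ⟨Nat.lt_succ_of_le ((Nat.le_of_dvd (Nat.pos_of_ne_zero hn) hp.2.1).trans hnK), hp.1⟩
  · intro p _ hp
    have : n.factorization p = 0 := by
      rw [← Nat.support_factorization] at hp
      exact Finsupp.notMem_support_iff.1 hp
    rw [this]; simp

lemma Wt_le {K j : ℕ} {r : ℕ × ℕ} (h1 : r.1 ≠ 0) (h2 : r.2 ≠ 0) (h1K : r.1 ≤ K) (h2K : r.2 ≤ K) :
    Wt j (pl K) (Ex r) ≤ (dd r.1 * dd r.2) ^ Mj j := by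
  rw [← prod_fact_le h1 h1K, ← prod_fact_le h2 h2K, ← List.prod_map_mul]
  unfold Wt
  have key : ∀ l : List ℕ, (l.map (fun p => wt j (Ex r p))).prod ≤
      (l.map (fun p => ((r.1.factorization p : ℝ) + 1) * ((r.2.factorization p : ℝ) + 1))).prod ^ Mj j := by
    intro l
    induction l with
    | nil => simp
    | cons p l ih =>
      rw [List.map_cons, List.prod_cons, List.map_cons, List.prod_cons, mul_pow]
      apply mul_le_mul _ ih
      · apply List.prod_nonneg
        intro a ha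
        obtain ⟨p, _, rfl⟩ := List.mem_map.1 ha
        exact wt_nonneg _ _
      · positivity
      · refine (wt_le j _).trans ?_
        apply pow_le_pow_left₀ (by positivity)
        have h3 : (((Ex r p).natAbs : ℕ) : ℝ) ≤ ((r.1.factorization p + r.2.factorization p : ℕ) : ℝ) := by
          have : (Ex r p).natAbs ≤ r.1.factorization p + r.2.factorization p := by
            unfold Ex; omega
          exact_mod_cast this
        push_cast at h3
        have h4 : (0:ℝ) ≤ (r.1.factorization p : ℝ) := Nat.cast_nonneg _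
        have h5 : (0:ℝ) ≤ (r.2.factorization p : ℝ) := Nat.cast_nonneg _
        nlinarith [mul_nonneg h4 h5]
  exact key _

end Pool.Agent.P07318d
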