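import Pool.Agent.Lib.P07318d.Sup

/-!
# Deterministic consequences for good windows, and the measure of the bad set
-/

set_option autoImplicit false

namespace Pool.Agent.P07318d

open Finset MeasureTheory

/-- window moment of zeta -/
noncomputable def Zw (k : ℕ) (σ V u : ℝ) : ℝ := ∫ t in u..(u + V), ‖riemannZeta ((σ : ℂ) + t * Complex.I)‖ ^ (2 * k)

lemma PN_cont (N : ℕ) (σ : ℝ) : Continuous (fun t => PN N σ t) := by
  unfold PN en; fun_prop

lemma pow_diff_le {a b δ : ℝ} (ha : 0 ≤ a) (hb : 0 ≤ b) (hδ0 : 0 ≤ δ) (hδ : δ ≤ 1) (hab : |a - b| ≤ δ)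
    (k : ℕ) : |a ^ (2 * k) - b ^ (2 * k)| ≤ 2 * k * 4 ^ k * δ * (b ^ (2 * k) + 1) := by
  -- `x^n - y^n` bound
  have key : ∀ n : ℕ, |a ^ n - b ^ n| ≤ n * δ * (b + 1) ^ n := by
    intro n
    induction n with
    | zero => simp
    | succ n ih =>
      have e : a ^ (n + 1) - b ^ (n + 1) = a * (a ^ n - b ^ n) + (a - b) * b ^ n := by ring
      rw [e]
      refine (abs_add_le _ _).trans ?_
      rw [abs_mul, abs_mul, abs_of_nonneg ha, abs_of_nonneg (pow_nonneg hb n)]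
      have h1 : a ≤ b + 1 := by
        have := le_abs_self (a - b); linarith
      have h2 : a * |a ^ n - b ^ n| ≤ (b + 1) * (n * δ * (b + 1) ^ n) :=
        mul_le_mul h1 ih (abs_nonneg _) (by linarith)
      have h3 : b ^ n ≤ (b + 1) ^ (n + 1) := by
        calc b ^ n ≤ (b + 1) ^ n := pow_le_pow_left₀ hb (by linarith) n
          _ ≤ (b + 1) ^ (n + 1) := pow_le_pow_right₀ (by linarith) (by omega)
      have h4 : |a - b| * b ^ n ≤ δ * (b + 1) ^ (n + 1) := mul_le_mul hab h3 (pow_nonneg hb n) hδ0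
      push_cast
      calc a * |a ^ n - b ^ n| + |a - b| * b ^ n ≤ (b + 1) * (n * δ * (b + 1) ^ n) + δ * (b + 1) ^ (n + 1) :=
            add_le_add h2 h4
        _ = (n + 1) * δ * (b + 1) ^ (n + 1) := by ring
  have h1 := key (2 * k)
  have h2 : (b + 1) ^ (2 * k) ≤ 4 ^ k * (b ^ (2 * k) + 1) := by
    have h3 : (b + 1) ^ (2 * k) ≤ (2 * max b 1) ^ (2 * k) := by
      apply pow_le_pow_left₀ (by linarith)
      have := le_max_left b 1
      have := le_max_right b 1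
      linarith
    refine h3.trans ?_
    rw [mul_pow]
    have h4 : (2:ℝ) ^ (2 * k) = 4 ^ k := by rw [pow_mul]; norm_num
    rw [h4]
    apply mul_le_mul_of_nonneg_left _ (by positivity)
    rcases max_cases b 1 with ⟨h5, _⟩ | ⟨h5, _⟩
    · rw [h5]; linarith
    · rw [h5, one_pow]
      have : 0 ≤ b ^ (2 * k) := by positivity
      linarith
  refine h1.trans ?_
  push_cast
  have h5 : 0 ≤ 2 * (k:ℝ) * δ := by positivity
  calc 2 * (k:ℝ) * δ * (b + 1) ^ (2 * k) ≤ 2 * (k:ℝ) * δ * (4 ^ k * (b ^ (2 * k) + 1)) :=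
        mul_le_mul_of_nonneg_left h2 h5
    _ = _ := by ring

lemma zeta_cont (σ : ℝ) {a c : ℝ} (ha : 0 < a) :
    ContinuousOn (fun t : ℝ => riemannZeta ((σ : ℂ) + t * Complex.I)) (Set.Icc a c) := by
  intro t ht
  apply ContinuousAt.continuousWithinAt
  have h1 : ContinuousAt riemannZeta ((σ : ℂ) + t * Complex.I) := by
    apply (differentiableAt_riemannZeta _).continuousAt
    intro h
    have := congrArg Complex.im h
    simp at this
    linarith [ht.1]
  exact ContinuousAt.comp (f := fun t : ℝ => (σ : ℂ) + t * Complex.I) h1 (by fun_prop)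

theorem good_window2 {N k : ℕ} {σ u T l1 l2 : ℝ} (hu : 0 < u) (hl2 : 0 ≤ l2) (hl2' : l2 ≤ 1)
    (hF : ∀ t ∈ Set.Icc u (u + T), ‖Fz N σ t‖ ≤ l2)
    (hW : ∀ j : ℕ, (j : ℝ) ≤ T + 1 → |We N k σ j u| ≤ l1) :
    ∀ V ∈ Set.Icc 0 T, |(Zw k σ V u - V * Dg N k σ) - We N k σ V u| ≤
      2 * k * 4 ^ k * l2 * (T * Dg N k σ + (l1 + Dg N k σ) + T) ∧ |We N k σ V u| ≤ l1 + Dg N k σ := by
  intro V hV
  have hD0 : 0 ≤ Dg N k σ := by
    unfold Dg
    exact Finset.sum_nonneg (fun _ _ => by positivity)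
  have hcont : Continuous (fun t => ‖PN N σ t‖ ^ (2 * k)) := ((PN_cont N σ).norm).pow _
  have hii : ∀ a b : ℝ, IntervalIntegrable (fun t => ‖PN N σ t‖ ^ (2 * k)) volume a b :=
    fun a b => hcont.intervalIntegrable a b
  have hmono : ∀ V₁ V₂ : ℝ, 0 ≤ V₁ → V₁ ≤ V₂ → ∫ t in u..(u + V₁), ‖PN N σ t‖ ^ (2 * k) ≤
      ∫ t in u..(u + V₂), ‖PN N σ t‖ ^ (2 * k) := by
    intro V₁ V₂ h1 h2
    apply intervalIntegral.integral_mono_interval le_rfl (by linarith) (by linarith)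
    · exact Filter.Eventually.of_forall (fun y => by positivity)
    · exact hii _ _
  -- real windows
  have hPV : |(∫ t in u..(u + V), ‖PN N σ t‖ ^ (2 * k)) - V * Dg N k σ| ≤ l1 + Dg N k σ := by
    set j := ⌊V⌋₊ with hj
    have hj1 : (j : ℝ) ≤ V := Nat.floor_le hV.1
    have hj2 : V < j + 1 := Nat.lt_floor_add_one V
    have hw1 := hW j (by linarith [hV.2])
    have hw2 := hW (j + 1) (by push_cast; linarith [hV.2])
    unfold We at hw1 hw2
    push_cast at hw2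
    have m1 := hmono j V (Nat.cast_nonneg _) hj1
    have m2 := hmono V (j + 1) hV.1 hj2.le
    rw [abs_le] at hw1 hw2 ⊢
    constructor
    · have : V * Dg N k σ ≤ (j + 1) * Dg N k σ := mul_le_mul_of_nonneg_right hj2.le hD0
      linarith [hw1.1]
    · have : (j:ℝ) * Dg N k σ ≤ V * Dg N k σ := mul_le_mul_of_nonneg_right hj1 hD0
      linarith [hw2.2]
  -- zeta versus P
  have hdiff : |Zw k σ V u - ∫ t in u..(u + V), ‖PN N σ t‖ ^ (2 * k)| ≤
      2 * k * 4 ^ k * l2 * ((∫ t in u..(u + V), ‖PN N σ t‖ ^ (2 * k)) + V) := by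
    unfold Zw
    have hzi : IntervalIntegrable (fun t : ℝ => ‖riemannZeta ((σ : ℂ) + t * Complex.I)‖ ^ (2 * k)) volume u (u + V) := by
      apply ContinuousOn.intervalIntegrable
      rw [Set.uIcc_of_le (by linarith [hV.1])]
      exact ((zeta_cont σ hu).norm).pow _
    rw [← intervalIntegral.integral_sub hzi (hii _ _)]
    have h1 : ‖∫ t in u..(u + V), (‖riemannZeta ((σ : ℂ) + t * Complex.I)‖ ^ (2 * k) - ‖PN N σ t‖ ^ (2 * k))‖ ≤
        ∫ t in u..(u + V), 2 * k * 4 ^ k * l2 * (‖PN N σ t‖ ^ (2 * k) + 1) := by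
      apply intervalIntegral.norm_integral_le_of_norm_le (by linarith [hV.1])
      · apply Filter.Eventually.of_forall
        intro t ht
        rw [Real.norm_eq_abs]
        apply pow_diff_le (norm_nonneg _) (norm_nonneg _) hl2 hl2'
        refine (abs_norm_sub_norm_le _ _).trans ?_
        exact hF t ⟨ht.1.le, by linarith [ht.2, hV.2]⟩
      · apply Continuous.intervalIntegrable
        fun_prop
    rw [Real.norm_eq_abs] at h1
    refine h1.trans (le_of_eq ?_)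
    rw [intervalIntegral.integral_const_mul, intervalIntegral.integral_add (hii _ _) (by simp),
      intervalIntegral.integral_const]
    simp
  have hI : (∫ t in u..(u + V), ‖PN N σ t‖ ^ (2 * k)) ≤ T * Dg N k σ + (l1 + Dg N k σ) := by
    have h1 := (abs_le.1 hPV).2
    have : V * Dg N k σ ≤ T * Dg N k σ := mul_le_mul_of_nonneg_right hV.2 hD0
    linarith
  have h2 : 2 * (k:ℝ) * 4 ^ k * l2 * ((∫ t in u..(u + V), ‖PN N σ t‖ ^ (2 * k)) + V) ≤
      2 * k * 4 ^ k * l2 * (T * Dg N k σ + (l1 + Dg N k σ) + T) := by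
    apply mul_le_mul_of_nonneg_left _ (by positivity)
    linarith [hV.2]
  have h3 : (Zw k σ V u - V * Dg N k σ) - We N k σ V u =
      Zw k σ V u - ∫ t in u..(u + V), ‖PN N σ t‖ ^ (2 * k) := by unfold We; ring
  rw [h3]
  exact ⟨hdiff.trans h2, hPV⟩

lemma We_cont (N k : ℕ) (σ V : ℝ) : Continuous (fun u => We N k σ V u) := by
  unfold We
  have hg : Continuous (fun t => ‖PN N σ t‖ ^ (2 * k)) := ((PN_cont N σ).norm).pow _
  have : (fun u => (∫ t in u..(u + V), ‖PN N σ t‖ ^ (2 * k)) - V * Dg N k σ) =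
      fun u => ((∫ t in (0:ℝ)..(u + V), ‖PN N σ t‖ ^ (2 * k)) - ∫ t in (0:ℝ)..u, ‖PN N σ t‖ ^ (2 * k)) - V * Dg N k σ := by
    funext u
    rw [intervalIntegral.integral_interval_sub_left (hg.intervalIntegrable _ _) (hg.intervalIntegrable _ _)]
  rw [this]
  have hGc := intervalIntegral.continuous_primitive (μ := volume) (fun a b => hg.intervalIntegrable a b) (0:ℝ)
  exact ((hGc.comp (continuous_add_const V)).sub hGc).sub continuous_const

theorem bad_window (N k q : ℕ) (hN : 1 ≤ N) {σ : ℝ} (hσ : 1 / 2 ≤ σ) {V U l1 : ℝ}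
    (hV : 0 ≤ V) (hU : 0 ≤ U) (hl : 0 < l1) :
    volume {u ∈ Set.Icc U (2 * U) | l1 < |We N k σ V u|} ≤
      ENNReal.ofReal ((U * (6 * V * (1 + Real.log ((N ^ k : ℕ) : ℝ)) ^ EE k q) ^ q +
        (V * ((N ^ k : ℕ) : ℝ) ^ 2) ^ (2 * q) * (2 * ((N ^ k : ℕ) : ℝ) ^ (2 * q))) / l1 ^ (2 * q)) := by
  have hg : Continuous (fun u => |We N k σ V u| ^ (2 * q)) := ((We_cont N k σ V).abs).pow _
  rcases Nat.eq_zero_or_pos q with hq | hq
  · -- trivial bound
    subst hq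
    simp only [mul_zero, pow_zero, mul_one, div_one, one_mul]
    refine (measure_mono (Set.sep_subset _ _)).trans ?_
    rw [Real.volume_Icc]
    apply ENNReal.ofReal_le_ofReal
    linarith
  have h1 := markov (a := U) (b := 2 * U) (μ := l1 ^ (2 * q)) (by linarith) (by positivity) hg (fun u => by positivity)
  have h2 : {u ∈ Set.Icc U (2 * U) | l1 < |We N k σ V u|} ⊆
      {u ∈ Set.Icc U (2 * U) | l1 ^ (2 * q) < |We N k σ V u| ^ (2 * q)} := by
    rintro u ⟨hu, hu2⟩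
    exact ⟨hu, pow_lt_pow_left₀ hu2 hl.le (by omega)⟩
  refine (measure_mono h2).trans (h1.trans ?_)
  apply ENNReal.ofReal_le_ofReal
  apply div_le_div_of_nonneg_right _ (by positivity)
  exact We_mean N k q hN hσ hV hU

/-- total bad set -/
theorem bad_total (N k q : ℕ) (hN : 1 ≤ N) {σ : ℝ} (hσ : 1 / 2 ≤ σ) (hσ2 : σ ≤ 7 / 8) {T U l1 l2 : ℝ}
    (hT : 1 ≤ T) (hU : 8 ≤ U) (hTU : T + 1 ≤ U) (hNU : (N : ℝ) ≤ U) (hl : 0 < l1)
    (hl2 : 12 * U ^ (-(1 / 2) : ℝ) ≤ l2) :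
    volume {u ∈ Set.Icc U (2 * U) | ¬ ((∀ t ∈ Set.Icc u (u + T), ‖Fz N σ t‖ ≤ l2) ∧
        (∀ j : ℕ, (j : ℝ) ≤ T + 1 → |We N k σ j u| ≤ l1))} ≤
      ENNReal.ofReal ((T + 1) * (26000000 * U * (Real.log U) ^ 4 * (N : ℝ) ^ (-(2 * σ - 1))) / l2 ^ 2 +
        (3 * T) * ((U * (6 * (2 * T) * (1 + Real.log ((N ^ k : ℕ) : ℝ)) ^ EE k q) ^ q +
        ((2 * T) * ((N ^ k : ℕ) : ℝ) ^ 2) ^ (2 * q) * (2 * ((N ^ k : ℕ) : ℝ) ^ (2 * q))) / l1 ^ (2 * q))) := by
  have hK1 : 1 ≤ N ^ k := Nat.one_le_pow _ _ hN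
  have hlogK : 0 ≤ Real.log ((N ^ k : ℕ) : ℝ) := Real.log_nonneg (by exact_mod_cast hK1)
  have hlogU : 0 ≤ Real.log U := Real.log_nonneg (by linarith)
  have hl20 : 0 < l2 := lt_of_lt_of_le (by positivity) hl2
  set J := ⌊T + 1⌋₊ + 1 with hJ
  set Z := (U * (6 * (2 * T) * (1 + Real.log ((N ^ k : ℕ) : ℝ)) ^ EE k q) ^ q +
        ((2 * T) * ((N ^ k : ℕ) : ℝ) ^ 2) ^ (2 * q) * (2 * ((N ^ k : ℕ) : ℝ) ^ (2 * q))) / l1 ^ (2 * q) with hZ
  have hZ0 : 0 ≤ Z := by positivity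
  have hsub : {u ∈ Set.Icc U (2 * U) | ¬ ((∀ t ∈ Set.Icc u (u + T), ‖Fz N σ t‖ ≤ l2) ∧
        (∀ j : ℕ, (j : ℝ) ≤ T + 1 → |We N k σ j u| ≤ l1))} ⊆
      {u ∈ Set.Icc U (2 * U) | ∃ t ∈ Set.Icc u (u + T), l2 < ‖Fz N σ t‖} ∪
      ⋃ j ∈ Finset.range J, {u ∈ Set.Icc U (2 * U) | l1 < |We N k σ j u|} := by
    rintro u ⟨hu, hnot⟩
    rw [not_and_or] at hnot
    rcases hnot with h | h
    · left
      push Not at h
      exact ⟨hu, h⟩
    · right
      push Not at h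
      obtain ⟨j, hj1, hj2⟩ := h
      simp only [Set.mem_iUnion]
      refine ⟨j, ?_, hu, hj2⟩
      rw [Finset.mem_range, hJ]
      have := Nat.le_floor hj1
      omega
  refine (measure_mono hsub).trans ((measure_union_le _ _).trans ?_)
  rw [ENNReal.ofReal_add (by positivity) (by positivity)]
  apply add_le_add
  · exact zeta_side hU (by linarith) hTU hN hNU hσ hσ2 hl2
  · refine (measure_biUnion_finset_le _ _).trans ?_
    have h1 : ∀ j ∈ Finset.range J, volume {u ∈ Set.Icc U (2 * U) | l1 < |We N k σ j u|} ≤ ENNReal.ofReal Z := by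
      intro j hj
      have hj2 : (j : ℝ) ≤ 2 * T := by
        have h2 : j ≤ ⌊T + 1⌋₊ := by have := Finset.mem_range.1 hj; omega
        have h3 : (j : ℝ) ≤ T + 1 := (Nat.le_floor_iff (by linarith)).1 h2
        linarith
      refine (bad_window N k q hN hσ (Nat.cast_nonneg j) (by linarith) hl).trans ?_
      apply ENNReal.ofReal_le_ofReal
      rw [hZ]
      apply div_le_div_of_nonneg_right _ (by positivity)
      gcongr
    refine (Finset.sum_le_sum h1).trans ?_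
    rw [Finset.sum_const, Finset.card_range, nsmul_eq_mul, ← ENNReal.ofReal_natCast,
      ← ENNReal.ofReal_mul (Nat.cast_nonneg _)]
    apply ENNReal.ofReal_le_ofReal
    apply mul_le_mul_of_nonneg_right _ hZ0
    rw [hJ]
    push_cast
    have := Nat.floor_le (show 0 ≤ T + 1 by linarith)
    linarith

end Pool.Agent.P07318d
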