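import Pool.Agent.Lib.P07318d.Core

/-!
# The lower bound: ingredients
-/

set_option autoImplicit false

namespace Pool.Agent.P07318d

open Finset MeasureTheory

lemma cross_ne {r r' : ℕ × ℕ} (h1 : 1 ≤ r.1) (h2 : 1 ≤ r.2) (h1' : 1 ≤ r'.1) (h2' : 1 ≤ r'.2)
    (hc : Nat.Coprime r.1 r.2) (hc' : Nat.Coprime r'.1 r'.2) (hne : r ≠ r') :
    r.2 * r'.1 ≠ r.1 * r'.2 := by
  intro h
  apply hne
  have d1 : r.2 ∣ r'.2 := by
    have : r.2 ∣ r.1 * r'.2 := ⟨r'.1, h.symm⟩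
    exact (Nat.Coprime.dvd_mul_left hc.symm).1 this
  have d2 : r'.2 ∣ r.2 := by
    have : r'.2 ∣ r.2 * r'.1 := ⟨r.1, by rw [h]; ring⟩
    exact (Nat.Coprime.dvd_mul_right hc'.symm).1 this
  have e2 : r.2 = r'.2 := Nat.dvd_antisymm d1 d2
  rw [e2, mul_comm] at h
  have e1 : r'.1 = r.1 := Nat.eq_of_mul_eq_mul_right (by omega) h
  exact Prod.ext e1.symm e2

theorem Osum_sq_lower {K : ℕ} {R : Finset (ℕ × ℕ)}
    (hR : ∀ r ∈ R, (1 ≤ r.1 ∧ r.1 ≤ K) ∧ (1 ≤ r.2 ∧ r.2 ≤ K))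
    (hcop : ∀ r ∈ R, Nat.Coprime r.1 r.2) (c : ℕ × ℕ → ℂ) {U : ℝ} (hU : 0 ≤ U) :
    U * ∑ r ∈ R, ‖c r‖ ^ 2 - (∑ r ∈ R, ‖c r‖) ^ 2 * (2 * (K : ℝ) ^ 2) ≤
      ∫ u in U..(2 * U), ‖Osum R c u‖ ^ 2 := by
  have hsq : ∀ u, ((‖Osum R c u‖ ^ 2 : ℝ) : ℂ) = ∑ r ∈ R, ∑ r' ∈ R, (c r * (starRingEnd ℂ) (c r')) *
      Complex.exp (((u * (ph r - ph r') : ℝ) : ℂ) * Complex.I) := by
    intro u
    rw [← Complex.normSq_eq_norm_sq, Complex.normSq_eq_conj_mul_self, mul_comm]
    unfold Osum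
    rw [map_sum, Finset.sum_mul_sum]
    refine Finset.sum_congr rfl (fun r _ => Finset.sum_congr rfl (fun r' _ => ?_))
    rw [map_mul, ← Complex.exp_conj, map_mul, Complex.conj_ofReal, Complex.conj_I]
    have : Complex.exp (((u * (ph r - ph r') : ℝ) : ℂ) * Complex.I) =
        Complex.exp (((u * ph r : ℝ) : ℂ) * Complex.I) * Complex.exp (((u * ph r' : ℝ) : ℂ) * -Complex.I) := by
      rw [← Complex.exp_add]; congr 1; push_cast; ring
    rw [this]; ring
  have hI : ((∫ u in U..(2 * U), ‖Osum R c u‖ ^ 2 : ℝ) : ℂ) =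
      ∑ r ∈ R, ∑ r' ∈ R, (c r * (starRingEnd ℂ) (c r')) *
        ∫ u in U..(2 * U), Complex.exp (((u * (ph r - ph r') : ℝ) : ℂ) * Complex.I) := by
    rw [← intervalIntegral.integral_ofReal]
    simp_rw [hsq]
    rw [intervalIntegral.integral_finset_sum]
    · refine Finset.sum_congr rfl (fun r _ => ?_)
      rw [intervalIntegral.integral_finset_sum]
      · refine Finset.sum_congr rfl (fun r' _ => ?_)
        rw [intervalIntegral.integral_const_mul]
      · intro r' _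
        apply Continuous.intervalIntegrable
        fun_prop
    · intro r _
      apply Continuous.intervalIntegrable
      fun_prop
  have hterm : ∀ r ∈ R, ∀ r' ∈ R, ‖(c r * (starRingEnd ℂ) (c r')) *
        (∫ u in U..(2 * U), Complex.exp (((u * (ph r - ph r') : ℝ) : ℂ) * Complex.I)) -
        (if r = r' then ((U * ‖c r‖ ^ 2 : ℝ) : ℂ) else 0)‖ ≤ (‖c r‖ * ‖c r'‖) * (2 * (K : ℝ) ^ 2) := by
    intro r hr r' hr'
    by_cases h : r = r'
    · subst h
      rw [if_pos rfl]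
      simp only [sub_self, mul_zero, Complex.ofReal_zero, zero_mul, Complex.exp_zero]
      rw [intervalIntegral.integral_const]
      have e : c r * (starRingEnd ℂ) (c r) = ((‖c r‖ ^ 2 : ℝ) : ℂ) := by
        rw [← Complex.normSq_eq_norm_sq, Complex.normSq_eq_conj_mul_self, mul_comm]
      rw [e]
      have e2 : (((‖c r‖ ^ 2 : ℝ) : ℂ) * ((2 * U - U) • (1:ℂ)) - ((U * ‖c r‖ ^ 2 : ℝ) : ℂ)) = 0 := by
        rw [Complex.real_smul]; push_cast; ring
      rw [e2, norm_zero]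
      positivity
    · rw [if_neg h, sub_zero, norm_mul, norm_mul, RCLike.norm_conj]
      apply mul_le_mul_of_nonneg_left _ (by positivity)
      have hs := hR r hr
      have hs' := hR r' hr'
      have hne := cross_ne hs.1.1 hs.2.1 hs'.1.1 hs'.2.1 (hcop r hr) (hcop r' hr') h
      have a1 : (0:ℝ) < r.1 := by exact_mod_cast hs.1.1
      have a2 : (0:ℝ) < r.2 := by exact_mod_cast hs.2.1
      have a3 : (0:ℝ) < r'.1 := by exact_mod_cast hs'.1.1
      have a4 : (0:ℝ) < r'.2 := by exact_mod_cast hs'.2.1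
      have e : ph r - ph r' = Real.log ((r.2 * r'.1 : ℕ) : ℝ) - Real.log ((r.1 * r'.2 : ℕ) : ℝ) := by
        push_cast
        rw [Real.log_mul a2.ne' a3.ne', Real.log_mul a1.ne' a4.ne']
        unfold ph; ring
      have hlow := log_sub_log_lower (X := r.2 * r'.1) (Y := r.1 * r'.2) (B := K * K)
        (Nat.mul_pos hs.2.1 hs'.1.1) (Nat.mul_pos hs.1.1 hs'.2.1) (Nat.mul_le_mul hs.2.2 hs'.1.2)
        (Nat.mul_le_mul hs.1.2 hs'.2.2) hne
      rw [← e] at hlow
      have hK1 : 1 ≤ K := hs.1.1.trans hs.1.2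
      have hK0 : (0:ℝ) < ((K * K : ℕ) : ℝ) := by exact_mod_cast Nat.mul_pos hK1 hK1
      have hpos : 0 < |ph r - ph r'| := lt_of_lt_of_le (by positivity) hlow
      refine (norm_integral_exp_le (abs_pos.1 hpos) U (2 * U)).trans ?_
      rw [div_le_iff₀ hpos]
      rw [div_le_iff₀ hK0] at hlow
      push_cast at hlow
      nlinarith
  have hdiag : ∑ r ∈ R, ∑ r' ∈ R, (if r = r' then ((U * ‖c r‖ ^ 2 : ℝ) : ℂ) else 0) =
      ((U * ∑ r ∈ R, ‖c r‖ ^ 2 : ℝ) : ℂ) := by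
    rw [Finset.mul_sum]
    push_cast
    refine Finset.sum_congr rfl (fun r hr => ?_)
    rw [Finset.sum_ite_eq, if_pos hr]
  have hdiff : ‖((∫ u in U..(2 * U), ‖Osum R c u‖ ^ 2 : ℝ) : ℂ) - ((U * ∑ r ∈ R, ‖c r‖ ^ 2 : ℝ) : ℂ)‖ ≤
      (∑ r ∈ R, ‖c r‖) ^ 2 * (2 * (K : ℝ) ^ 2) := by
    rw [hI, ← hdiag, ← Finset.sum_sub_distrib]
    simp only [← Finset.sum_sub_distrib]
    refine (norm_sum_le _ _).trans ?_
    refine (Finset.sum_le_sum (fun r hr => norm_sum_le _ _)).trans ?_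
    refine (Finset.sum_le_sum (fun r hr => Finset.sum_le_sum (fun r' hr' => hterm r hr r' hr'))).trans ?_
    generalize (2 * (K : ℝ) ^ 2) = Z
    rw [sq, Finset.sum_mul_sum, Finset.sum_mul]
    apply Finset.sum_le_sum
    intro r _
    rw [Finset.sum_mul]
  rw [← Complex.ofReal_sub, Complex.norm_real, Real.norm_eq_abs] at hdiff
  have := (abs_le.1 hdiff).1
  linarith

lemma one_le_dk {k n : ℕ} (hk : 1 ≤ k) (hn : n ≠ 0) : 1 ≤ dk k n := by
  unfold dk
  apply Finset.card_pos.2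
  obtain ⟨k', rfl⟩ : ∃ k', k = k' + 1 := ⟨k - 1, by omega⟩
  refine ⟨Fin.cons n (fun _ => 1), ?_⟩
  rw [Nat.mem_finMulAntidiag]
  refine ⟨?_, hn⟩
  rw [Fin.prod_univ_succ]
  simp

lemma wV_lower {T : ℝ} {n : ℕ} (hn : 1 ≤ n) (h1 : T ≤ 2 * n) (h2 : (n : ℝ) + 1 ≤ T) :
    (n : ℝ) / 2 ≤ ‖wV T (ph (n, n + 1))‖ := by
  have hn0 : (0:ℝ) < n := by exact_mod_cast hn
  set θ := ph (n, n + 1) with hθ
  have hθe : θ = Real.log ((n : ℝ) + 1) - Real.log n := by
    rw [hθ]; unfold ph; push_cast; rfl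
  have hup : θ ≤ 1 / n := by
    rw [hθe, ← Real.log_div (by positivity) (by positivity)]
    refine (Real.log_le_sub_one_of_pos (by positivity)).trans (le_of_eq ?_)
    field_simp; ring
  have hlow : 1 / ((n : ℝ) + 1) ≤ θ := by
    rw [hθe, ← Real.log_div (by positivity) (by positivity)]
    refine le_trans (le_of_eq ?_) (Real.one_sub_inv_le_log_of_pos (by positivity))
    rw [inv_div]; field_simp; ring
  have hθ0 : 0 < θ := lt_of_lt_of_le (by positivity) hlow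
  have hT0 : 0 < T := by linarith
  have hval : wV T θ = (Complex.exp (Complex.I * ((T * θ : ℝ) : ℂ)) - 1) / ((θ : ℂ) * Complex.I) := by
    unfold wV
    have hc : (θ : ℂ) * Complex.I ≠ 0 := mul_ne_zero (by exact_mod_cast hθ0.ne') Complex.I_ne_zero
    have e1 : ∀ u : ℝ, Complex.exp (((u * θ : ℝ) : ℂ) * Complex.I) = Complex.exp (((θ : ℂ) * Complex.I) * u) := by
      intro u; congr 1; push_cast; ring
    simp_rw [e1]
    rw [integral_exp_mul_complex hc]
    simp only [Complex.ofReal_zero, mul_zero, Complex.exp_zero]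
    congr 3
    push_cast; ring
  rw [hval, norm_div, Complex.norm_exp_I_mul_ofReal_sub_one]
  have e2 : ‖(θ : ℂ) * Complex.I‖ = θ := by simp [abs_of_pos hθ0]
  rw [e2]
  have hs1 : 1 / 2 ≤ T * θ / 2 := by
    have : 1 ≤ T * θ := by
      calc 1 = ((n:ℝ) + 1) * (1 / ((n:ℝ) + 1)) := by field_simp
        _ ≤ T * θ := mul_le_mul h2 hlow (by positivity) hT0.le
    linarith
  have hs2 : T * θ / 2 ≤ 1 := by
    have : T * θ ≤ 2 := by
      calc T * θ ≤ (2 * n) * (1 / n) := mul_le_mul h1 hup hθ0.le (by positivity)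
        _ = 2 := by field_simp
    linarith
  have hsin : 1 / 4 ≤ Real.sin (T * θ / 2) := by
    have hpi := Real.pi_gt_three
    have hpi2 := Real.pi_lt_four
    have h3 := Real.mul_le_sin (x := T * θ / 2) (by linarith) (by linarith)
    have h4 : 1 / 4 ≤ 2 / Real.pi * (T * θ / 2) := by
      rw [div_mul_eq_mul_div, le_div_iff₀ (by linarith)]
      linarith
    linarith
  rw [Real.norm_eq_abs, abs_of_pos (by linarith)]
  rw [le_div_iff₀ hθ0]
  have h5 : (n:ℝ) / 2 * θ ≤ 1 / 2 := by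
    calc (n:ℝ) / 2 * θ ≤ (n:ℝ) / 2 * (1 / n) := mul_le_mul_of_nonneg_left hup (by positivity)
      _ = 1 / 2 := by field_simp
  linarith

theorem coeff_lower {N k : ℕ} (hk : 1 ≤ k) {T σ : ℝ} (hT : 8 ≤ T) (hTN : T + 1 ≤ N) (hσ : 1 / 2 ≤ σ) :
    T / 64 * T ^ (-(4 * σ - 2)) ≤ ∑ r ∈ RR (N ^ k), ‖cw N k σ T r‖ ^ 2 := by
  have hT0 : 0 < T := by linarith
  set I := Finset.Ico ⌈T / 2⌉₊ ⌊T⌋₊ with hI
  have hmem : ∀ n ∈ I, 1 ≤ n ∧ T ≤ 2 * n ∧ (n:ℝ) + 1 ≤ T := by
    intro n hn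
    rw [hI, Finset.mem_Ico] at hn
    have h1 : T / 2 ≤ n := Nat.ceil_le.1 hn.1
    have h2 : ((n + 1 : ℕ) : ℝ) ≤ T := (Nat.le_floor_iff hT0.le).1 hn.2
    push_cast at h2
    refine ⟨?_, by linarith, h2⟩
    have : (0:ℝ) < n := by linarith
    exact_mod_cast this
  have hNN : N ≤ N ^ k := by
    calc N = N ^ 1 := (pow_one N).symm
      _ ≤ N ^ k := Nat.pow_le_pow_right (by
        have : (0:ℝ) < N := by linarith
        exact_mod_cast this) hk
  have hinR : ∀ n ∈ I, red (n, n + 1) = (n, n + 1) ∧ (n, n + 1) ∈ offd (N ^ k) ∧ n + 1 ≤ N := by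
    intro n hn
    obtain ⟨h1, h2, h3⟩ := hmem n hn
    have hg : Nat.gcd n (n + 1) = 1 := by simp
    have hnN : n + 1 ≤ N := by
      have : ((n + 1 : ℕ) : ℝ) ≤ N := by push_cast; linarith
      exact_mod_cast this
    refine ⟨?_, ?_, hnN⟩
    · unfold red
      simp only [hg, Nat.div_one]
    · rw [mem_offd]
      simp only
      exact ⟨⟨⟨h1, by omega⟩, ⟨by omega, by omega⟩⟩, by omega⟩
  have hlow : ∀ n ∈ I, 1 / 16 * T ^ (-(4 * σ - 2)) ≤ ‖cw N k σ T (n, n + 1)‖ ^ 2 := by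
    intro n hn
    obtain ⟨h1, h2, h3⟩ := hmem n hn
    obtain ⟨e1, e2, e3⟩ := hinR n hn
    have hn0 : (0:ℝ) < n := by exact_mod_cast h1
    have hw := wV_lower h1 h2 h3
    have hgam : (1 / ((n:ℝ) + 1)) * T ^ (-(2 * σ - 1)) ≤
        ∑ p ∈ (offd (N ^ k)).filter (fun p => red p = (n, n + 1)), gam N k σ p := by
      have hsingle : gam N k σ (n, n + 1) ≤ ∑ p ∈ (offd (N ^ k)).filter (fun p => red p = (n, n + 1)), gam N k σ p :=
        Finset.single_le_sum (fun p _ => gam_nonneg N k σ p) (Finset.mem_filter.2 ⟨e2, e1⟩)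
      refine le_trans ?_ hsingle
      unfold gam
      simp only
      have a1 : (1:ℝ) ≤ al N k n := by
        rw [al_eq_dk (by omega) (by omega)]
        exact_mod_cast one_le_dk hk (by omega)
      have a2 : (1:ℝ) ≤ al N k (n + 1) := by
        rw [al_eq_dk (by omega) (by omega)]
        exact_mod_cast one_le_dk hk (by omega)
      have a3 : (1:ℝ) ≤ (al N k n : ℝ) * (al N k (n + 1) : ℝ) := one_le_mul_of_one_le_of_one_le a1 a2
      have b1 : ((n:ℝ) + 1) ^ (-σ) ≤ (n : ℝ) ^ (-σ) :=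
        Real.rpow_le_rpow_of_nonpos hn0 (by linarith) (by linarith)
      have b2 : (1 / ((n:ℝ) + 1)) * T ^ (-(2 * σ - 1)) ≤ ((n:ℝ) + 1) ^ (-σ) * ((n:ℝ) + 1) ^ (-σ) := by
        have c1 : ((n:ℝ) + 1) ^ (-σ) * ((n:ℝ) + 1) ^ (-σ) = (1 / ((n:ℝ) + 1)) * ((n:ℝ) + 1) ^ (-(2 * σ - 1)) := by
          rw [← Real.rpow_add (by positivity), one_div, ← Real.rpow_neg_one, ← Real.rpow_add (by positivity)]
          congr 1; ring
        rw [c1]
        apply mul_le_mul_of_nonneg_left _ (by positivity)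
        exact Real.rpow_le_rpow_of_nonpos (by positivity) h3 (by linarith)
      push_cast
      have b3 : ((n:ℝ) + 1) ^ (-σ) * ((n:ℝ) + 1) ^ (-σ) ≤ (n : ℝ) ^ (-σ) * ((n:ℝ) + 1) ^ (-σ) :=
        mul_le_mul_of_nonneg_right b1 (by positivity)
      calc (1 / ((n:ℝ) + 1)) * T ^ (-(2 * σ - 1)) ≤ 1 * ((n : ℝ) ^ (-σ) * ((n:ℝ) + 1) ^ (-σ)) := by
            rw [one_mul]; exact b2.trans b3
        _ ≤ _ := mul_le_mul_of_nonneg_right a3 (by positivity)
    have hc : 1 / 4 * T ^ (-(2 * σ - 1)) ≤ ‖cw N k σ T (n, n + 1)‖ := by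
      unfold cw
      rw [norm_mul, Complex.norm_real, Real.norm_of_nonneg (Finset.sum_nonneg (fun p _ => gam_nonneg N k σ p))]
      calc 1 / 4 * T ^ (-(2 * σ - 1)) ≤ ((1 / ((n:ℝ) + 1)) * T ^ (-(2 * σ - 1))) * ((n:ℝ) / 2) := by
            have d1 : 1 / 4 ≤ (1 / ((n:ℝ) + 1)) * ((n:ℝ) / 2) := by
              rw [div_mul_div_comm, le_div_iff₀ (by positivity)]
              have : (1:ℝ) ≤ n := by exact_mod_cast h1
              linarith
            have d2 : 0 ≤ T ^ (-(2 * σ - 1)) := by positivity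
            have := mul_le_mul_of_nonneg_right d1 d2
            linarith
        _ ≤ _ := mul_le_mul hgam hw (by positivity) (Finset.sum_nonneg (fun p _ => gam_nonneg N k σ p))
    have h4 := pow_le_pow_left₀ (by positivity) hc 2
    refine le_trans (le_of_eq ?_) h4
    rw [mul_pow, ← Real.rpow_natCast (T ^ (-(2 * σ - 1))), ← Real.rpow_mul hT0.le]
    have : -(2 * σ - 1) * ((2:ℕ):ℝ) = -(4 * σ - 2) := by push_cast; ring
    rw [this]; norm_num
  have hsub : ∑ n ∈ I, ‖cw N k σ T (n, n + 1)‖ ^ 2 ≤ ∑ r ∈ RR (N ^ k), ‖cw N k σ T r‖ ^ 2 := by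
    have hinj : Set.InjOn (fun n : ℕ => (n, n + 1)) (I : Set ℕ) := by
      intro a _ b _ h
      exact (Prod.mk.inj h).1
    rw [← Finset.sum_image (f := fun r => ‖cw N k σ T r‖ ^ 2) (g := fun n : ℕ => (n, n + 1)) hinj]
    apply Finset.sum_le_sum_of_subset_of_nonneg
    · intro r hr
      obtain ⟨n, hn, rfl⟩ := Finset.mem_image.1 hr
      obtain ⟨e1, e2, _⟩ := hinR n hn
      exact Finset.mem_image.2 ⟨(n, n + 1), e2, e1⟩
    · intro r _ _; positivity
  refine le_trans ?_ hsub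
  refine le_trans ?_ (Finset.sum_le_sum hlow)
  rw [Finset.sum_const, nsmul_eq_mul, hI, Nat.card_Ico]
  have hcard : T / 4 ≤ ((⌊T⌋₊ - ⌈T / 2⌉₊ : ℕ) : ℝ) := by
    have h1 : T - 1 < ⌊T⌋₊ := Nat.sub_one_lt_floor T
    have h2 : (⌈T / 2⌉₊ : ℝ) < T / 2 + 1 := Nat.ceil_lt_add_one (by positivity)
    have h3 : ⌈T / 2⌉₊ ≤ ⌊T⌋₊ := by
      have : (⌈T / 2⌉₊ : ℝ) ≤ ⌊T⌋₊ := by linarith
      exact_mod_cast this
    rw [Nat.cast_sub h3]
    linarith
  have h5 : 0 ≤ T ^ (-(4 * σ - 2)) := by positivity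
  nlinarith [mul_le_mul_of_nonneg_right hcard h5]

/-- Paley-Zygmund -/
theorem paley {U m0 P2 : ℝ} (hU : 0 < U) (hm0 : 0 < m0) (hP2 : 0 < P2) {g : ℝ → ℝ} (hg : Continuous g)
    (h1 : m0 ≤ ∫ u in U..(2 * U), g u) (h2 : ∫ u in U..(2 * U), g u ^ 2 ≤ P2) :
    ENNReal.ofReal (m0 ^ 2 / (4 * P2)) ≤ volume {u ∈ Set.Icc U (2 * U) | m0 / (2 * U) < g u} := by
  set S := {u ∈ Set.Icc U (2 * U) | m0 / (2 * U) < g u} with hS
  set lam := P2 / m0 with hlam
  have hlam0 : 0 < lam := by positivity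
  have hSm : MeasurableSet S := measurableSet_Icc.inter (measurableSet_lt measurable_const hg.measurable)
  have hSfin : volume S ≠ ⊤ := by
    apply ne_top_of_le_ne_top _ (measure_mono (Set.sep_subset _ _))
    simp
  have hle : U ≤ 2 * U := by linarith
  have hpt : ∀ u ∈ Set.Icc U (2 * U), g u ≤ m0 / (2 * U) + (S.indicator (fun _ => lam) u + g u ^ 2 / (4 * lam)) := by
    intro u hu
    by_cases h : u ∈ S
    · rw [Set.indicator_of_mem h]
      have h3 : 0 < m0 / (2 * U) := by positivity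
      have h4 : g u ≤ lam + g u ^ 2 / (4 * lam) := by
        have : lam + g u ^ 2 / (4 * lam) - g u = (2 * lam - g u) ^ 2 / (4 * lam) := by
          field_simp; ring
        have h5 : 0 ≤ (2 * lam - g u) ^ 2 / (4 * lam) := by positivity
        linarith
      linarith
    · rw [Set.indicator_of_notMem h]
      have h3 : g u ≤ m0 / (2 * U) := by
        by_contra hcon
        push Not at hcon
        exact h ⟨hu, hcon⟩
      have h4 : 0 ≤ g u ^ 2 / (4 * lam) := by positivity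
      linarith
  have hi1 : IntervalIntegrable (fun _ : ℝ => m0 / (2 * U)) volume U (2 * U) := by simp
  have hi2 : IntervalIntegrable (fun u => S.indicator (fun _ => lam) u) volume U (2 * U) := by
    rw [intervalIntegrable_iff_integrableOn_Icc_of_le hle]
    exact (integrableOn_const (by simp)).indicator hSm
  have hi3 : IntervalIntegrable (fun u => g u ^ 2 / (4 * lam)) volume U (2 * U) :=
    Continuous.intervalIntegrable (by fun_prop) _ _
  have h3 : ∫ u in U..(2 * U), g u ≤ ∫ u in U..(2 * U),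
      (m0 / (2 * U) + (S.indicator (fun _ => lam) u + g u ^ 2 / (4 * lam))) :=
    intervalIntegral.integral_mono_on hle (hg.intervalIntegrable _ _) (hi1.add (hi2.add hi3)) hpt
  rw [intervalIntegral.integral_add hi1 (hi2.add hi3), intervalIntegral.integral_add hi2 hi3,
    intervalIntegral.integral_const, intervalIntegral.integral_div] at h3
  have h4 : ∫ u in U..(2 * U), S.indicator (fun _ => lam) u = lam * volume.real S := by
    rw [intervalIntegral.integral_of_le hle, ← integral_Icc_eq_integral_Ioc]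
    rw [setIntegral_indicator hSm, setIntegral_const]
    have : Set.Icc U (2 * U) ∩ S = S := Set.inter_eq_right.2 (Set.sep_subset _ _)
    rw [this, smul_eq_mul, mul_comm]
  rw [h4] at h3
  have h5 : (2 * U - U) • (m0 / (2 * U)) = m0 / 2 := by
    rw [smul_eq_mul]; field_simp; ring
  rw [h5] at h3
  have h6 : (∫ u in U..(2 * U), g u ^ 2) / (4 * lam) ≤ m0 / 4 := by
    rw [div_le_iff₀ (by positivity)]
    have : m0 / 4 * (4 * lam) = P2 := by rw [hlam]; field_simp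
    linarith
  have h7 : m0 / 4 ≤ lam * volume.real S := by linarith
  have h8 : m0 ^ 2 / (4 * P2) ≤ volume.real S := by
    rw [div_le_iff₀ (by positivity)]
    have h9 : lam * volume.real S * m0 = P2 * volume.real S := by rw [hlam]; field_simp
    have h10 := mul_le_mul_of_nonneg_right h7 hm0.le
    nlinarith
  calc ENNReal.ofReal (m0 ^ 2 / (4 * P2)) ≤ ENNReal.ofReal (volume.real S) := ENNReal.ofReal_le_ofReal h8
    _ = volume S := ENNReal.ofReal_toReal hSfin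

end Pool.Agent.P07318d
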