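import Pool.Agent.Lib.P07318d.Lower

/-!
# Moments of zeta in almost all short windows
-/

set_option autoImplicit false

namespace Pool.Agent.P07318d

open Finset MeasureTheory

theorem main (k : ℕ) (hk : 1 ≤ k) (A ε : ℝ) (hA : 0 < A) (hε : 0 < ε) (hε1 : ε ≤ 1) :
    ∃ B C U₀ : ℝ, 1 ≤ B ∧ 0 < C ∧ 0 < U₀ ∧ ∀ U T σ : ℝ, U₀ ≤ U → (Real.log U) ^ B ≤ T → T ^ B ≤ U →
      1 / 2 + C * (Real.log T / Real.log U) ≤ σ → σ ≤ 3 / 4 →
      volume {u ∈ Set.Icc U (2 * U) | ∃ V ∈ Set.Icc 0 T, T ^ (1 / 2 + ε) < |Zw k σ V u - V * Dfull k σ|} ≤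
        ENNReal.ofReal (U * T ^ (-A)) ∧
      (σ ≤ 1 / 2 + ε / 32 → ENNReal.ofReal (U * T ^ (-ε)) ≤
        volume {u ∈ Set.Icc U (2 * U) | T ^ (1 / 2 - ε) < |Zw k σ T u - T * Dfull k σ|}) := by
  obtain ⟨B, C, U₀, hB, hC, hU₀, H⟩ := core k hk (max A 2) ε (lt_max_of_lt_left hA) hε hε1
  refine ⟨B, C, U₀, hB, hC, hU₀, ?_⟩
  intro U T σ hU h1 h2 h3 h4
  obtain ⟨hT4, ha, hσ, N, hN1, hTN, hK12, hT24, hE2, G, hG, hgood⟩ := H U T σ hU h1 h2 h3 h4
  have hTpos : 0 < T := by linarith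
  have hT1 : 1 ≤ T := by linarith
  have hUpos : 0 < U := lt_of_lt_of_le hU₀ hU
  have hbadA : U * T ^ (-(max A 2)) ≤ U * T ^ (-A) := by
    apply mul_le_mul_of_nonneg_left _ hUpos.le
    exact Real.rpow_le_rpow_of_exponent_le hT1 (by have := le_max_left A 2; linarith)
  constructor
  · refine (measure_mono ?_).trans (hG.trans (ENNReal.ofReal_le_ofReal hbadA))
    rintro u ⟨hu, V, hV, hVl⟩
    refine ⟨hu, fun huG => ?_⟩
    obtain ⟨g1, g2⟩ := hgood u hu huG V hV
    set X := T ^ (1 / 2 + ε / 2) with hX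
    have hX1 : 1 ≤ X := Real.one_le_rpow hT1 (by positivity)
    have h5 : |Zw k σ V u - V * Dfull k σ| ≤ 2 + 2 * X := by
      have e : Zw k σ V u - V * Dfull k σ = ((Zw k σ V u - V * Dfull k σ) - We N k σ V u) + We N k σ V u := by ring
      rw [e]
      exact (abs_add_le _ _).trans (add_le_add g1 g2)
    have h6 : T ^ (1 / 2 + ε) = X * T ^ (ε / 2) := by
      rw [hX, ← Real.rpow_add hTpos]; congr 1; ring
    have h7 : 4 ≤ T ^ (ε / 2) := by
      have : T ^ (ε / 16) ≤ T ^ (ε / 2) := Real.rpow_le_rpow_of_exponent_le hT1 (by linarith)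
      linarith
    have h8 : X * 4 ≤ X * T ^ (ε / 2) := mul_le_mul_of_nonneg_left h7 (by linarith)
    linarith
  · intro hσup
    set a := T ^ (ε / 16) with hadef
    have ha0 : 0 < a := by linarith
    set K : ℝ := ((N ^ k : ℕ) : ℝ) with hK
    have hK1 : 1 ≤ K := by
      have : 1 ≤ N ^ k := Nat.one_le_pow _ _ hN1
      rw [hK]
      exact_mod_cast this
    have hUhalf : U ^ ((1:ℝ) / 2) * U ^ ((1:ℝ) / 2) = U := by
      rw [← Real.rpow_add hUpos]; norm_num
    have hU1 : 1 ≤ U ^ ((1:ℝ) / 2) := (Real.one_le_rpow hT1 (by norm_num)).trans hT24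
    have haT : a ≤ T ^ ((1:ℝ) / 16) := Real.rpow_le_rpow_of_exponent_le hT1 (by linarith)
    have haT1 : a ≤ T := by
      refine haT.trans ?_
      calc T ^ ((1:ℝ) / 16) ≤ T ^ (1:ℝ) := Real.rpow_le_rpow_of_exponent_le hT1 (by norm_num)
        _ = T := Real.rpow_one T
    have hT4' : T ^ 5 ≤ U ^ ((1:ℝ) / 2) := by
      have e : T ^ 5 = T ^ (5:ℝ) := by exact_mod_cast (Real.rpow_natCast T 5).symm
      rw [e]
      exact (Real.rpow_le_rpow_of_exponent_le hT1 (by norm_num)).trans hT24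
    -- second moment
    have hlow1 := coeff_lower (N := N) hk (T := T) (σ := σ) (by linarith) hTN (by linarith)
    have hTσ : 1 / a ^ 2 ≤ T ^ (-(4 * σ - 2)) := by
      have e : 1 / a ^ 2 = T ^ (-(ε / 8)) := by
        rw [hadef, ← Real.rpow_natCast, ← Real.rpow_mul hTpos.le, one_div, ← Real.rpow_neg hTpos.le]
        congr 1; push_cast; ring
      rw [e]
      exact Real.rpow_le_rpow_of_exponent_le hT1 (by linarith)
    have hsum : T / 64 * (1 / a ^ 2) ≤ ∑ r ∈ RR (N ^ k), ‖cw N k σ T r‖ ^ 2 :=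
      (mul_le_mul_of_nonneg_left hTσ (by positivity)).trans hlow1
    have hl1 := l1_sum_le N k (σ := σ) (by linarith) hTpos.le
    have hsq := Osum_sq_lower (K := N ^ k) RR_spec RR_coprime (cw N k σ T) hUpos.le
    have hWe2 : ∫ u in U..(2 * U), ‖Osum (RR (N ^ k)) (cw N k σ T) u‖ ^ 2 = ∫ u in U..(2 * U), |We N k σ T u| ^ 2 := by
      simp_rw [abs_We]
    rw [hWe2, ← hK] at hsq
    rw [← hK] at hl1
    have hl10 : 0 ≤ ∑ r ∈ RR (N ^ k), ‖cw N k σ T r‖ := Finset.sum_nonneg (fun _ _ => norm_nonneg _)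
    have hK6 : K ^ 6 ≤ U ^ ((1:ℝ) / 2) := (pow_le_pow_right₀ hK1 (by norm_num)).trans hK12
    have hoff : (∑ r ∈ RR (N ^ k), ‖cw N k σ T r‖) ^ 2 * (2 * K ^ 2) ≤ 2 * T ^ 2 * U ^ ((1:ℝ) / 2) := by
      calc (∑ r ∈ RR (N ^ k), ‖cw N k σ T r‖) ^ 2 * (2 * K ^ 2) ≤ (T * K ^ 2) ^ 2 * (2 * K ^ 2) := by
            apply mul_le_mul_of_nonneg_right (pow_le_pow_left₀ hl10 hl1 2) (by positivity)
        _ = 2 * T ^ 2 * K ^ 6 := by ring
        _ ≤ _ := mul_le_mul_of_nonneg_left hK6 (by positivity)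
    have hoff2 : 2 * T ^ 2 * U ^ ((1:ℝ) / 2) ≤ U * T / (128 * a ^ 2) := by
      rw [le_div_iff₀ (by positivity)]
      have h5 : 256 * T ^ 2 * a ^ 2 ≤ U ^ ((1:ℝ) / 2) * T := by
        have h6 : a ^ 2 ≤ T ^ 2 := pow_le_pow_left₀ ha0.le haT1 2
        calc 256 * T ^ 2 * a ^ 2 ≤ T * T ^ 2 * T ^ 2 := by
              apply mul_le_mul _ h6 (by positivity) (by positivity)
              apply mul_le_mul_of_nonneg_right (by linarith) (by positivity)
          _ = T ^ 5 * 1 := by ring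
          _ ≤ U ^ ((1:ℝ) / 2) * T := mul_le_mul hT4' hT1 (by norm_num) (by positivity)
      calc 2 * T ^ 2 * U ^ ((1:ℝ) / 2) * (128 * a ^ 2) = U ^ ((1:ℝ) / 2) * (256 * T ^ 2 * a ^ 2) := by ring
        _ ≤ U ^ ((1:ℝ) / 2) * (U ^ ((1:ℝ) / 2) * T) := mul_le_mul_of_nonneg_left h5 (by positivity)
        _ = (U ^ ((1:ℝ) / 2) * U ^ ((1:ℝ) / 2)) * T := by ring
        _ = U * T := by rw [hUhalf]
    set m0 := U * T / (128 * a ^ 2) with hm0
    have hm0pos : 0 < m0 := by positivity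
    have hm : m0 ≤ ∫ u in U..(2 * U), |We N k σ T u| ^ 2 := by
      have h5 : U * (T / 64 * (1 / a ^ 2)) = 2 * m0 := by rw [hm0]; field_simp; norm_num
      have h6 := mul_le_mul_of_nonneg_left hsum hUpos.le
      linarith
    -- fourth moment
    set P2 := 40 * U * T ^ 2 * a ^ 2 with hP2
    have hP2pos : 0 < P2 := by positivity
    have hfour : ∫ u in U..(2 * U), (|We N k σ T u| ^ 2) ^ 2 ≤ P2 := by
      have h5 := We_mean N k 2 hN1 (σ := σ) (by linarith) hTpos.le hUpos.le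
      have e : ∀ u, (|We N k σ T u| ^ 2) ^ 2 = |We N k σ T u| ^ (2 * 2) := fun u => by rw [← pow_mul]
      simp_rw [e]
      refine h5.trans ?_
      rw [← hK]
      obtain ⟨Λ, hΛ⟩ : ∃ Λ : ℝ, Λ = (1 + Real.log K) ^ EE k 2 := ⟨_, rfl⟩
      have hΛ0 : 0 ≤ Λ := by
        have h0 : 0 ≤ Real.log K := Real.log_nonneg hK1
        rw [hΛ]
        exact pow_nonneg (by linarith) _
      rw [← hΛ] at hE2 ⊢
      clear hΛ
      have h6 : U * (6 * T * Λ) ^ 2 ≤ U * (36 * T ^ 2 * a ^ 2) := by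
        apply mul_le_mul_of_nonneg_left _ hUpos.le
        calc (6 * T * Λ) ^ 2 ≤ (6 * T * a) ^ 2 := by gcongr
          _ = _ := by ring
      have h7 : (T * K ^ 2) ^ (2 * 2) * (2 * K ^ (2 * 2)) ≤ 4 * U * T ^ 2 * a ^ 2 := by
        calc (T * K ^ 2) ^ (2 * 2) * (2 * K ^ (2 * 2)) = 2 * T ^ 4 * K ^ 12 := by ring
          _ ≤ 2 * T ^ 4 * U ^ ((1:ℝ) / 2) := mul_le_mul_of_nonneg_left hK12 (by positivity)
          _ = 2 * T ^ 2 * (T ^ 2 * U ^ ((1:ℝ) / 2)) := by ring
          _ ≤ 2 * T ^ 2 * (U ^ ((1:ℝ) / 2) * U ^ ((1:ℝ) / 2)) := by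
              apply mul_le_mul_of_nonneg_left _ (by positivity)
              apply mul_le_mul_of_nonneg_right _ (by positivity)
              exact (pow_le_pow_right₀ hT1 (by norm_num)).trans hT4'
          _ = 2 * T ^ 2 * U * 1 := by rw [hUhalf]; ring
          _ ≤ 4 * T ^ 2 * U * a ^ 2 := by
              have h8 : (1:ℝ) ≤ a ^ 2 := one_le_pow₀ (by linarith)
              have h9 : 0 < T ^ 2 * U := by positivity
              nlinarith
          _ = _ := by ring
      rw [hP2]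
      linarith
    have hcontW : Continuous (fun u => |We N k σ T u| ^ 2) := ((We_cont N k σ T).abs).pow _
    have hPZ := paley hUpos hm0pos hP2pos hcontW hm hfour
    -- lower bound of the measure
    have hTε : T ^ (-ε) = 1 / a ^ 16 := by
      rw [hadef, ← Real.rpow_natCast, ← Real.rpow_mul hTpos.le, one_div, ← Real.rpow_neg hTpos.le]
      congr 1; push_cast; ring
    have hmeas : 2 * (U * T ^ (-ε)) ≤ m0 ^ 2 / (4 * P2) := by
      have e : m0 ^ 2 / (4 * P2) = U / (2621440 * a ^ 6) := by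
        rw [hm0, hP2]; field_simp; norm_num
      rw [e, hTε, le_div_iff₀ (by positivity)]
      have e2 : 2 * (U * (1 / a ^ 16)) * (2621440 * a ^ 6) = U * (5242880 / a ^ 10) := by
        field_simp; norm_num
      rw [e2]
      have h5 : 5242880 / a ^ 10 ≤ 1 := by
        rw [div_le_one (by positivity)]
        calc (5242880 : ℝ) ≤ 100 ^ 10 := by norm_num
          _ ≤ a ^ 10 := pow_le_pow_left₀ (by norm_num) ha 10
      nlinarith
    -- inclusion
    set Tg := {u ∈ Set.Icc U (2 * U) | T ^ (1 / 2 - ε) < |Zw k σ T u - T * Dfull k σ|} with hTg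
    have hincl : {u ∈ Set.Icc U (2 * U) | m0 / (2 * U) < |We N k σ T u| ^ 2} ⊆
        Tg ∪ {u ∈ Set.Icc U (2 * U) | u ∉ G} := by
      rintro u ⟨hu, hu2⟩
      by_cases huG : u ∈ G
      · left
        refine ⟨hu, ?_⟩
        obtain ⟨g1, _⟩ := hgood u hu huG T ⟨hTpos.le, le_rfl⟩
        -- |We| > T^{1/2}/(16 a)
        set s := T ^ ((1:ℝ) / 2) with hs
        have hs0 : 0 < s := by positivity
        have hss : s * s = T := by rw [hs, ← Real.rpow_add hTpos]; norm_num
        have h5 : s / (16 * a) < |We N k σ T u| := by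
          have e : m0 / (2 * U) = (s / (16 * a)) ^ 2 := by
            rw [hm0, div_pow, mul_pow, sq s, hss]; field_simp; norm_num
          rw [e] at hu2
          exact lt_of_pow_lt_pow_left₀ 2 (abs_nonneg _) hu2
        have h6 : 64 ≤ s / a := by
          have h7 : T ^ ((1:ℝ) / 4) ≤ s / a := by
            rw [le_div_iff₀ ha0]
            calc T ^ ((1:ℝ) / 4) * a ≤ T ^ ((1:ℝ) / 4) * T ^ ((1:ℝ) / 16) :=
                  mul_le_mul_of_nonneg_left haT (by positivity)
              _ = T ^ ((1:ℝ) / 4 + 1 / 16) := by rw [← Real.rpow_add hTpos]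
              _ ≤ s := Real.rpow_le_rpow_of_exponent_le hT1 (by norm_num)
          refine le_trans ?_ h7
          have h8 : (64:ℝ) = ((64:ℝ) ^ (4:ℕ)) ^ ((1:ℝ) / 4) := by
            rw [← Real.rpow_natCast, ← Real.rpow_mul (by norm_num)]; norm_num
          rw [h8]
          apply Real.rpow_le_rpow (by positivity) _ (by norm_num)
          norm_num
          linarith
        have h7 : T ^ (1 / 2 - ε) ≤ s / (32 * a) := by
          have e : T ^ (1 / 2 - ε) = s * (1 / a ^ 16) := by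
            rw [← hTε, hs, ← Real.rpow_add hTpos]; congr 1
          rw [e, le_div_iff₀ (by positivity)]
          have e2 : s * (1 / a ^ 16) * (32 * a) = s * (32 / a ^ 15) := by field_simp
          rw [e2]
          have h8 : 32 / a ^ 15 ≤ 1 := by
            rw [div_le_one (by positivity)]
            calc (32 : ℝ) ≤ 100 ^ 15 := by norm_num
              _ ≤ a ^ 15 := pow_le_pow_left₀ (by norm_num) ha 15
          nlinarith
        have h8 : |We N k σ T u| - 2 ≤ |Zw k σ T u - T * Dfull k σ| := by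
          have e : We N k σ T u = (Zw k σ T u - T * Dfull k σ) - ((Zw k σ T u - T * Dfull k σ) - We N k σ T u) := by ring
          have h9 : |We N k σ T u| ≤ |Zw k σ T u - T * Dfull k σ| + |(Zw k σ T u - T * Dfull k σ) - We N k σ T u| := by
            conv_lhs => rw [e]
            exact abs_sub _ _
          linarith
        have e3 : s / (16 * a) = 2 * (s / (32 * a)) := by field_simp; norm_num
        have e4 : s / (32 * a) = (s / a) / 32 := by field_simp
        linarith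
      · right
        exact ⟨hu, huG⟩
    have hfin := hPZ.trans ((measure_mono hincl).trans (measure_union_le _ _))
    have hGb : volume {u ∈ Set.Icc U (2 * U) | u ∉ G} ≤ ENNReal.ofReal (U * T ^ (-ε)) := by
      refine hG.trans (ENNReal.ofReal_le_ofReal ?_)
      apply mul_le_mul_of_nonneg_left _ hUpos.le
      exact Real.rpow_le_rpow_of_exponent_le hT1 (by have := le_max_right A 2; linarith)
    have h10 : ENNReal.ofReal (U * T ^ (-ε)) + ENNReal.ofReal (U * T ^ (-ε)) ≤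
        volume Tg + ENNReal.ofReal (U * T ^ (-ε)) := by
      rw [← ENNReal.ofReal_add (by positivity) (by positivity), ← two_mul]
      refine (ENNReal.ofReal_le_ofReal hmeas).trans (hfin.trans ?_)
      gcongr
    exact (ENNReal.add_le_add_iff_right ENNReal.ofReal_ne_top).1 h10

end Pool.Agent.P07318d
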