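import Pool.Agent.Lib.P07318d.Alt
import Pool.Agent.Lib.P07318d.Bounds

/-!
# Mean square of `ζ(s) - Σ_{n ≤ N} n^{-s}` to the right of the critical line
-/

set_option autoImplicit false

namespace Pool.Agent.P07318d

open Finset MeasureTheory

/-- the remainder -/
noncomputable def Fz (N : ℕ) (x t : ℝ) : ℂ := riemannZeta ((x : ℂ) + t * Complex.I) - PN N x t

/-- coefficients of the long sum -/
noncomputable def bco (N n : ℕ) : ℝ := if n ≤ N then 0 else if n ≤ 2 * N then 1 else (-1) ^ (n - 1)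

lemma bco_sq_le (N n : ℕ) : (bco N n) ^ 2 ≤ 1 := by
  unfold bco
  split_ifs
  · norm_num
  · norm_num
  · rw [← pow_mul, mul_comm, pow_mul]; simp

lemma long_identity {N m : ℕ} (h2N : 2 * N ≤ m) (x t : ℝ) :
    ∑ n ∈ Finset.Icc 1 m, (bco N n : ℂ) * en x t n =
      ∑ n ∈ Finset.Icc 1 m, (-1 : ℂ) ^ (n - 1) * en x t n -
        (1 - 2 * en x t 2) * ∑ n ∈ Finset.Icc 1 N, en x t n := by
  have h1 : ∑ n ∈ Finset.Icc 1 N, en x t n = ∑ n ∈ Finset.Icc 1 m, (if n ≤ N then 1 else 0 : ℂ) * en x t n := by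
    have : Finset.Icc 1 N = (Finset.Icc 1 m).filter (fun n => n ≤ N) := by
      ext n; rw [Finset.mem_filter, Finset.mem_Icc, Finset.mem_Icc]; omega
    rw [this, Finset.sum_filter]
    refine Finset.sum_congr rfl (fun n _ => ?_)
    split_ifs <;> simp
  have h2 : ∑ n ∈ Finset.Icc 1 N, en x t 2 * en x t n =
      ∑ n ∈ Finset.Icc 1 m, (if Even n ∧ n ≤ 2 * N then 1 else 0 : ℂ) * en x t n := by
    have e1 : (Finset.Icc 1 m).filter (fun n => Even n ∧ n ≤ 2 * N) = (Finset.Icc 1 N).image (fun n => 2 * n) := by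
      ext n
      rw [Finset.mem_filter, Finset.mem_Icc, Finset.mem_image]
      constructor
      · rintro ⟨⟨h1, h2⟩, ⟨r, hr⟩, h4⟩
        exact ⟨r, by rw [Finset.mem_Icc]; omega, by omega⟩
      · rintro ⟨r, hr, rfl⟩
        rw [Finset.mem_Icc] at hr
        exact ⟨by omega, even_two_mul r, by omega⟩
    have e2 : ∑ n ∈ Finset.Icc 1 m, (if Even n ∧ n ≤ 2 * N then 1 else 0 : ℂ) * en x t n =
        ∑ n ∈ (Finset.Icc 1 m).filter (fun n => Even n ∧ n ≤ 2 * N), en x t n := by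
      rw [Finset.sum_filter]
      refine Finset.sum_congr rfl (fun n _ => ?_)
      split_ifs <;> simp
    rw [e2, e1, Finset.sum_image (by intro a _ b _ h; simpa using h)]
    refine Finset.sum_congr rfl (fun n hn => ?_)
    rw [en_mul (by norm_num) (by have := (Finset.mem_Icc.1 hn).1; omega)]
  have h3 : (1 - 2 * en x t 2) * ∑ n ∈ Finset.Icc 1 N, en x t n =
      ∑ n ∈ Finset.Icc 1 N, en x t n - 2 * ∑ n ∈ Finset.Icc 1 N, en x t 2 * en x t n := by
    rw [← Finset.mul_sum]; ring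
  rw [h3, h2, h1, Finset.mul_sum, ← Finset.sum_sub_distrib, ← Finset.sum_sub_distrib]
  refine Finset.sum_congr rfl (fun n hn => ?_)
  have hn1 := (Finset.mem_Icc.1 hn).1
  unfold bco
  rcases Nat.even_or_odd n with he | ho
  · have hp : (-1 : ℂ) ^ (n - 1) = -1 := by
      apply Odd.neg_one_pow
      obtain ⟨r, hr⟩ := he
      exact ⟨r - 1, by omega⟩
    by_cases hN : n ≤ N
    · have h2N' : n ≤ 2 * N := by omega
      simp only [hN, if_true, he, h2N', and_self, hp]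
      push_cast; ring
    · by_cases h2N' : n ≤ 2 * N
      · simp only [hN, if_false, h2N', if_true, he, and_self, hp]
        push_cast; ring
      · simp only [hN, if_false, h2N', he, and_false]
        push_cast
        rw [hp]; ring
  · have hne : ¬ Even n := Nat.not_even_iff_odd.2 ho
    have hp : (-1 : ℂ) ^ (n - 1) = 1 := by
      apply Even.neg_one_pow
      obtain ⟨r, hr⟩ := ho
      exact ⟨r, by omega⟩
    by_cases hN : n ≤ N
    · simp only [hN, if_true, hne, false_and, if_false, hp]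
      push_cast; ring
    · by_cases h2N' : n ≤ 2 * N
      · simp only [hN, if_false, h2N', if_true, hne, and_true, hp]
        push_cast; ring
      · simp only [hN, if_false, h2N', hne, and_false]
        push_cast
        rw [hp]; ring

lemma sym_quad (S : Finset ℕ) (k : ℕ → ℕ → ℝ) (hk0 : ∀ a b, 0 ≤ k a b) (hsymm : ∀ a b, k a b = k b a)
    (X : ℕ → ℝ) : ∑ a ∈ S, ∑ b ∈ S, k a b * (X a * X b) ≤ ∑ a ∈ S, X a ^ 2 * ∑ b ∈ S, k a b := by
  have h0 : ∑ a ∈ S, ∑ b ∈ S, k a b * (X a * X b) ≤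
      ∑ a ∈ S, ∑ b ∈ S, k a b * ((X a ^ 2 + X b ^ 2) / 2) := by
    apply Finset.sum_le_sum; intro a _
    apply Finset.sum_le_sum; intro b _
    apply mul_le_mul_of_nonneg_left _ (hk0 _ _)
    nlinarith [sq_nonneg (X a - X b)]
  have e1 : ∑ a ∈ S, ∑ b ∈ S, k a b * X b ^ 2 = ∑ a ∈ S, ∑ b ∈ S, k a b * X a ^ 2 := by
    rw [Finset.sum_comm]
    refine Finset.sum_congr rfl (fun a _ => Finset.sum_congr rfl (fun b _ => ?_))
    rw [hsymm]
  have e2 : ∑ a ∈ S, ∑ b ∈ S, k a b * ((X a ^ 2 + X b ^ 2) / 2) =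
      (∑ a ∈ S, ∑ b ∈ S, k a b * X a ^ 2) / 2 + (∑ a ∈ S, ∑ b ∈ S, k a b * X b ^ 2) / 2 := by
    rw [← add_div, ← Finset.sum_add_distrib, Finset.sum_div]
    refine Finset.sum_congr rfl (fun a _ => ?_)
    rw [← Finset.sum_add_distrib, Finset.sum_div]
    refine Finset.sum_congr rfl (fun b _ => ?_)
    ring
  have e3 : ∑ a ∈ S, X a ^ 2 * ∑ b ∈ S, k a b = ∑ a ∈ S, ∑ b ∈ S, k a b * X a ^ 2 := by
    refine Finset.sum_congr rfl (fun a _ => ?_)
    rw [mul_comm, Finset.sum_mul]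
  rw [e3]
  rw [e2, e1] at h0
  linarith

lemma dir_norm_sq (m : ℕ) (b : ℕ → ℝ) (x t : ℝ) :
    ((‖∑ n ∈ Finset.Icc 1 m, (b n : ℂ) * en x t n‖ ^ 2 : ℝ) : ℂ) =
      ∑ p ∈ Finset.Icc 1 m, ∑ q ∈ Finset.Icc 1 m,
        (((b p * b q) * ((p : ℝ) ^ (-x) * (q : ℝ) ^ (-x)) : ℝ) : ℂ) *
          Complex.exp (((t * (Real.log q - Real.log p) : ℝ) : ℂ) * Complex.I) := by
  rw [← Complex.normSq_eq_norm_sq, Complex.normSq_eq_conj_mul_self, mul_comm, map_sum, Finset.sum_mul_sum]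
  refine Finset.sum_congr rfl (fun p _ => Finset.sum_congr rfl (fun q _ => ?_))
  rw [map_mul, Complex.conj_ofReal]
  have h := en_mul_conj x t p q
  push_cast at h ⊢
  linear_combination ((b p : ℂ) * (b q : ℂ)) * h

theorem dir_ms (m : ℕ) (b : ℕ → ℝ) (x : ℝ) {a c : ℝ} (hac : a ≤ c) :
    ∫ t in a..c, ‖∑ n ∈ Finset.Icc 1 m, (b n : ℂ) * en x t n‖ ^ 2 ≤
      ((c - a) + 4 * m * (1 + Real.log m)) * ∑ n ∈ Finset.Icc 1 m, (|b n| * (n : ℝ) ^ (-x)) ^ 2 := by
  have hI : ((∫ t in a..c, ‖∑ n ∈ Finset.Icc 1 m, (b n : ℂ) * en x t n‖ ^ 2 : ℝ) : ℂ) =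
      ∑ p ∈ Finset.Icc 1 m, ∑ q ∈ Finset.Icc 1 m,
        (((b p * b q) * ((p : ℝ) ^ (-x) * (q : ℝ) ^ (-x)) : ℝ) : ℂ) *
          ∫ t in a..c, Complex.exp (((t * (Real.log q - Real.log p) : ℝ) : ℂ) * Complex.I) := by
    rw [← intervalIntegral.integral_ofReal]
    simp_rw [dir_norm_sq]
    rw [intervalIntegral.integral_finset_sum]
    · refine Finset.sum_congr rfl (fun p _ => ?_)
      rw [intervalIntegral.integral_finset_sum]
      · refine Finset.sum_congr rfl (fun q _ => ?_)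
        rw [intervalIntegral.integral_const_mul]
      · intro q _
        apply Continuous.intervalIntegrable
        fun_prop
    · intro p _
      apply Continuous.intervalIntegrable
      fun_prop
  have hnn : 0 ≤ ∫ t in a..c, ‖∑ n ∈ Finset.Icc 1 m, (b n : ℂ) * en x t n‖ ^ 2 := by
    apply intervalIntegral.integral_nonneg hac
    intro u _; positivity
  have h1 : ∫ t in a..c, ‖∑ n ∈ Finset.Icc 1 m, (b n : ℂ) * en x t n‖ ^ 2 =
      ‖((∫ t in a..c, ‖∑ n ∈ Finset.Icc 1 m, (b n : ℂ) * en x t n‖ ^ 2 : ℝ) : ℂ)‖ := by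
    rw [Complex.norm_real, Real.norm_of_nonneg hnn]
  rw [h1, hI]
  set X : ℕ → ℝ := fun n => |b n| * (n : ℝ) ^ (-x) with hX
  have hX0 : ∀ n, 0 ≤ X n := fun n => by rw [hX]; positivity
  have hterm : ∀ p ∈ Finset.Icc 1 m, ∀ q ∈ Finset.Icc 1 m,
      ‖(((b p * b q) * ((p : ℝ) ^ (-x) * (q : ℝ) ^ (-x)) : ℝ) : ℂ) *
          ∫ t in a..c, Complex.exp (((t * (Real.log q - Real.log p) : ℝ) : ℂ) * Complex.I)‖ ≤
      (c - a) * (if p = q then X p * X q else 0) + 2 * m * ((1 / |(p : ℝ) - q|) * (X p * X q)) := by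
    intro p hp q hq
    have hp1 := (Finset.mem_Icc.1 hp).1
    have hq1 := (Finset.mem_Icc.1 hq).1
    have hpm : (p : ℝ) ≤ m := by exact_mod_cast (Finset.mem_Icc.1 hp).2
    have hqm : (q : ℝ) ≤ m := by exact_mod_cast (Finset.mem_Icc.1 hq).2
    have hp0 : (0:ℝ) < p := by exact_mod_cast hp1
    have hq0 : (0:ℝ) < q := by exact_mod_cast hq1
    rw [norm_mul, Complex.norm_real]
    have e1 : ‖b p * b q * ((p : ℝ) ^ (-x) * (q : ℝ) ^ (-x))‖ = X p * X q := by
      rw [hX, Real.norm_eq_abs, abs_mul, abs_mul, abs_of_nonneg (show 0 ≤ (p : ℝ) ^ (-x) * (q : ℝ) ^ (-x) by positivity)]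
      ring
    rw [e1]
    have hXX : 0 ≤ X p * X q := mul_nonneg (hX0 p) (hX0 q)
    by_cases hpq : p = q
    · subst hpq
      rw [if_pos rfl]
      have h2 : ‖∫ t in a..c, Complex.exp (((t * (Real.log p - Real.log p) : ℝ) : ℂ) * Complex.I)‖ ≤ c - a := by
        simp only [sub_self, mul_zero, Complex.ofReal_zero, zero_mul, Complex.exp_zero]
        rw [intervalIntegral.integral_const]
        simp
        rw [← Complex.ofReal_sub, Complex.norm_real, Real.norm_of_nonneg (sub_nonneg.2 hac)]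
      have := mul_le_mul_of_nonneg_left h2 hXX
      simp only [sub_self, abs_zero, div_zero, zero_mul, mul_zero, add_zero] at this ⊢
      linarith
    · rw [if_neg hpq, mul_zero, zero_add]
      have hne : (p : ℝ) ≠ q := by exact_mod_cast hpq
      have hd : 0 < |(p : ℝ) - q| := abs_pos.2 (sub_ne_zero.2 hne)
      have hmax : 0 < max (p:ℝ) (q:ℝ) := lt_max_of_lt_left hp0
      have hlow := log_diff_lower hp1 hq1
      have hθ : 0 < |Real.log q - Real.log p| := lt_of_lt_of_le (by positivity) hlow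
      have h2 := norm_integral_exp_le (abs_pos.1 hθ) a c
      have h3 : 2 / |Real.log q - Real.log p| ≤ 2 * m * (1 / |(p : ℝ) - q|) := by
        rw [div_le_iff₀ hθ]
        have h4 : max (p:ℝ) (q:ℝ) ≤ m := max_le hpm hqm
        have h5 : 1 ≤ m * (1 / |(p : ℝ) - q|) * |Real.log q - Real.log p| := by
          rw [div_le_iff₀ hmax] at hlow
          have h6 : |Real.log q - Real.log p| * max (p:ℝ) (q:ℝ) ≤ |Real.log q - Real.log p| * m :=
            mul_le_mul_of_nonneg_left h4 hθ.le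
          have h7 : |(p : ℝ) - q| ≤ |Real.log q - Real.log p| * m := hlow.trans h6
          rw [mul_one_div, div_mul_eq_mul_div, le_div_iff₀ hd]
          linarith
        nlinarith
      calc X p * X q * _ ≤ X p * X q * (2 * m * (1 / |(p : ℝ) - q|)) :=
            mul_le_mul_of_nonneg_left (h2.trans h3) hXX
        _ = _ := by ring
  have h2 : ‖∑ p ∈ Finset.Icc 1 m, ∑ q ∈ Finset.Icc 1 m,
        (((b p * b q) * ((p : ℝ) ^ (-x) * (q : ℝ) ^ (-x)) : ℝ) : ℂ) *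
          ∫ t in a..c, Complex.exp (((t * (Real.log q - Real.log p) : ℝ) : ℂ) * Complex.I)‖ ≤
      ∑ p ∈ Finset.Icc 1 m, ∑ q ∈ Finset.Icc 1 m,
        ((c - a) * (if p = q then X p * X q else 0) + 2 * m * ((1 / |(p : ℝ) - q|) * (X p * X q))) := by
    refine (norm_sum_le _ _).trans (Finset.sum_le_sum (fun p hp => ?_))
    exact (norm_sum_le _ _).trans (Finset.sum_le_sum (fun q hq => hterm p hp q hq))
  refine h2.trans ?_
  simp only [Finset.sum_add_distrib]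
  have e1 : ∑ p ∈ Finset.Icc 1 m, ∑ q ∈ Finset.Icc 1 m, (c - a) * (if p = q then X p * X q else 0) =
      (c - a) * ∑ n ∈ Finset.Icc 1 m, X n ^ 2 := by
    rw [Finset.mul_sum]
    refine Finset.sum_congr rfl (fun p hp => ?_)
    rw [← Finset.mul_sum, Finset.sum_ite_eq, if_pos hp]; ring
  have e2 : ∑ p ∈ Finset.Icc 1 m, ∑ q ∈ Finset.Icc 1 m, 2 * m * ((1 / |(p : ℝ) - q|) * (X p * X q)) =
      2 * m * ∑ p ∈ Finset.Icc 1 m, ∑ q ∈ Finset.Icc 1 m, (1 / |(p : ℝ) - q|) * (X p * X q) := by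
    rw [Finset.mul_sum]
    refine Finset.sum_congr rfl (fun p hp => ?_)
    rw [Finset.mul_sum]
  have h3 := sym_quad (Finset.Icc 1 m) (fun p q => 1 / |(p : ℝ) - q|) (fun _ _ => by positivity)
    (fun p q => by rw [abs_sub_comm]) X
  have h4 : ∑ p ∈ Finset.Icc 1 m, X p ^ 2 * ∑ q ∈ Finset.Icc 1 m, (1 / |(p : ℝ) - q|) ≤
      ∑ p ∈ Finset.Icc 1 m, X p ^ 2 * (2 * (1 + Real.log m)) := by
    apply Finset.sum_le_sum
    intro p hp
    exact mul_le_mul_of_nonneg_left (sum_inv_dist_le (Finset.mem_Icc.1 hp).1 (Finset.mem_Icc.1 hp).2) (sq_nonneg _)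
  rw [← Finset.sum_mul] at h4
  rw [e1, e2]
  have h5 : (0:ℝ) ≤ 2 * m := by positivity
  have h6 := mul_le_mul_of_nonneg_left (h3.trans h4) h5
  linarith

lemma bco_sum_le {N m : ℕ} (hN : 1 ≤ N) {x : ℝ} (hx : 1 / 2 ≤ x) :
    ∑ n ∈ Finset.Icc 1 m, (|bco N n| * (n : ℝ) ^ (-x)) ^ 2 ≤ (N : ℝ) ^ (-(2 * x - 1)) * (1 + Real.log m) := by
  have hN0 : (0:ℝ) < N := by exact_mod_cast hN
  have h1 : ∀ n ∈ Finset.Icc 1 m, (|bco N n| * (n : ℝ) ^ (-x)) ^ 2 ≤ (N : ℝ) ^ (-(2 * x - 1)) * (1 / n) := by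
    intro n hn
    have hn1 := (Finset.mem_Icc.1 hn).1
    have hn0 : (0:ℝ) < n := by exact_mod_cast hn1
    by_cases hnN : n ≤ N
    · have : bco N n = 0 := by unfold bco; rw [if_pos hnN]
      rw [this]; simp; positivity
    · rw [mul_pow, sq_abs]
      have e1 : ((n : ℝ) ^ (-x)) ^ 2 = (n : ℝ) ^ (-(2 * x - 1)) * (1 / n) := by
        rw [one_div, ← Real.rpow_neg_one, ← Real.rpow_add hn0, ← Real.rpow_natCast, ← Real.rpow_mul hn0.le]
        congr 1; push_cast; ring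
      rw [e1]
      have h2 : (n : ℝ) ^ (-(2 * x - 1)) ≤ (N : ℝ) ^ (-(2 * x - 1)) := by
        apply Real.rpow_le_rpow_of_nonpos hN0
        · exact_mod_cast (by omega : N ≤ n)
        · linarith
      have h3 := bco_sq_le N n
      have h4 : 0 ≤ (n : ℝ) ^ (-(2 * x - 1)) * (1 / n) := by positivity
      calc bco N n ^ 2 * ((n : ℝ) ^ (-(2 * x - 1)) * (1 / n)) ≤ 1 * ((n : ℝ) ^ (-(2 * x - 1)) * (1 / n)) :=
            mul_le_mul_of_nonneg_right h3 h4
        _ = (n : ℝ) ^ (-(2 * x - 1)) * (1 / n) := one_mul _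
        _ ≤ _ := mul_le_mul_of_nonneg_right h2 (by positivity)
  refine (Finset.sum_le_sum h1).trans ?_
  rw [← Finset.mul_sum]
  exact mul_le_mul_of_nonneg_left (harm_le m) (by positivity)

lemma two_pow_ge (K : ℕ) (hK : 2 ≤ K) : 2 * K ≤ 2 ^ K := by
  induction K, hK using Nat.le_induction with
  | base => norm_num
  | succ K hK ih => rw [pow_succ]; omega

lemma factor_lower {x t : ℝ} (hx : x ≤ 7 / 8) : (9 : ℝ) / 100 ≤ ‖1 - 2 * en x t 2‖ := by
  have h1 : ‖2 * en x t 2‖ = 2 ^ (1 - x) := by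
    unfold en
    rw [norm_mul, norm_mul, Complex.norm_real, Complex.norm_exp_ofReal_mul_I]
    rw [Real.norm_of_nonneg (by positivity), Real.rpow_sub (by norm_num), Real.rpow_one, Real.rpow_neg (by norm_num)]
    push_cast
    simp
    ring
  have h2 : (109 : ℝ) / 100 ≤ 2 ^ (1 - x) := by
    have h3 : (2:ℝ) ^ ((1:ℝ) / 8) ≤ 2 ^ (1 - x) :=
      Real.rpow_le_rpow_of_exponent_le (by norm_num) (by linarith)
    have h4 : (109 : ℝ) / 100 ≤ (2:ℝ) ^ ((1:ℝ) / 8) := by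
      have h5 : ((109 : ℝ) / 100) ^ (8:ℕ) ≤ 2 := by norm_num
      have h6 : ((109 : ℝ) / 100) = (((109 : ℝ) / 100) ^ (8:ℕ)) ^ ((1:ℝ) / 8) := by
        rw [← Real.rpow_natCast, ← Real.rpow_mul (by norm_num)]
        norm_num
      rw [h6]
      exact Real.rpow_le_rpow (by positivity) h5 (by norm_num)
    linarith
  have h3 : ‖2 * en x t 2‖ - ‖(1:ℂ)‖ ≤ ‖1 - 2 * en x t 2‖ := by
    rw [norm_sub_rev]
    exact norm_sub_norm_le _ _
  rw [h1, norm_one] at h3
  linarith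

lemma range_to_Icc (m : ℕ) (x t : ℝ) :
    ∑ n ∈ Finset.range m, (-1 : ℂ) ^ n * (((n : ℝ) + 1 : ℝ) : ℂ) ^ (-((x : ℂ) + t * Complex.I)) =
      ∑ n ∈ Finset.Icc 1 m, (-1 : ℂ) ^ (n - 1) * en x t n := by
  have : Finset.Icc 1 m = (Finset.range m).image (fun n => n + 1) := by
    ext n; rw [Finset.mem_Icc, Finset.mem_image]
    constructor
    · rintro ⟨h1, h2⟩; exact ⟨n - 1, by rw [Finset.mem_range]; omega, by omega⟩
    · rintro ⟨r, hr, rfl⟩; rw [Finset.mem_range] at hr; omega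
  rw [this, Finset.sum_image (by intro a _ b _ h; simpa using h)]
  refine Finset.sum_congr rfl (fun n _ => ?_)
  rw [← en_eq (by omega : n + 1 ≠ 0)]
  simp

/-- pointwise bound -/
theorem Fz_pointwise {K N : ℕ} (hK : 2 ≤ K) (h2N : 2 * N ≤ 2 ^ K) {x t : ℝ} (hx : 1 / 2 ≤ x)
    (hx2 : x ≤ 7 / 8) (ht : 0 < t) (htK : 1 + t ≤ 2 ^ K / 2) :
    ‖Fz N x t‖ ^ 2 ≤ 247 * (‖∑ n ∈ Finset.Icc 1 (2 ^ K), (bco N n : ℂ) * en x t n‖ ^ 2 +
      4 * ((2 ^ K : ℕ) : ℝ) ^ (-(2 * x))) := by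
  set m : ℕ := 2 ^ K with hm
  set s : ℂ := (x : ℂ) + t * Complex.I with hs
  have hre : s.re = x := by simp [hs]
  have him : s.im = t := by simp [hs]
  have hm1 : 1 ≤ m := Nat.one_le_two_pow
  have hm0 : (0:ℝ) < m := by exact_mod_cast hm1
  have hsn : ‖s‖ ≤ 1 + t := by
    rw [hs]
    refine (norm_add_le _ _).trans ?_
    rw [Complex.norm_real, norm_mul, Complex.norm_real, Complex.norm_I, mul_one,
      Real.norm_of_nonneg (by linarith), Real.norm_of_nonneg ht.le]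
    linarith
  have hKm : (K : ℝ) ≤ (m:ℝ) / 2 := by
    have : 2 * K ≤ m := two_pow_ge K hK
    have : (2:ℝ) * K ≤ m := by exact_mod_cast this
    linarith
  have hmK : ((m : ℕ) : ℝ) = 2 ^ K := by rw [hm]; push_cast; rfl
  have hap := eta_approx (m := m) (K := K) hK hm1 le_rfl (s := s) (by rw [hre]; linarith) (by rw [him]; exact ht)
    (by rw [← hmK] at htK; linarith)
  rw [hs, range_to_Icc, ← hs] at hap
  have e2 : (2 : ℂ) ^ (-s) = en x t 2 := by
    rw [← en_eq (by norm_num)]; push_cast; rfl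
  rw [e2, hre] at hap
  have hid := long_identity h2N x t
  have hkey : (1 - 2 * en x t 2) * Fz N x t =
      ((1 - 2 * en x t 2) * riemannZeta s - ∑ n ∈ Finset.Icc 1 m, (-1 : ℂ) ^ (n - 1) * en x t n) +
        ∑ n ∈ Finset.Icc 1 m, (bco N n : ℂ) * en x t n := by
    rw [hid]
    unfold Fz PN
    rw [← hs]; ring
  have hfl := factor_lower (x := x) (t := t) hx2
  have h1 : (9/100) * ‖Fz N x t‖ ≤ 2 * (m : ℝ) ^ (-x) + ‖∑ n ∈ Finset.Icc 1 m, (bco N n : ℂ) * en x t n‖ := by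
    calc (9/100) * ‖Fz N x t‖ ≤ ‖1 - 2 * en x t 2‖ * ‖Fz N x t‖ :=
          mul_le_mul_of_nonneg_right hfl (norm_nonneg _)
      _ = ‖(1 - 2 * en x t 2) * Fz N x t‖ := (norm_mul _ _).symm
      _ ≤ _ := by
          rw [hkey]
          refine (norm_add_le _ _).trans ?_
          linarith
  have h2 : ((m : ℝ) ^ (-x)) ^ 2 = (m : ℝ) ^ (-(2 * x)) := by
    rw [← Real.rpow_natCast, ← Real.rpow_mul hm0.le]
    congr 1; push_cast; ring
  have h3 : 0 ≤ ‖Fz N x t‖ := norm_nonneg _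
  set A := ‖Fz N x t‖
  set B := ‖∑ n ∈ Finset.Icc 1 m, (bco N n : ℂ) * en x t n‖
  set D := (m : ℝ) ^ (-x)
  have hD : 0 ≤ D := by positivity
  have hB : 0 ≤ B := norm_nonneg _
  rw [← h2]
  have h4 : ((9/100) * A) ^ 2 ≤ (2 * D + B) ^ 2 := pow_le_pow_left₀ (by positivity) h1 2
  nlinarith [sq_nonneg (2 * D - B), sq_nonneg D, sq_nonneg B]

lemma Fz_cont (N : ℕ) (x : ℝ) {a c : ℝ} (ha : 0 < a) : ContinuousOn (fun t => Fz N x t) (Set.Icc a c) := by
  unfold Fz PN en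
  apply ContinuousOn.sub
  · intro t ht
    apply ContinuousAt.continuousWithinAt
    have h1 : ContinuousAt riemannZeta ((x : ℂ) + t * Complex.I) := by
      apply (differentiableAt_riemannZeta _).continuousAt
      intro h
      have := congrArg Complex.im h
      simp at this
      linarith [ht.1]
    exact ContinuousAt.comp (f := fun t : ℝ => (x : ℂ) + t * Complex.I) h1 (by fun_prop)
  · apply Continuous.continuousOn
    fun_prop

theorem Fz_ms {b : ℝ} (hb : 8 ≤ b) {a c : ℝ} (ha : 0 < a) (hac : a ≤ c) (hcb : c ≤ b) {N : ℕ} (hN : 1 ≤ N)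
    (hNb : (N : ℝ) ≤ b) {x : ℝ} (hx : 1 / 2 ≤ x) (hx2 : x ≤ 7 / 8) :
    ∫ t in a..c, ‖Fz N x t‖ ^ 2 ≤ 80000 * b * (Real.log b) ^ 2 * (N : ℝ) ^ (-(2 * x - 1)) := by
  obtain ⟨n, hn1, hn2⟩ := exists_nat_pow_near (show (1:ℝ) ≤ 4 * b by linarith) (show (1:ℝ) < 2 by norm_num)
  set K := n + 1 with hK
  set m : ℕ := 2 ^ K with hm
  have hmr : (m : ℝ) = 2 ^ K := by rw [hm]; push_cast; rfl
  have hm8 : (m : ℝ) ≤ 8 * b := by
    rw [hmr, hK, pow_succ]; linarith
  have hm4 : 4 * b < (m : ℝ) := by rw [hmr]; exact hn2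
  have hm0 : (0:ℝ) < m := by linarith
  have hK2 : 2 ≤ K := by
    by_contra hcon
    have : K ≤ 1 := by omega
    have h1 : (2:ℝ) ^ K ≤ 2 ^ 1 := pow_le_pow_right₀ (by norm_num) this
    rw [← hmr] at h1
    linarith
  have h2N : 2 * N ≤ m := by
    have : (2:ℝ) * N ≤ m := by linarith
    exact_mod_cast this
  have hN0 : (0:ℝ) < N := by exact_mod_cast hN
  have hNm : (N:ℝ) ≤ m := by linarith
  have hpt : ∀ t ∈ Set.Icc a c, ‖Fz N x t‖ ^ 2 ≤
      247 * (‖∑ n ∈ Finset.Icc 1 m, (bco N n : ℂ) * en x t n‖ ^ 2 + 4 * (m : ℝ) ^ (-(2 * x))) := by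
    intro t ht
    exact Fz_pointwise hK2 h2N hx hx2 (by linarith [ht.1]) (by rw [← hmr]; linarith [ht.2])
  have hcontB : Continuous (fun t => ‖∑ n ∈ Finset.Icc 1 m, (bco N n : ℂ) * en x t n‖ ^ 2) := by
    unfold en
    fun_prop
  have hint1 : IntervalIntegrable (fun t => ‖Fz N x t‖ ^ 2) volume a c := by
    apply ContinuousOn.intervalIntegrable
    rw [Set.uIcc_of_le hac]
    exact ((Fz_cont N x ha).norm).pow 2
  have h1 : ∫ t in a..c, ‖Fz N x t‖ ^ 2 ≤
      ∫ t in a..c, 247 * (‖∑ n ∈ Finset.Icc 1 m, (bco N n : ℂ) * en x t n‖ ^ 2 + 4 * (m : ℝ) ^ (-(2 * x))) := by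
    apply intervalIntegral.integral_mono_on hac hint1 _ hpt
    apply Continuous.intervalIntegrable
    fun_prop
  refine h1.trans ?_
  rw [intervalIntegral.integral_const_mul, intervalIntegral.integral_add (hcontB.intervalIntegrable _ _)
    (Continuous.intervalIntegrable (by fun_prop) _ _), intervalIntegral.integral_const, smul_eq_mul]
  have h2 := dir_ms m (bco N) x hac
  have h3 := bco_sum_le (m := m) hN hx
  have hlogb : 2 ≤ Real.log b := by
    rw [Real.le_log_iff_exp_le (by linarith)]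
    have := Real.exp_one_lt_d9
    have h4 : Real.exp 2 = Real.exp 1 * Real.exp 1 := by rw [← Real.exp_add]; norm_num
    have h5 := Real.exp_pos 1
    nlinarith
  have hlogm : 1 + Real.log m ≤ 3 * Real.log b := by
    have h4 : Real.log m ≤ Real.log (8 * b) := Real.log_le_log hm0 hm8
    rw [Real.log_mul (by norm_num) (by linarith)] at h4
    have h5 : Real.log 8 ≤ Real.log b := Real.log_le_log (by norm_num) hb
    linarith
  have hlogm0 : 0 ≤ 1 + Real.log m := by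
    have : 0 ≤ Real.log m := Real.log_nonneg (by linarith)
    linarith
  set Y := (N : ℝ) ^ (-(2 * x - 1)) with hY
  have hY0 : 0 < Y := by positivity
  set S := ∑ n ∈ Finset.Icc 1 m, (|bco N n| * (n : ℝ) ^ (-x)) ^ 2 with hS
  have hS0 : 0 ≤ S := Finset.sum_nonneg (fun _ _ => by positivity)
  set L := Real.log b with hL
  have hS1 : S ≤ Y * (3 * L) := h3.trans (mul_le_mul_of_nonneg_left hlogm hY0.le)
  have hcoef : (c - a) + 4 * m * (1 + Real.log m) ≤ 97 * b * L := by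
    have h4 : (m : ℝ) * (1 + Real.log m) ≤ 8 * b * (3 * L) := mul_le_mul hm8 hlogm hlogm0 (by linarith)
    have h5 : c - a ≤ b := by linarith
    nlinarith
  have hterm1 : ∫ t in a..c, ‖∑ n ∈ Finset.Icc 1 m, (bco N n : ℂ) * en x t n‖ ^ 2 ≤ 291 * b * L ^ 2 * Y := by
    refine h2.trans ?_
    calc ((c - a) + 4 * m * (1 + Real.log m)) * S ≤ (97 * b * L) * (Y * (3 * L)) := by
          apply mul_le_mul hcoef hS1 hS0 (by positivity)
      _ = _ := by ring
  have hterm2 : (c - a) * (4 * (m : ℝ) ^ (-(2 * x))) ≤ Y := by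
    have e1 : (m : ℝ) ^ (-(2 * x)) = (m : ℝ) ^ (-(2 * x - 1)) * (1 / m) := by
      rw [one_div, ← Real.rpow_neg_one, ← Real.rpow_add hm0]
      congr 1; ring
    have h4 : (m : ℝ) ^ (-(2 * x - 1)) ≤ Y := Real.rpow_le_rpow_of_nonpos hN0 hNm (by linarith)
    rw [e1]
    have h5 : (c - a) * 4 * (1 / m) ≤ 1 := by
      rw [mul_one_div, div_le_one hm0]; linarith
    have h6 : 0 ≤ (c - a) * 4 * (1 / m) := by
      have : 0 ≤ c - a := by linarith
      positivity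
    calc (c - a) * (4 * ((m : ℝ) ^ (-(2 * x - 1)) * (1 / m))) = ((c - a) * 4 * (1 / m)) * (m : ℝ) ^ (-(2 * x - 1)) := by ring
      _ ≤ 1 * Y := mul_le_mul h5 h4 (by positivity) (by norm_num)
      _ = Y := one_mul _
  have hbl : 1 ≤ b * L ^ 2 := by nlinarith
  have : 247 * (291 * b * L ^ 2 * Y + Y) ≤ 80000 * b * L ^ 2 * Y := by
    have h4 : Y ≤ b * L ^ 2 * Y := by nlinarith
    nlinarith
  have h7 := mul_le_mul_of_nonneg_left (add_le_add hterm1 hterm2) (show (0:ℝ) ≤ 247 by norm_num)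
  linarith

end Pool.Agent.P07318d
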