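import Pool.Agent.Lib.P07318d.Torus

/-!
# Time averages of powers of generalised Dirichlet polynomials with rational frequencies
-/

set_option autoImplicit false

namespace Pool.Agent.P07318d

open Finset MeasureTheory

/-- exponents of `r.2 / r.1` -/
def Ex (r : ℕ × ℕ) (p : ℕ) : ℤ := (r.2.factorization p : ℤ) - (r.1.factorization p : ℤ)

/-- the primes up to `K` -/
noncomputable def pl (K : ℕ) : List ℕ := ((Finset.range (K + 1)).filter Nat.Prime).toList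

lemma mem_pl {K p : ℕ} : p ∈ pl K ↔ p ≤ K ∧ p.Prime := by
  unfold pl; simp [Nat.lt_succ_iff]

lemma pl_nodup (K : ℕ) : (pl K).Nodup := Finset.nodup_toList _

lemma norm_integral_exp_le {θ : ℝ} (hθ : θ ≠ 0) (a b : ℝ) :
    ‖∫ u in a..b, Complex.exp (((u * θ : ℝ) : ℂ) * Complex.I)‖ ≤ 2 / |θ| := by
  have hc : (θ : ℂ) * Complex.I ≠ 0 := mul_ne_zero (by exact_mod_cast hθ) Complex.I_ne_zero
  have h1 : ∀ u : ℝ, Complex.exp (((u * θ : ℝ) : ℂ) * Complex.I) =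
      Complex.exp (((θ : ℂ) * Complex.I) * u) := by
    intro u; congr 1; push_cast; ring
  simp_rw [h1]
  rw [integral_exp_mul_complex hc, norm_div]
  have h2 : ‖(θ : ℂ) * Complex.I‖ = |θ| := by simp
  rw [h2]
  apply div_le_div_of_nonneg_right _ (abs_nonneg _)
  refine (norm_sub_le _ _).trans ?_
  have h3 : ∀ u : ℝ, ‖Complex.exp (((θ : ℂ) * Complex.I) * u)‖ = 1 := by
    intro u
    rw [← h1, Complex.norm_exp_ofReal_mul_I]
  rw [h3, h3]; norm_num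

lemma log_sub_log_lower {X Y B : ℕ} (hX : 1 ≤ X) (hY : 1 ≤ Y) (hXB : X ≤ B) (hYB : Y ≤ B)
    (hne : X ≠ Y) : 1 / (B : ℝ) ≤ |Real.log X - Real.log Y| := by
  wlog h : Y < X generalizing X Y
  · rw [abs_sub_comm]
    exact this hY hX hYB hXB (Ne.symm hne) (by omega)
  have hXr : (1:ℝ) ≤ X := by exact_mod_cast hX
  have hYr : (1:ℝ) ≤ Y := by exact_mod_cast hY
  have hYX : (Y : ℝ) + 1 ≤ X := by exact_mod_cast h
  have hBr : (X:ℝ) ≤ B := by exact_mod_cast hXB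
  have h1 : Real.log Y - Real.log X ≤ Y / X - 1 := by
    rw [← Real.log_div (by positivity) (by positivity)]
    exact Real.log_le_sub_one_of_pos (by positivity)
  have h2 : (Y : ℝ) / X - 1 ≤ - (1 / X) := by
    rw [div_sub_one (by positivity), ← neg_div, div_le_div_iff_of_pos_right (by positivity)]
    linarith
  have h3 : 1 / (B : ℝ) ≤ 1 / X := one_div_le_one_div_of_le (by positivity) hBr
  refine le_trans ?_ (le_abs_self _)
  linarith

section
variable {q : ℕ}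

/-- numerators -/
def Xp (x y : Fin q → ℕ × ℕ) : ℕ := (∏ i, (x i).2) * ∏ i, (y i).1

lemma Ex_sum_of_eq {K : ℕ} {R : Finset (ℕ × ℕ)}
    (hR : ∀ r ∈ R, (1 ≤ r.1 ∧ r.1 ≤ K) ∧ (1 ≤ r.2 ∧ r.2 ≤ K))
    {x y : Fin q → ℕ × ℕ} (hx : ∀ i, x i ∈ R) (hy : ∀ i, y i ∈ R) (h : Xp x y = Xp y x) (p : ℕ) :
    ∑ i, Ex (x i) p = ∑ i, Ex (y i) p := by
  unfold Xp at h
  have hx1 : ∀ i ∈ (Finset.univ : Finset (Fin q)), (x i).1 ≠ 0 := fun i _ => by
    have := (hR _ (hx i)).1.1; omega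
  have hx2 : ∀ i ∈ (Finset.univ : Finset (Fin q)), (x i).2 ≠ 0 := fun i _ => by
    have := (hR _ (hx i)).2.1; omega
  have hy1 : ∀ i ∈ (Finset.univ : Finset (Fin q)), (y i).1 ≠ 0 := fun i _ => by
    have := (hR _ (hy i)).1.1; omega
  have hy2 : ∀ i ∈ (Finset.univ : Finset (Fin q)), (y i).2 ≠ 0 := fun i _ => by
    have := (hR _ (hy i)).2.1; omega
  have h1 := congrArg (fun n => n.factorization p) h
  beta_reduce at h1
  rw [Nat.factorization_mul (Finset.prod_ne_zero_iff.2 hx2) (Finset.prod_ne_zero_iff.2 hy1),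
    Nat.factorization_mul (Finset.prod_ne_zero_iff.2 hy2) (Finset.prod_ne_zero_iff.2 hx1),
    Nat.factorization_prod hx2, Nat.factorization_prod hy1, Nat.factorization_prod hy2,
    Nat.factorization_prod hx1] at h1
  simp only [Finsupp.add_apply, Finsupp.finset_sum_apply] at h1
  unfold Ex
  rw [Finset.sum_sub_distrib, Finset.sum_sub_distrib]
  have h2 : ((∑ i, (x i).2.factorization p : ℕ) : ℤ) + ((∑ i, (y i).1.factorization p : ℕ) : ℤ) =
      ((∑ i, (y i).2.factorization p : ℕ) : ℤ) + ((∑ i, (x i).1.factorization p : ℕ) : ℤ) := by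
    exact_mod_cast h1
  push_cast at h2
  linarith

lemma Xp_pos {K : ℕ} {R : Finset (ℕ × ℕ)}
    (hR : ∀ r ∈ R, (1 ≤ r.1 ∧ r.1 ≤ K) ∧ (1 ≤ r.2 ∧ r.2 ≤ K))
    {x y : Fin q → ℕ × ℕ} (hx : ∀ i, x i ∈ R) (hy : ∀ i, y i ∈ R) : 1 ≤ Xp x y := by
  unfold Xp
  apply Nat.one_le_iff_ne_zero.2
  apply mul_ne_zero
  · apply Finset.prod_ne_zero_iff.2
    intro i _; have := (hR _ (hx i)).2.1; omega
  · apply Finset.prod_ne_zero_iff.2
    intro i _; have := (hR _ (hy i)).1.1; omega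

lemma Xp_le {K : ℕ} {R : Finset (ℕ × ℕ)}
    (hR : ∀ r ∈ R, (1 ≤ r.1 ∧ r.1 ≤ K) ∧ (1 ≤ r.2 ∧ r.2 ≤ K))
    {x y : Fin q → ℕ × ℕ} (hx : ∀ i, x i ∈ R) (hy : ∀ i, y i ∈ R) : Xp x y ≤ K ^ (2 * q) := by
  unfold Xp
  have h1 : ∏ i, (x i).2 ≤ K ^ q := by
    refine (Finset.prod_le_prod' (fun i _ => (hR _ (hx i)).2.2)).trans ?_
    simp
  have h2 : ∏ i, (y i).1 ≤ K ^ q := by
    refine (Finset.prod_le_prod' (fun i _ => (hR _ (hy i)).1.2)).trans ?_
    simp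
  calc (∏ i, (x i).2) * ∏ i, (y i).1 ≤ K ^ q * K ^ q := Nat.mul_le_mul h1 h2
    _ = K ^ (2 * q) := by rw [← pow_add]; congr 1; ring

/-- phase -/
noncomputable def ph (r : ℕ × ℕ) : ℝ := Real.log r.2 - Real.log r.1

lemma ph_sum {K : ℕ} {R : Finset (ℕ × ℕ)}
    (hR : ∀ r ∈ R, (1 ≤ r.1 ∧ r.1 ≤ K) ∧ (1 ≤ r.2 ∧ r.2 ≤ K))
    {x y : Fin q → ℕ × ℕ} (hx : ∀ i, x i ∈ R) (hy : ∀ i, y i ∈ R) :
    ∑ i, ph (x i) - ∑ i, ph (y i) = Real.log (Xp x y) - Real.log (Xp y x) := by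
  have hne : ∀ r ∈ R, ((r.1 : ℕ) : ℝ) ≠ 0 ∧ ((r.2 : ℕ) : ℝ) ≠ 0 := by
    intro r hr
    have := hR r hr
    constructor
    · have : r.1 ≠ 0 := by omega
      exact_mod_cast this
    · have : r.2 ≠ 0 := by omega
      exact_mod_cast this
  have e : ∀ {x y : Fin q → ℕ × ℕ} (hx : ∀ i, x i ∈ R) (hy : ∀ i, y i ∈ R),
      Real.log (Xp x y) = ∑ i, Real.log (x i).2 + ∑ i, Real.log (y i).1 := by
    intro x y hx hy
    unfold Xp
    push_cast
    rw [Real.log_mul (Finset.prod_ne_zero_iff.2 (fun i _ => (hne _ (hx i)).2))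
      (Finset.prod_ne_zero_iff.2 (fun i _ => (hne _ (hy i)).1)),
      Real.log_prod (fun i _ => (hne _ (hx i)).2),
      Real.log_prod (fun i _ => (hne _ (hy i)).1)]
  rw [e hx hy, e hy hx]
  unfold ph
  rw [Finset.sum_sub_distrib, Finset.sum_sub_distrib]
  ring

end

/-- the generalised Dirichlet polynomial -/
noncomputable def Osum (R : Finset (ℕ × ℕ)) (c : ℕ × ℕ → ℂ) (u : ℝ) : ℂ :=
  ∑ r ∈ R, c r * Complex.exp (((u * ph r : ℝ) : ℂ) * Complex.I)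

lemma Osum_pow (R : Finset (ℕ × ℕ)) (c : ℕ × ℕ → ℂ) (u : ℝ) (q : ℕ) :
    ((‖Osum R c u‖ ^ (2 * q) : ℝ) : ℂ) =
      ∑ x ∈ Fintype.piFinset (fun _ : Fin q => R), ∑ y ∈ Fintype.piFinset (fun _ : Fin q => R),
        ((∏ i, c (x i)) * (∏ i, (starRingEnd ℂ) (c (y i)))) *
          Complex.exp (((u * (∑ i, ph (x i) - ∑ i, ph (y i)) : ℝ) : ℂ) * Complex.I) := by
  have e1 : ((‖Osum R c u‖ ^ (2 * q) : ℝ) : ℂ) =
      (Osum R c u) ^ q * ((starRingEnd ℂ) (Osum R c u)) ^ q := by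
    rw [pow_mul, Complex.ofReal_pow, ← Complex.normSq_eq_norm_sq, Complex.normSq_eq_conj_mul_self,
      mul_pow, mul_comm]
  have e2 : (Osum R c u) ^ q =
      ∑ x ∈ Fintype.piFinset (fun _ : Fin q => R), ∏ i, (c (x i) * Complex.exp (((u * ph (x i) : ℝ) : ℂ) * Complex.I)) := by
    have := Finset.prod_univ_sum (fun _ : Fin q => R)
      (fun _ r => c r * Complex.exp (((u * ph r : ℝ) : ℂ) * Complex.I))
    rw [Finset.prod_const, Finset.card_univ, Fintype.card_fin] at this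
    exact this
  have e3 : ((starRingEnd ℂ) (Osum R c u)) ^ q =
      ∑ y ∈ Fintype.piFinset (fun _ : Fin q => R), ∏ i, ((starRingEnd ℂ) (c (y i)) *
        Complex.exp (((-(u * ph (y i)) : ℝ) : ℂ) * Complex.I)) := by
    have h5 := Finset.prod_univ_sum (fun _ : Fin q => R)
      (fun _ r => (starRingEnd ℂ) (c r) * Complex.exp (((-(u * ph r) : ℝ) : ℂ) * Complex.I))
    rw [Finset.prod_const, Finset.card_univ, Fintype.card_fin] at h5
    rw [← h5]
    congr 1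
    unfold Osum
    rw [map_sum]
    refine Finset.sum_congr rfl (fun r _ => ?_)
    rw [map_mul, ← Complex.exp_conj]
    congr 2
    rw [map_mul, Complex.conj_ofReal, Complex.conj_I]
    push_cast; ring
  rw [e1, e2, e3, Finset.sum_mul_sum]
  refine Finset.sum_congr rfl (fun x _ => Finset.sum_congr rfl (fun y _ => ?_))
  rw [Finset.prod_mul_distrib, Finset.prod_mul_distrib, ← Complex.exp_sum, ← Complex.exp_sum]
  have e4 : Complex.exp (((u * (∑ i, ph (x i) - ∑ i, ph (y i)) : ℝ) : ℂ) * Complex.I) =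
      Complex.exp (∑ i, ((u * ph (x i) : ℝ) : ℂ) * Complex.I) *
        Complex.exp (∑ i, ((-(u * ph (y i)) : ℝ) : ℂ) * Complex.I) := by
    rw [← Complex.exp_add]
    congr 1
    rw [← Finset.sum_mul, ← Finset.sum_mul]
    push_cast
    rw [Finset.sum_neg_distrib, ← Finset.mul_sum, ← Finset.mul_sum]
    ring
  rw [e4]; ring

lemma Ex_bound {K : ℕ} {R : Finset (ℕ × ℕ)}
    (hR : ∀ r ∈ R, (1 ≤ r.1 ∧ r.1 ≤ K) ∧ (1 ≤ r.2 ∧ r.2 ≤ K)) :
    ∀ r ∈ R, ∀ p, |Ex r p| ≤ (K : ℤ) := by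
  intro r hr p
  have h := hR r hr
  have h1 : r.1.factorization p < r.1 := Nat.factorization_lt p (by omega)
  have h2 : r.2.factorization p < r.2 := Nat.factorization_lt p (by omega)
  unfold Ex
  rw [abs_le]
  constructor <;> omega

lemma Ex_inj {K : ℕ} {R : Finset (ℕ × ℕ)}
    (hR : ∀ r ∈ R, (1 ≤ r.1 ∧ r.1 ≤ K) ∧ (1 ≤ r.2 ∧ r.2 ≤ K))
    (hcop : ∀ r ∈ R, Nat.Coprime r.1 r.2) :
    ∀ r ∈ R, ∀ r' ∈ R, (∀ p ∈ pl K, Ex r p = Ex r' p) → r = r' := by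
  have key : ∀ r ∈ R, ∀ p, r.1.factorization p = 0 ∨ r.2.factorization p = 0 := by
    intro r hr p
    by_contra hcon
    push Not at hcon
    have h1 : p ∣ r.1 := Nat.dvd_of_factorization_pos hcon.1
    have h2 : p ∣ r.2 := Nat.dvd_of_factorization_pos hcon.2
    have hp : p.Prime := by
      by_contra hp
      exact hcon.1 (Nat.factorization_eq_zero_of_not_prime _ hp)
    have := Nat.dvd_gcd h1 h2
    rw [hcop r hr] at this
    exact hp.one_lt.ne' (Nat.dvd_one.1 this)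
  intro r hr r' hr' h
  have hb := hR r hr
  have hb' := hR r' hr'
  have hfact : ∀ p, r.1.factorization p = r'.1.factorization p ∧
      r.2.factorization p = r'.2.factorization p := by
    intro p
    by_cases hp : p ∈ pl K
    · have h1 := h p hp
      unfold Ex at h1
      rcases key r hr p with h2 | h2 <;> rcases key r' hr' p with h3 | h3 <;> omega
    · have hz : ∀ n, 1 ≤ n → n ≤ K → n.factorization p = 0 := by
        intro n hn hnK
        by_contra hcon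
        have h1 : p ∣ n := Nat.dvd_of_factorization_pos hcon
        have hpp : p.Prime := by
          by_contra hp'
          exact hcon (Nat.factorization_eq_zero_of_not_prime _ hp')
        exact hp (mem_pl.2 ⟨(Nat.le_of_dvd hn h1).trans hnK, hpp⟩)
      rw [hz _ hb.1.1 hb.1.2, hz _ hb.2.1 hb.2.2, hz _ hb'.1.1 hb'.1.2, hz _ hb'.2.1 hb'.2.2]
      exact ⟨rfl, rfl⟩
  have h1 : r.1 = r'.1 := Nat.eq_of_factorization_eq (by omega) (by omega) (fun p => (hfact p).1)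
  have h2 : r.2 = r'.2 := Nat.eq_of_factorization_eq (by omega) (by omega) (fun p => (hfact p).2)
  exact Prod.ext h1 h2

theorem mean_pow_le {K q : ℕ} {R : Finset (ℕ × ℕ)}
    (hR : ∀ r ∈ R, (1 ≤ r.1 ∧ r.1 ≤ K) ∧ (1 ≤ r.2 ∧ r.2 ≤ K))
    (hcop : ∀ r ∈ R, Nat.Coprime r.1 r.2) (c : ℕ × ℕ → ℂ) {U : ℝ} (hU : 0 ≤ U) :
    ∫ u in U..(2 * U), ‖Osum R c u‖ ^ (2 * q) ≤
      U * (∑ r ∈ R, ‖c r‖ ^ 2 * Wt q (pl K) (Ex r)) ^ q +
        (∑ r ∈ R, ‖c r‖) ^ (2 * q) * (2 * (K : ℝ) ^ (2 * q)) := by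
  classical
  set Om := Fintype.piFinset (fun _ : Fin q => R) with hOm
  have hcont : Continuous (fun u => Osum R c u) := by
    unfold Osum
    fun_prop
  have hI : ((∫ u in U..(2 * U), ‖Osum R c u‖ ^ (2 * q) : ℝ) : ℂ) =
      ∑ x ∈ Om, ∑ y ∈ Om, ((∏ i, c (x i)) * (∏ i, (starRingEnd ℂ) (c (y i)))) *
        ∫ u in U..(2 * U), Complex.exp (((u * (∑ i, ph (x i) - ∑ i, ph (y i)) : ℝ) : ℂ) * Complex.I) := by
    rw [← intervalIntegral.integral_ofReal]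
    have : ∀ u, ((‖Osum R c u‖ ^ (2 * q) : ℝ) : ℂ) = _ := fun u => Osum_pow R c u q
    simp_rw [this]
    rw [intervalIntegral.integral_finset_sum]
    · refine Finset.sum_congr rfl (fun x _ => ?_)
      rw [intervalIntegral.integral_finset_sum]
      · refine Finset.sum_congr rfl (fun y _ => ?_)
        rw [intervalIntegral.integral_const_mul]
      · intro y _
        apply Continuous.intervalIntegrable
        fun_prop
    · intro x _
      apply Continuous.intervalIntegrable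
      fun_prop
  have hnn : 0 ≤ ∫ u in U..(2 * U), ‖Osum R c u‖ ^ (2 * q) := by
    apply intervalIntegral.integral_nonneg (by linarith)
    intro u _; positivity
  have h1 : ∫ u in U..(2 * U), ‖Osum R c u‖ ^ (2 * q) =
      ‖((∫ u in U..(2 * U), ‖Osum R c u‖ ^ (2 * q) : ℝ) : ℂ)‖ := by
    rw [Complex.norm_real, Real.norm_of_nonneg hnn]
  rw [h1, hI]
  have hterm : ∀ x ∈ Om, ∀ y ∈ Om, ‖((∏ i, c (x i)) * (∏ i, (starRingEnd ℂ) (c (y i)))) *
        ∫ u in U..(2 * U), Complex.exp (((u * (∑ i, ph (x i) - ∑ i, ph (y i)) : ℝ) : ℂ) * Complex.I)‖ ≤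
      U * ((∏ i, ‖c (x i)‖) * (∏ i, ‖c (y i)‖) *
        (if ∀ p ∈ pl K, ∑ i, Ex (x i) p = ∑ i, Ex (y i) p then 1 else 0)) +
      ((∏ i, ‖c (x i)‖) * (∏ i, ‖c (y i)‖)) * (2 * (K : ℝ) ^ (2 * q)) := by
    intro x hx y hy
    have hx' := Fintype.mem_piFinset.1 hx
    have hy' := Fintype.mem_piFinset.1 hy
    rw [norm_mul, norm_mul, norm_prod, norm_prod]
    simp only [RCLike.norm_conj]
    set Q := (∏ i, ‖c (x i)‖) * (∏ i, ‖c (y i)‖) with hQ
    have hQ0 : 0 ≤ Q := by positivity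
    have hp := ph_sum hR hx' hy'
    by_cases hXY : Xp x y = Xp y x
    · have hEq : ∀ p ∈ pl K, ∑ i, Ex (x i) p = ∑ i, Ex (y i) p :=
        fun p _ => Ex_sum_of_eq hR hx' hy' hXY p
      rw [if_pos hEq]
      have h2 : ‖∫ u in U..(2 * U), Complex.exp (((u * (∑ i, ph (x i) - ∑ i, ph (y i)) : ℝ) : ℂ) * Complex.I)‖ ≤ U := by
        have := intervalIntegral.norm_integral_le_of_norm_le_const (a := U) (b := 2 * U) (C := 1)
          (f := fun u : ℝ => Complex.exp (((u * (∑ i, ph (x i) - ∑ i, ph (y i)) : ℝ) : ℂ) * Complex.I))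
          (fun u _ => by rw [Complex.norm_exp_ofReal_mul_I])
        rw [one_mul, abs_of_nonneg (by linarith)] at this
        linarith
      have h3 : 0 ≤ Q * (2 * (K : ℝ) ^ (2 * q)) := by positivity
      nlinarith [mul_le_mul_of_nonneg_left h2 hQ0]
    · have hθ := log_sub_log_lower (Xp_pos hR hx' hy') (Xp_pos hR hy' hx') (Xp_le hR hx' hy')
        (Xp_le hR hy' hx') hXY
      rw [← hp] at hθ
      have hXpos := Xp_pos hR hx' hy'
      have hXle := Xp_le hR hx' hy'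
      have hKpos : (0:ℝ) < ((K ^ (2 * q) : ℕ) : ℝ) := by exact_mod_cast lt_of_lt_of_le hXpos hXle
      have hθ0 : 0 < |∑ i, ph (x i) - ∑ i, ph (y i)| := lt_of_lt_of_le (by positivity) hθ
      have h2 := norm_integral_exp_le (abs_pos.1 hθ0) U (2 * U)
      have h3 : 2 / |∑ i, ph (x i) - ∑ i, ph (y i)| ≤ 2 * (K : ℝ) ^ (2 * q) := by
        rw [div_le_iff₀ hθ0]
        rw [div_le_iff₀ hKpos] at hθ
        push_cast at hθ
        nlinarith
      have h4 : 0 ≤ U * (Q * (if ∀ p ∈ pl K, ∑ i, Ex (x i) p = ∑ i, Ex (y i) p then 1 else 0)) := by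
        split_ifs <;> positivity
      have h5 := mul_le_mul_of_nonneg_left (h2.trans h3) hQ0
      linarith
  have h2 : ‖∑ x ∈ Om, ∑ y ∈ Om, ((∏ i, c (x i)) * (∏ i, (starRingEnd ℂ) (c (y i)))) *
        ∫ u in U..(2 * U), Complex.exp (((u * (∑ i, ph (x i) - ∑ i, ph (y i)) : ℝ) : ℂ) * Complex.I)‖ ≤
      ∑ x ∈ Om, ∑ y ∈ Om, (U * ((∏ i, ‖c (x i)‖) * (∏ i, ‖c (y i)‖) *
        (if ∀ p ∈ pl K, ∑ i, Ex (x i) p = ∑ i, Ex (y i) p then 1 else 0)) +
      ((∏ i, ‖c (x i)‖) * (∏ i, ‖c (y i)‖)) * (2 * (K : ℝ) ^ (2 * q))) := by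
    refine (norm_sum_le _ _).trans (Finset.sum_le_sum (fun x hx => ?_))
    refine (norm_sum_le _ _).trans (Finset.sum_le_sum (fun y hy => ?_))
    exact hterm x hx y hy
  refine h2.trans ?_
  simp only [Finset.sum_add_distrib]
  have hcount := avL_count (M := 2 * q * K + K + 1) (Lb := K) (q := q) (by omega) (pl K) (pl_nodup K) Ex R
    (Ex_bound hR) (fun r => ‖c r‖) (fun _ => 1)
  have hhyp := hyperT (M := 2 * q * K + K + 1) (Lb := K) (j := q) (by omega) (pl K) (pl_nodup K) Ex R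
    (Ex_bound hR) (Ex_inj hR hcop) (fun r => (‖c r‖ : ℂ)) (fun _ => 1)
  rw [hcount] at hhyp
  simp only [Complex.norm_real, norm_norm] at hhyp
  have e1 : ∑ x ∈ Om, ∑ y ∈ Om, U * ((∏ i, ‖c (x i)‖) * (∏ i, ‖c (y i)‖) *
        (if ∀ p ∈ pl K, ∑ i, Ex (x i) p = ∑ i, Ex (y i) p then 1 else 0)) =
      U * ∑ x ∈ Om, ∑ y ∈ Om, (∏ i, ‖c (x i)‖) * (∏ i, ‖c (y i)‖) *
        (if ∀ p ∈ pl K, ∑ i, Ex (x i) p = ∑ i, Ex (y i) p then 1 else 0) := by
    rw [Finset.mul_sum]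
    refine Finset.sum_congr rfl (fun x _ => ?_)
    rw [Finset.mul_sum]
  have e2 : ∑ x ∈ Om, ∑ y ∈ Om, ((∏ i, ‖c (x i)‖) * (∏ i, ‖c (y i)‖)) * (2 * (K : ℝ) ^ (2 * q)) =
      (∑ r ∈ R, ‖c r‖) ^ (2 * q) * (2 * (K : ℝ) ^ (2 * q)) := by
    generalize (2 * (K : ℝ) ^ (2 * q)) = Z
    have e3 : ∑ x ∈ Om, ∏ i, ‖c (x i)‖ = (∑ r ∈ R, ‖c r‖) ^ q := by
      have := Finset.prod_univ_sum (fun _ : Fin q => R) (fun _ r => ‖c r‖)
      rw [Finset.prod_const, Finset.card_univ, Fintype.card_fin] at this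
      exact this.symm
    rw [two_mul q, pow_add, ← e3, Finset.sum_mul_sum, Finset.sum_mul]
    refine Finset.sum_congr rfl (fun x _ => ?_)
    rw [Finset.sum_mul]
  rw [e1, e2]
  have := mul_le_mul_of_nonneg_left hhyp hU
  linarith

end Pool.Agent.P07318d
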