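import Pool.Agent.Lib.P07318d.MeanSq

/-!
# `ζ(s) - Σ_{n ≤ N} n^{-s}` is small in almost all windows
-/

set_option autoImplicit false

namespace Pool.Agent.P07318d

open Finset MeasureTheory

lemma markov {a b μ : ℝ} (hab : a ≤ b) (hμ : 0 < μ) {g : ℝ → ℝ} (hg : Continuous g) (h0 : ∀ u, 0 ≤ g u) :
    volume {u ∈ Set.Icc a b | μ < g u} ≤ ENNReal.ofReal ((∫ u in a..b, g u) / μ) := by
  have hint : Integrable g (volume.restrict (Set.Icc a b)) := hg.continuousOn.integrableOn_Icc
  have h1 := mul_meas_ge_le_integral_of_nonneg (μ := volume.restrict (Set.Icc a b)) (f := g)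
    (Filter.Eventually.of_forall h0) hint μ
  have h2 : ∫ u, g u ∂(volume.restrict (Set.Icc a b)) = ∫ u in a..b, g u := by
    rw [intervalIntegral.integral_of_le hab, integral_Icc_eq_integral_Ioc]
  rw [h2] at h1
  have h3 : (volume.restrict (Set.Icc a b)).real {x | μ ≤ g x} ≤ (∫ u in a..b, g u) / μ := by
    rw [le_div_iff₀ hμ]; linarith
  have hm : MeasurableSet {x | μ ≤ g x} := measurableSet_le measurable_const hg.measurable
  have h4 : volume {u ∈ Set.Icc a b | μ < g u} ≤ (volume.restrict (Set.Icc a b)) {x | μ ≤ g x} := by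
    rw [Measure.restrict_apply hm]
    apply measure_mono
    rintro u ⟨hu, hu2⟩
    exact ⟨hu2.le, hu⟩
  refine h4.trans ?_
  have hfin : (volume.restrict (Set.Icc a b)) {x | μ ≤ g x} ≠ ⊤ := by
    apply measure_ne_top
  rw [← ENNReal.ofReal_toReal hfin]
  exact ENNReal.ofReal_le_ofReal h3

lemma gamma_le {g : ℝ → ℝ} (hg : Continuous g) (h0 : ∀ u, 0 ≤ g u) {U H : ℝ} (hU : 0 ≤ U) (hH : 0 ≤ H) :
    ∫ u in U..(2 * U), (∫ t in u..(u + H), g t) ≤ H * ∫ t in U..(2 * U + H), g t := by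
  set G : ℝ → ℝ := fun u => ∫ t in (0:ℝ)..u, g t with hG
  have hGc : Continuous G := intervalIntegral.continuous_primitive (fun a b => hg.intervalIntegrable a b) 0
  have hii : ∀ a b : ℝ, IntervalIntegrable g volume a b := fun a b => hg.intervalIntegrable a b
  have hGi : ∀ a b : ℝ, IntervalIntegrable G volume a b := fun a b => hGc.intervalIntegrable a b
  have hdiff : ∀ a b : ℝ, ∫ t in a..b, g t = G b - G a := by
    intro a b
    rw [hG]
    simp only
    rw [intervalIntegral.integral_interval_sub_left (hii _ _) (hii _ _)]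
  have hmono : Monotone G := by
    intro a b hab
    have h1 : 0 ≤ ∫ t in a..b, g t := intervalIntegral.integral_nonneg hab (fun u _ => h0 u)
    rw [hdiff] at h1
    linarith
  have h1 : ∫ u in U..(2 * U), (∫ t in u..(u + H), g t) = (∫ u in (U + H)..(2 * U + H), G u) - ∫ u in U..(2 * U), G u := by
    simp_rw [hdiff]
    rw [intervalIntegral.integral_sub]
    · congr 1
      exact intervalIntegral.integral_comp_add_right (fun u => G u) H
    · exact (hGc.comp (continuous_add_const H)).intervalIntegrable _ _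
    · exact hGi _ _
  have h2 : (∫ u in (U + H)..(2 * U + H), G u) - ∫ u in U..(2 * U), G u =
      (∫ u in (2 * U)..(2 * U + H), G u) - ∫ u in U..(U + H), G u := by
    have e1 := intervalIntegral.integral_add_adjacent_intervals (hGi U (2 * U)) (hGi (2 * U) (2 * U + H))
    have e2 := intervalIntegral.integral_add_adjacent_intervals (hGi U (U + H)) (hGi (U + H) (2 * U + H))
    linarith
  have h3 : ∫ u in (2 * U)..(2 * U + H), G u ≤ H * G (2 * U + H) := by
    have : ∫ u in (2 * U)..(2 * U + H), G u ≤ ∫ u in (2 * U)..(2 * U + H), G (2 * U + H) := by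
      apply intervalIntegral.integral_mono_on (by linarith) (hGi _ _) (by simp)
      intro u hu
      exact hmono hu.2
    rw [intervalIntegral.integral_const] at this
    simpa using this
  have h4 : H * G U ≤ ∫ u in U..(U + H), G u := by
    have : ∫ u in U..(U + H), G U ≤ ∫ u in U..(U + H), G u := by
      apply intervalIntegral.integral_mono_on (by linarith) (by simp) (hGi _ _)
      intro u hu
      exact hmono hu.1
    rw [intervalIntegral.integral_const] at this
    simpa using this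
  rw [h1, h2, hdiff]
  nlinarith

/-- one-dimensional Sobolev inequality -/
lemma sobolev {f f' : ℝ → ℂ} (hf : ∀ t, HasDerivAt f (f' t) t) (hc : Continuous f') (t0 : ℝ) :
    ‖f t0‖ ^ 2 ≤ ∫ t in t0..(t0 + 1), (2 * ‖f t‖ ^ 2 + ‖f' t‖ ^ 2) := by
  have hfc : Continuous f := continuous_iff_continuousAt.2 (fun t => (hf t).continuousAt)
  set C := ∫ t in t0..(t0 + 1), (‖f t‖ ^ 2 + ‖f' t‖ ^ 2) with hC
  have hcont : Continuous (fun t => ‖f t‖ ^ 2 + ‖f' t‖ ^ 2) := by fun_prop
  have hpt : ∀ t ∈ Set.Icc t0 (t0 + 1), ‖f t0‖ ^ 2 ≤ ‖f t‖ ^ 2 + C := by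
    intro t ht
    have hd : ∀ y ∈ Set.uIcc t0 t, HasDerivAt (fun y => ‖f y‖ ^ 2) (2 * inner ℝ (f y) (f' y)) y := by
      intro y _
      exact (hf y).norm_sq
    have hdc : Continuous (fun y => 2 * inner ℝ (f y) (f' y)) := by fun_prop
    have h1 := intervalIntegral.integral_eq_sub_of_hasDerivAt hd (hdc.intervalIntegrable _ _)
    have h2 : ‖∫ y in t0..t, 2 * inner ℝ (f y) (f' y)‖ ≤ ∫ y in t0..t, (‖f y‖ ^ 2 + ‖f' y‖ ^ 2) :=
      intervalIntegral.norm_integral_le_of_norm_le ht.1 (Filter.Eventually.of_forall (fun y _ => by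
          rw [Real.norm_eq_abs, abs_mul, abs_of_pos (show (0:ℝ) < 2 by norm_num)]
          have h3 := abs_real_inner_le_norm (f y) (f' y)
          nlinarith [sq_nonneg (‖f y‖ - ‖f' y‖)])) (hcont.intervalIntegrable _ _)
    rw [Real.norm_eq_abs] at h2
    have h3 : ∫ y in t0..t, (‖f y‖ ^ 2 + ‖f' y‖ ^ 2) ≤ C := by
      rw [hC]
      apply intervalIntegral.integral_mono_interval le_rfl ht.1 ht.2
      · exact Filter.Eventually.of_forall (fun y => by positivity)
      · exact hcont.intervalIntegrable _ _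
    have h4 := neg_le_abs (∫ y in t0..t, 2 * inner ℝ (f y) (f' y))
    linarith
  have h1 : ∫ t in t0..(t0 + 1), ‖f t0‖ ^ 2 ≤ ∫ t in t0..(t0 + 1), (‖f t‖ ^ 2 + C) := by
    apply intervalIntegral.integral_mono_on (by linarith) (by simp)
    · apply Continuous.intervalIntegrable; fun_prop
    · exact hpt
  rw [intervalIntegral.integral_const] at h1
  have h2 : ∫ t in t0..(t0 + 1), (‖f t‖ ^ 2 + C) = (∫ t in t0..(t0 + 1), ‖f t‖ ^ 2) + C := by
    rw [intervalIntegral.integral_add (Continuous.intervalIntegrable (by fun_prop) _ _)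
      (Continuous.intervalIntegrable (by fun_prop) _ _), intervalIntegral.integral_const]
    simp
  have h3 : ∫ t in t0..(t0 + 1), (2 * ‖f t‖ ^ 2 + ‖f' t‖ ^ 2) = (∫ t in t0..(t0 + 1), ‖f t‖ ^ 2) + C := by
    rw [hC, ← intervalIntegral.integral_add (Continuous.intervalIntegrable (by fun_prop) _ _)
      (Continuous.intervalIntegrable (by fun_prop) _ _)]
    congr 1
    funext t; ring
  rw [h3, ← h2]
  simpa using h1

lemma en_hasDeriv (σ : ℝ) (n : ℕ) (t : ℝ) :
    HasDerivAt (fun t => en σ t n) (-Complex.I * ((Real.log n : ℝ) * en σ t n)) t := by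
  unfold en
  have h1 : HasDerivAt (fun t : ℝ => (((-(t * Real.log n) : ℝ) : ℂ) * Complex.I)) (-(Real.log n : ℂ) * Complex.I) t := by
    have h2 : HasDerivAt (fun t : ℝ => ((-(t * Real.log n) : ℝ))) (-(Real.log n)) t := by
      have := ((hasDerivAt_id t).mul_const (Real.log n)).fun_neg
      simpa using this
    have h3 := h2.ofReal_comp.mul_const Complex.I
    simpa using h3
  have h4 := (h1.cexp).const_mul ((((n : ℝ) ^ (-σ) : ℝ)) : ℂ)
  refine h4.congr_deriv ?_
  ring

lemma poly_hasDeriv (m : ℕ) (b : ℕ → ℝ) (σ t : ℝ) :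
    HasDerivAt (fun t => ∑ n ∈ Finset.Icc 1 m, (b n : ℂ) * en σ t n)
      (-Complex.I * ∑ n ∈ Finset.Icc 1 m, ((b n * Real.log n : ℝ) : ℂ) * en σ t n) t := by
  have h := HasDerivAt.fun_sum (u := Finset.Icc 1 m) (A := fun n t => (b n : ℂ) * en σ t n)
    (A' := fun n => (b n : ℂ) * (-Complex.I * ((Real.log n : ℝ) * en σ t n))) (x := t)
    (fun n _ => (en_hasDeriv σ n t).const_mul _)
  refine h.congr_deriv ?_
  rw [Finset.mul_sum]
  refine Finset.sum_congr rfl (fun n _ => ?_)
  push_cast; ring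

theorem zeta_side {U T : ℝ} (hU : 8 ≤ U) (hT : 0 ≤ T) (hTU : T + 1 ≤ U) {N : ℕ} (hN : 1 ≤ N)
    (hNU : (N : ℝ) ≤ U) {σ : ℝ} (hσ : 1 / 2 ≤ σ) (hσ2 : σ ≤ 7 / 8) {lam : ℝ}
    (hlam : 12 * U ^ (-(1 / 2) : ℝ) ≤ lam) :
    volume {u ∈ Set.Icc U (2 * U) | ∃ t ∈ Set.Icc u (u + T), lam < ‖Fz N σ t‖} ≤
      ENNReal.ofReal ((T + 1) * (26000000 * U * (Real.log U) ^ 4 * (N : ℝ) ^ (-(2 * σ - 1))) / lam ^ 2) := by
  have hU0 : 0 < U := by linarith
  have hlam0 : 0 < lam := lt_of_lt_of_le (by positivity) hlam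
  set b : ℝ := 3 * U with hb
  obtain ⟨n, hn1, hn2⟩ := exists_nat_pow_near (show (1:ℝ) ≤ 4 * b by linarith) (show (1:ℝ) < 2 by norm_num)
  set K := n + 1 with hK
  set m : ℕ := 2 ^ K with hm
  have hmr : (m : ℝ) = 2 ^ K := by rw [hm]; push_cast; rfl
  have hm8 : (m : ℝ) ≤ 8 * b := by
    rw [hmr, hK, pow_succ]; linarith
  have hm4 : 4 * b < (m : ℝ) := by rw [hmr]; exact hn2
  have hm0 : (0:ℝ) < m := by linarith
  have hK2 : 2 ≤ K := by
    by_contra hcon
    have : K ≤ 1 := by omega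
    have h1 : (2:ℝ) ^ K ≤ 2 ^ 1 := pow_le_pow_right₀ (by norm_num) this
    rw [← hmr] at h1
    linarith
  have h2N : 2 * N ≤ m := by
    have : (2:ℝ) * N ≤ m := by linarith
    exact_mod_cast this
  set f : ℝ → ℂ := fun t => ∑ n ∈ Finset.Icc 1 m, (bco N n : ℂ) * en σ t n with hf
  set f' : ℝ → ℂ := fun t => -Complex.I * ∑ n ∈ Finset.Icc 1 m, ((bco N n * Real.log n : ℝ) : ℂ) * en σ t n with hf'
  have hder : ∀ t, HasDerivAt f (f' t) t := fun t => poly_hasDeriv m (bco N) σ t
  have hfc : Continuous f := by rw [hf]; unfold en; fun_prop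
  have hfc' : Continuous f' := by rw [hf']; unfold en; fun_prop
  set g : ℝ → ℝ := fun t => 2 * ‖f t‖ ^ 2 + ‖f' t‖ ^ 2 with hg
  have hgc : Continuous g := by rw [hg]; fun_prop
  have hg0 : ∀ t, 0 ≤ g t := fun t => by rw [hg]; positivity
  -- pointwise
  have hsub : {u ∈ Set.Icc U (2 * U) | ∃ t ∈ Set.Icc u (u + T), lam < ‖Fz N σ t‖} ⊆
      {u ∈ Set.Icc U (2 * U) | lam ^ 2 / 1000 < ∫ t in u..(u + (T + 1)), g t} := by
    rintro u ⟨hu, t, ht, htl⟩
    refine ⟨hu, ?_⟩
    have htpos : 0 < t := by linarith [hu.1, ht.1]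
    have htb : t ≤ b := by linarith [hu.2, ht.2]
    have hp := Fz_pointwise hK2 h2N (x := σ) (t := t) hσ hσ2 htpos (by rw [← hmr]; linarith)
    have hml : 4 * (m : ℝ) ^ (-(2 * σ)) ≤ lam ^ 2 / 432 := by
      have h1 : (m : ℝ) ^ (-(2 * σ)) ≤ (m : ℝ) ^ (-1 : ℝ) :=
        Real.rpow_le_rpow_of_exponent_le (by linarith) (by linarith)
      have h2 : (m : ℝ) ^ (-1 : ℝ) ≤ (12 * U) ^ (-1 : ℝ) := by
        apply Real.rpow_le_rpow_of_nonpos (by positivity) (by linarith) (by norm_num)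
      have h3 : (12 * U ^ (-(1 / 2) : ℝ)) ^ 2 ≤ lam ^ 2 := pow_le_pow_left₀ (by positivity) hlam 2
      have h4 : (U ^ (-(1 / 2) : ℝ)) ^ 2 = U ^ (-1 : ℝ) := by
        rw [← Real.rpow_natCast, ← Real.rpow_mul hU0.le]; norm_num
      rw [mul_pow, h4] at h3
      rw [Real.mul_rpow (by norm_num) hU0.le] at h2
      have h5 : (12:ℝ) ^ (-1 : ℝ) = 1 / 12 := by rw [Real.rpow_neg_one]; norm_num
      rw [h5] at h2
      linarith
    have h1 : lam ^ 2 < ‖Fz N σ t‖ ^ 2 := by
      apply pow_lt_pow_left₀ htl hlam0.le (by norm_num)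
    have h2 : lam ^ 2 / 1000 < ‖f t‖ ^ 2 := by
      have hp' : ‖Fz N σ t‖ ^ 2 ≤ 247 * (‖f t‖ ^ 2 + 4 * (m : ℝ) ^ (-(2 * σ))) := hp
      nlinarith
    have h3 := sobolev hder hfc' t
    have h4 : ∫ y in t..(t + 1), g y ≤ ∫ y in u..(u + (T + 1)), g y := by
      apply intervalIntegral.integral_mono_interval ht.1 (by linarith) (by linarith [ht.2])
      · exact Filter.Eventually.of_forall (fun y => hg0 y)
      · exact hgc.intervalIntegrable _ _
    exact lt_of_lt_of_le h2 (h3.trans h4)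
  have hGc : Continuous (fun u => ∫ t in u..(u + (T + 1)), g t) := by
    have : (fun u => ∫ t in u..(u + (T + 1)), g t) = fun u => (∫ t in (0:ℝ)..(u + (T + 1)), g t) - ∫ t in (0:ℝ)..u, g t := by
      funext u
      rw [intervalIntegral.integral_interval_sub_left (hgc.intervalIntegrable _ _) (hgc.intervalIntegrable _ _)]
    rw [this]
    have hGc := intervalIntegral.continuous_primitive (μ := volume) (fun a b => hgc.intervalIntegrable a b) (0:ℝ)
    exact (hGc.comp (continuous_add_const (T + 1))).sub hGc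
  have hlam2 : 0 < lam ^ 2 / 1000 := by positivity
  have hM := markov (a := U) (b := 2 * U) (by linarith) hlam2 hGc
    (fun u => intervalIntegral.integral_nonneg (by linarith) (fun t _ => hg0 t))
  refine (measure_mono hsub).trans (hM.trans ?_)
  apply ENNReal.ofReal_le_ofReal
  have hgam := gamma_le hgc hg0 hU0.le (show 0 ≤ T + 1 by linarith)
  -- bound the integral of g
  have hlogU : 2 ≤ Real.log U := by
    rw [Real.le_log_iff_exp_le (by linarith)]
    have := Real.exp_one_lt_d9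
    have h4 : Real.exp 2 = Real.exp 1 * Real.exp 1 := by rw [← Real.exp_add]; norm_num
    have h5 := Real.exp_pos 1
    nlinarith
  set L := Real.log U with hL
  have hlogm : 1 + Real.log m ≤ 4 * L := by
    have h4 : Real.log m ≤ Real.log (24 * U) := Real.log_le_log hm0 (by linarith)
    rw [Real.log_mul (by norm_num) (by linarith)] at h4
    have h5 : Real.log 24 ≤ 3.2 := by
      rw [Real.log_le_iff_le_exp (by norm_num)]
      have h6 : (2.7182818283 : ℝ) < Real.exp 1 := Real.exp_one_gt_d9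
      have h7 : Real.exp 3.2 = Real.exp 1 * Real.exp 1 * Real.exp 1 * Real.exp 0.2 := by
        rw [← Real.exp_add, ← Real.exp_add, ← Real.exp_add]; norm_num
      have h8 : 1 + (0.2:ℝ) ≤ Real.exp 0.2 := by linarith [Real.add_one_le_exp (0.2:ℝ)]
      have h9 : (20 : ℝ) ≤ Real.exp 1 * Real.exp 1 * Real.exp 1 := by
        have : (2.7182818283 : ℝ) * 2.7182818283 * 2.7182818283 ≤ Real.exp 1 * Real.exp 1 * Real.exp 1 := by
          gcongr
        norm_num at this ⊢
        linarith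
      rw [h7]
      nlinarith
    linarith
  have hlogm0 : 0 ≤ Real.log m := Real.log_nonneg (by linarith)
  have hN0 : (0:ℝ) < N := by exact_mod_cast hN
  set Y := (N : ℝ) ^ (-(2 * σ - 1)) with hY
  have hY0 : 0 < Y := by positivity
  set S := ∑ n ∈ Finset.Icc 1 m, (|bco N n| * (n : ℝ) ^ (-σ)) ^ 2 with hS
  have hS0 : 0 ≤ S := Finset.sum_nonneg (fun _ _ => by positivity)
  have hS1 : S ≤ Y * (4 * L) := (bco_sum_le hN hσ).trans (mul_le_mul_of_nonneg_left hlogm hY0.le)
  set c := 2 * U + (T + 1) with hc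
  have hcU : U ≤ c := by linarith
  have hcoef : (c - U) + 4 * m * (1 + Real.log m) ≤ 385 * U * L := by
    have h4 : (m : ℝ) * (1 + Real.log m) ≤ 24 * U * (4 * L) := by
      apply mul_le_mul (by linarith) hlogm (by linarith) (by linarith)
    have h5 : c - U ≤ 2 * U := by linarith
    nlinarith
  have hcoef0 : 0 ≤ (c - U) + 4 * m * (1 + Real.log m) := by
    have : 0 ≤ c - U := by linarith
    positivity
  have hA : ∫ t in U..c, ‖f t‖ ^ 2 ≤ 1540 * U * L ^ 2 * Y := by
    refine (dir_ms m (bco N) σ hcU).trans ?_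
    calc ((c - U) + 4 * m * (1 + Real.log m)) * S ≤ (385 * U * L) * (Y * (4 * L)) := by
          apply mul_le_mul hcoef hS1 hS0 (by positivity)
      _ = _ := by ring
  have hB : ∫ t in U..c, ‖f' t‖ ^ 2 ≤ 24640 * U * L ^ 4 * Y := by
    have e1 : ∀ t, ‖f' t‖ ^ 2 = ‖∑ n ∈ Finset.Icc 1 m, ((bco N n * Real.log n : ℝ) : ℂ) * en σ t n‖ ^ 2 := by
      intro t
      rw [hf']
      simp only
      rw [norm_mul, norm_neg, Complex.norm_I, one_mul]
    simp_rw [e1]
    refine (dir_ms m (fun n => bco N n * Real.log n) σ hcU).trans ?_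
    have hS2 : ∑ n ∈ Finset.Icc 1 m, (|bco N n * Real.log n| * (n : ℝ) ^ (-σ)) ^ 2 ≤ (4 * L) ^ 2 * S := by
      rw [hS, Finset.mul_sum]
      apply Finset.sum_le_sum
      intro n hn
      have hn1 := (Finset.mem_Icc.1 hn).1
      have hn0 : (0:ℝ) < n := by exact_mod_cast hn1
      have hlog0 : 0 ≤ Real.log n := Real.log_nonneg (by exact_mod_cast hn1)
      have hlogn : Real.log n ≤ 4 * L := by
        have : Real.log n ≤ Real.log m := Real.log_le_log hn0 (by exact_mod_cast (Finset.mem_Icc.1 hn).2)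
        linarith
      rw [abs_mul, abs_of_nonneg hlog0]
      have e2 : (|bco N n| * Real.log n * (n : ℝ) ^ (-σ)) ^ 2 = Real.log n ^ 2 * (|bco N n| * (n : ℝ) ^ (-σ)) ^ 2 := by ring
      rw [e2]
      apply mul_le_mul_of_nonneg_right (pow_le_pow_left₀ hlog0 hlogn 2) (by positivity)
    calc ((c - U) + 4 * m * (1 + Real.log m)) * ∑ n ∈ Finset.Icc 1 m, (|bco N n * Real.log n| * (n : ℝ) ^ (-σ)) ^ 2
        ≤ (385 * U * L) * ((4 * L) ^ 2 * (Y * (4 * L))) := by
          apply mul_le_mul hcoef _ (Finset.sum_nonneg (fun _ _ => by positivity)) (by positivity)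
          exact hS2.trans (mul_le_mul_of_nonneg_left hS1 (by positivity))
      _ = _ := by ring
  have hG : ∫ t in U..c, g t ≤ 26000 * U * L ^ 4 * Y := by
    have e1 : ∫ t in U..c, g t = 2 * (∫ t in U..c, ‖f t‖ ^ 2) + ∫ t in U..c, ‖f' t‖ ^ 2 := by
      rw [← intervalIntegral.integral_const_mul, ← intervalIntegral.integral_add
        (Continuous.intervalIntegrable (by fun_prop) _ _) (Continuous.intervalIntegrable (by fun_prop) _ _)]
    rw [e1]
    have h5 : U * L ^ 2 * Y ≤ U * L ^ 4 * Y / 4 := by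
      have h6 : 4 ≤ L ^ 2 := by nlinarith
      have h7 : 0 ≤ U * L ^ 2 * Y := by positivity
      nlinarith [mul_le_mul_of_nonneg_left h6 h7]
    have h8 : 0 ≤ U * L ^ 4 * Y := by positivity
    linarith
  rw [div_div_eq_mul_div]
  apply div_le_div_of_nonneg_right _ (by positivity)
  have h1 := hgam.trans (mul_le_mul_of_nonneg_left hG (show 0 ≤ T + 1 by linarith))
  linarith

end Pool.Agent.P07318d
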