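import Pool.Agent.Lib.P07318d.Good

/-!
# The diagonal term
-/

set_option autoImplicit false

namespace Pool.Agent.P07318d

open Finset MeasureTheory

/-- the full diagonal Dirichlet series -/
noncomputable def Dfull (k : ℕ) (σ : ℝ) : ℝ := ∑' n : ℕ, (dk k n : ℝ) ^ 2 / (n : ℝ) ^ (2 * σ)

lemma dk_zero (k : ℕ) : dk k 0 = 0 := by
  unfold dk
  rw [Finset.card_eq_zero, Finset.eq_empty_iff_forall_notMem]
  intro x hx
  rw [Nat.mem_finMulAntidiag] at hx
  exact hx.2 rfl

lemma dk_sq_le {k n : ℕ} (hn : n ≠ 0) : (dk k n : ℝ) ^ 2 ≤ dd n ^ (2 * k) := by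
  rw [mul_comm, pow_mul]
  exact pow_le_pow_left₀ (Nat.cast_nonneg _) (dk_le hn) 2

lemma major_sum_le {k : ℕ} {η c : ℝ} (hη : 0 < η) (hc : 0 ≤ c) (x : ℕ) :
    ∑ n ∈ Finset.range x, (if n = 0 then 0 else c * (dd n ^ (2 * k) * (n : ℝ) ^ (-(1 + η)))) ≤
      c * (1 + 1 / η) ^ (2 ^ (2 * k)) := by
  have h1 : ∑ n ∈ Finset.range x, (if n = 0 then 0 else c * (dd n ^ (2 * k) * (n : ℝ) ^ (-(1 + η)))) ≤
      ∑ n ∈ Finset.Icc 1 x, c * (dd n ^ (2 * k) * (n : ℝ) ^ (-(1 + η))) := by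
    rw [← Finset.sum_filter_add_sum_filter_not (Finset.range x) (fun n => n = 0)]
    have e1 : ∑ n ∈ (Finset.range x).filter (fun n => n = 0), (if n = 0 then 0 else c * (dd n ^ (2 * k) * (n : ℝ) ^ (-(1 + η)))) = 0 := by
      apply Finset.sum_eq_zero
      intro n hn
      rw [if_pos (Finset.mem_filter.1 hn).2]
    rw [e1, zero_add]
    have e2 : ∑ n ∈ (Finset.range x).filter (fun n => ¬ n = 0), (if n = 0 then 0 else c * (dd n ^ (2 * k) * (n : ℝ) ^ (-(1 + η)))) =
        ∑ n ∈ (Finset.range x).filter (fun n => ¬ n = 0), c * (dd n ^ (2 * k) * (n : ℝ) ^ (-(1 + η))) := by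
      refine Finset.sum_congr rfl (fun n hn => ?_)
      rw [if_neg (Finset.mem_filter.1 hn).2]
    rw [e2]
    apply Finset.sum_le_sum_of_subset_of_nonneg
    · intro n hn
      rw [Finset.mem_filter, Finset.mem_range] at hn
      rw [Finset.mem_Icc]
      omega
    · intro n _ _
      have := dd_nonneg n
      positivity
  refine h1.trans ?_
  rw [← Finset.mul_sum]
  apply mul_le_mul_of_nonneg_left _ hc
  refine (divsum_le (2 * k) x (1 + η)).trans ?_
  exact pow_le_pow_left₀ (Finset.sum_nonneg (fun _ _ => by positivity)) (zeta_sum_le hη x) _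

theorem diag_tail {N k : ℕ} (hN : 1 ≤ N) (hk : 1 ≤ k) {σ η : ℝ} (hη : 0 < η) (hσ : σ = 1 / 2 + η) :
    |Dfull k σ - Dg N k σ| ≤ (N : ℝ) ^ (-η) * (1 + 1 / η) ^ (2 ^ (2 * k)) := by
  have hN0 : (0:ℝ) < N := by exact_mod_cast hN
  set K := N ^ k with hK
  have hNK : N ≤ K := by
    calc N = N ^ 1 := (pow_one N).symm
      _ ≤ N ^ k := Nat.pow_le_pow_right hN hk
  set f : ℕ → ℝ := fun n => (dk k n : ℝ) ^ 2 / (n : ℝ) ^ (2 * σ) with hf
  set a : ℕ → ℝ := fun n => if n ∈ Finset.Icc 1 K then (al N k n : ℝ) ^ 2 * (n : ℝ) ^ (-(2 * σ)) else 0 with ha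
  set h1 : ℕ → ℝ := fun n => if n = 0 then 0 else 1 * (dd n ^ (2 * k) * (n : ℝ) ^ (-(1 + η))) with hh1
  set hc : ℕ → ℝ := fun n => if n = 0 then 0 else (N : ℝ) ^ (-η) * (dd n ^ (2 * k) * (n : ℝ) ^ (-(1 + η))) with hhc
  have hf0 : ∀ n, 0 ≤ f n := fun n => by rw [hf]; positivity
  have hexp : ∀ n : ℕ, 1 ≤ n → 1 / (n : ℝ) ^ (2 * σ) = (n : ℝ) ^ (-(1 + η)) * (n : ℝ) ^ (-η) := by
    intro n hn
    have hn0 : (0:ℝ) < n := by exact_mod_cast hn
    rw [← Real.rpow_add hn0, one_div, ← Real.rpow_neg hn0.le]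
    congr 1
    rw [hσ]; ring
  have hfh1 : ∀ n, f n ≤ h1 n := by
    intro n
    rw [hf, hh1]
    simp only
    by_cases hn : n = 0
    · subst hn; rw [if_pos rfl, dk_zero]; simp
    · rw [if_neg hn, one_mul]
      have hn1 : 1 ≤ n := Nat.one_le_iff_ne_zero.2 hn
      have hn0 : (1:ℝ) ≤ n := by exact_mod_cast hn1
      rw [div_eq_mul_one_div, hexp n hn1]
      have e1 : (n : ℝ) ^ (-η) ≤ 1 := Real.rpow_le_one_of_one_le_of_nonpos hn0 (by linarith)
      have e2 := dk_sq_le (k := k) hn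
      have e3 : 0 ≤ dd n ^ (2 * k) := pow_nonneg (dd_nonneg n) _
      calc (dk k n : ℝ) ^ 2 * ((n : ℝ) ^ (-(1 + η)) * (n : ℝ) ^ (-η)) ≤
          dd n ^ (2 * k) * ((n : ℝ) ^ (-(1 + η)) * 1) := by
            apply mul_le_mul e2 _ (by positivity) e3
            exact mul_le_mul_of_nonneg_left e1 (by positivity)
        _ = _ := by ring
  have hsumh1 : Summable h1 := by
    apply summable_of_sum_range_le (c := 1 * (1 + 1 / η) ^ (2 ^ (2 * k)))
    · intro n
      rw [hh1]
      simp only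
      split_ifs
      · exact le_rfl
      · have := dd_nonneg n
        positivity
    · intro x
      exact major_sum_le hη (by norm_num) x
  have hsumf : Summable f := Summable.of_nonneg_of_le hf0 hfh1 hsumh1
  have hsuma : HasSum a (Dg N k σ) := by
    have : HasSum a (∑ n ∈ Finset.Icc 1 K, a n) := hasSum_sum_of_ne_finset_zero (by
      intro n hn; rw [ha]; simp only; rw [if_neg hn])
    have e : ∑ n ∈ Finset.Icc 1 K, a n = Dg N k σ := by
      unfold Dg
      refine Finset.sum_congr rfl (fun n hn => ?_)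
      rw [ha]; simp only; rw [if_pos hn]
    rwa [e] at this
  have hsub := hsumf.hasSum.sub hsuma
  have h0 : ∀ n, 0 ≤ f n - a n := by
    intro n
    rw [hf, ha]
    simp only
    split_ifs with h
    · have hn1 := (Finset.mem_Icc.1 h).1
      have hn0 : (0:ℝ) < n := by exact_mod_cast hn1
      rw [Real.rpow_neg hn0.le, ← div_eq_mul_inv, ← sub_div]
      apply div_nonneg _ (by positivity)
      have e1 : (al N k n : ℝ) ≤ dk k n := by exact_mod_cast al_le_dk (by omega)
      have e2 : (al N k n : ℝ) ^ 2 ≤ (dk k n : ℝ) ^ 2 := pow_le_pow_left₀ (Nat.cast_nonneg _) e1 2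
      linarith
    · have := hf0 n
      rw [hf] at this
      simp only at this
      linarith
  have hle : ∀ n, f n - a n ≤ hc n := by
    intro n
    by_cases hn : n = 0
    · subst hn
      rw [hf, ha, hhc]
      simp [dk_zero]
    · have hn1 : 1 ≤ n := Nat.one_le_iff_ne_zero.2 hn
      have hn0 : (0:ℝ) < n := by exact_mod_cast hn1
      have hhc0 : 0 ≤ hc n := by
        rw [hhc]; simp only; rw [if_neg hn]
        have := dd_nonneg n
        positivity
      by_cases hnN : n ≤ N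
      · have : f n - a n = 0 := by
          rw [hf, ha]
          simp only
          rw [if_pos (Finset.mem_Icc.2 ⟨hn1, hnN.trans hNK⟩), al_eq_dk hn hnN, Real.rpow_neg hn0.le,
            ← div_eq_mul_inv, sub_self]
        rw [this]; exact hhc0
      · have ha0 : 0 ≤ a n := by
          rw [ha]; simp only; split_ifs
          · positivity
          · exact le_rfl
        refine (sub_le_self _ ha0).trans ?_
        rw [hf, hhc]
        simp only
        rw [if_neg hn, div_eq_mul_one_div, hexp n hn1]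
        have e1 : (n : ℝ) ^ (-η) ≤ (N : ℝ) ^ (-η) := by
          apply Real.rpow_le_rpow_of_nonpos hN0 _ (by linarith)
          exact_mod_cast (by omega : N ≤ n)
        have e2 := dk_sq_le (k := k) hn
        have e3 : 0 ≤ dd n ^ (2 * k) := pow_nonneg (dd_nonneg n) _
        calc (dk k n : ℝ) ^ 2 * ((n : ℝ) ^ (-(1 + η)) * (n : ℝ) ^ (-η)) ≤
            dd n ^ (2 * k) * ((n : ℝ) ^ (-(1 + η)) * (N : ℝ) ^ (-η)) := by
              apply mul_le_mul e2 _ (by positivity) e3
              exact mul_le_mul_of_nonneg_left e1 (by positivity)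
          _ = _ := by ring
  have hD : Dfull k σ - Dg N k σ = ∑' n, (f n - a n) := hsub.tsum_eq.symm
  rw [hD, abs_of_nonneg (tsum_nonneg h0)]
  apply Real.tsum_le_of_sum_range_le h0
  intro x
  refine (Finset.sum_le_sum (fun n _ => hle n)).trans ?_
  exact major_sum_le hη (by positivity) x

lemma Dg_nonneg (N k : ℕ) (σ : ℝ) : 0 ≤ Dg N k σ := by
  unfold Dg
  exact Finset.sum_nonneg (fun _ _ => by positivity)

lemma Dg_le (N k : ℕ) {σ : ℝ} (hσ : 1 / 2 ≤ σ) :
    Dg N k σ ≤ (1 + Real.log ((N ^ k : ℕ) : ℝ)) ^ (2 ^ (2 * k)) := by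
  refine le_trans ?_ (divsum_le_log (2 * k) (N ^ k))
  unfold Dg
  apply Finset.sum_le_sum
  intro n hn
  have hn1 := (Finset.mem_Icc.1 hn).1
  have hn0 : (0:ℝ) < n := by exact_mod_cast hn1
  have e1 : (al N k n : ℝ) ^ 2 ≤ dd n ^ (2 * k) := by
    rw [mul_comm 2 k, pow_mul]
    exact pow_le_pow_left₀ (Nat.cast_nonneg _) (al_le (by omega)) 2
  have e2 : (n : ℝ) ^ (-(2 * σ)) ≤ (n : ℝ) ^ (-1 : ℝ) :=
    Real.rpow_le_rpow_of_exponent_le (by exact_mod_cast hn1) (by linarith)
  rw [Real.rpow_neg_one] at e2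
  rw [div_eq_mul_inv]
  exact mul_le_mul e1 e2 (by positivity) (pow_nonneg (dd_nonneg n) _)

end Pool.Agent.P07318d
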