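import Mathlib

/-!
# Hypercontractivity on a product of groups of roots of unity, even exponents
-/

set_option autoImplicit false

namespace Pool.Agent.P07318d

open Finset

/-- primitive root of unity -/
noncomputable def zt (M : ℕ) : ℂ := Complex.exp (2 * Real.pi * Complex.I / M)

lemma zt_pow_M {M : ℕ} (hM : 0 < M) : zt M ^ M = 1 :=
  (Complex.isPrimitiveRoot_exp M hM.ne').pow_eq_one

lemma zt_ne_zero (M : ℕ) : zt M ≠ 0 := Complex.exp_ne_zero _

lemma norm_zt (M : ℕ) : ‖zt M‖ = 1 := by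
  unfold zt
  have : (2 * Real.pi * Complex.I / M : ℂ) = ((2 * Real.pi / M : ℝ) : ℂ) * Complex.I := by
    push_cast; ring
  rw [this, Complex.norm_exp_ofReal_mul_I]

lemma sum_zt_zpow {M : ℕ} (hM : 0 < M) {n : ℤ} (hn : n ≠ 0) (hnM : |n| < M) :
    ∑ i ∈ range M, (zt M ^ i) ^ n = 0 := by
  have h1 : ∀ i, (zt M ^ i) ^ n = (zt M ^ n) ^ i := by
    intro i
    rw [← zpow_natCast, ← zpow_natCast, ← zpow_mul, ← zpow_mul, mul_comm]
  simp_rw [h1]
  have h2 : zt M ^ n ≠ 1 := by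
    intro h
    have hp := Complex.isPrimitiveRoot_exp M hM.ne'
    have := (hp.zpow_eq_one_iff_dvd n).1 h
    have h3 := Int.eq_zero_of_abs_lt_dvd this hnM
    exact hn h3
  have h3 : (zt M ^ n) ^ M = 1 := by
    rw [← h1 M, zt_pow_M hM, one_zpow]
  have h4 := geom_sum_mul (zt M ^ n) M
  rw [h3, sub_self] at h4
  rcases mul_eq_zero.1 h4 with h5 | h5
  · exact h5
  · exact absurd (sub_eq_zero.1 h5) h2

section avg

variable {𝕜 : Type*} [RCLike 𝕜]

/-- average over the variable `p` -/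
noncomputable def Ep (M p : ℕ) (F : (ℕ → ℂ) → 𝕜) (z : ℕ → ℂ) : 𝕜 :=
  (∑ i ∈ range M, F (Function.update z p (zt M ^ i))) / M

/-- average over the variables in a list -/
noncomputable def avL (M : ℕ) : List ℕ → ((ℕ → ℂ) → 𝕜) → (ℕ → ℂ) → 𝕜
  | [], F => F
  | p :: l, F => avL M l (Ep M p F)

lemma Ep_sum {κ : Type*} (M p : ℕ) (T : Finset κ) (F : κ → (ℕ → ℂ) → 𝕜) :
    Ep M p (fun z => ∑ t ∈ T, F t z) = fun z => ∑ t ∈ T, Ep M p (F t) z := by
  funext z
  unfold Ep
  rw [Finset.sum_comm, Finset.sum_div]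

lemma Ep_const_mul (M p : ℕ) (c : 𝕜) (F : (ℕ → ℂ) → 𝕜) :
    Ep M p (fun z => c * F z) = fun z => c * Ep M p F z := by
  funext z
  unfold Ep
  rw [← Finset.mul_sum, mul_div_assoc]

lemma avL_sum {κ : Type*} (M : ℕ) (l : List ℕ) (T : Finset κ) (F : κ → (ℕ → ℂ) → 𝕜) :
    avL M l (fun z => ∑ t ∈ T, F t z) = fun z => ∑ t ∈ T, avL M l (F t) z := by
  induction l generalizing F with
  | nil => rfl
  | cons p l ih =>
    show avL M l (Ep M p (fun z => ∑ t ∈ T, F t z)) = _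
    rw [Ep_sum, ih]
    rfl

lemma avL_const_mul (M : ℕ) (l : List ℕ) (c : 𝕜) (F : (ℕ → ℂ) → 𝕜) :
    avL M l (fun z => c * F z) = fun z => c * avL M l F z := by
  induction l generalizing F with
  | nil => rfl
  | cons p l ih =>
    show avL M l (Ep M p (fun z => c * F z)) = _
    rw [Ep_const_mul, ih]
    rfl

end avg

lemma avL_mono (M : ℕ) (l : List ℕ) {F G : (ℕ → ℂ) → ℝ} (h : ∀ z, F z ≤ G z) (z : ℕ → ℂ) :
    avL M l F z ≤ avL M l G z := by
  induction l generalizing F G z with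
  | nil => exact h z
  | cons p l ih =>
    show avL M l (Ep M p F) z ≤ avL M l (Ep M p G) z
    apply ih
    intro z'
    unfold Ep
    exact div_le_div_of_nonneg_right (Finset.sum_le_sum (fun i _ => h _)) (Nat.cast_nonneg _)

lemma avL_ofReal (M : ℕ) (l : List ℕ) (F : (ℕ → ℂ) → ℝ) (z : ℕ → ℂ) :
    ((avL M l F z : ℝ) : ℂ) = avL M l (fun z => ((F z : ℝ) : ℂ)) z := by
  induction l generalizing F z with
  | nil => rfl
  | cons p l ih =>
    show ((avL M l (Ep M p F) z : ℝ) : ℂ) = avL M l (Ep M p (fun z => ((F z : ℝ) : ℂ))) z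
    rw [ih]
    congr 1
    funext z'
    unfold Ep
    push_cast
    rfl

/-! ### one variable -/

lemma one_add_pow_le (v : ℝ) (hv : -1 ≤ v) (hv3 : v ≤ 3) (j : ℕ) :
    (1 + v) ^ j ≤ 1 + j * v + 5 ^ j * v ^ 2 := by
  induction j with
  | zero => simp; positivity
  | succ j ih =>
    have h1 : (1 + v) ^ (j + 1) ≤ (1 + j * v + 5 ^ j * v ^ 2) * (1 + v) := by
      rw [pow_succ]
      exact mul_le_mul_of_nonneg_right ih (by linarith)
    have h2 : (j : ℝ) ≤ 5 ^ j := by
      have : j < 5 ^ j := Nat.lt_pow_self (by norm_num)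
      exact_mod_cast this.le
    have h3 : (5:ℝ) ^ j * v ^ 2 * v ≤ 5 ^ j * v ^ 2 * 3 :=
      mul_le_mul_of_nonneg_left hv3 (by positivity)
    have h4 : (j : ℝ) * v ^ 2 ≤ 5 ^ j * v ^ 2 := mul_le_mul_of_nonneg_right h2 (sq_nonneg v)
    push_cast
    rw [pow_succ (5:ℝ)]
    nlinarith

lemma mean_zero_ineq {M : ℕ} (hM : 0 < M) (a : ℂ) (G : ℕ → ℂ) (g : ℝ) (hg0 : 0 ≤ g)
    (hg : ∀ i ∈ range M, ‖G i‖ ≤ g) (hsum : ∑ i ∈ range M, G i = 0) (j : ℕ) :
    (∑ i ∈ range M, ‖a + G i‖ ^ (2 * j)) / M ≤ (‖a‖ ^ 2 + (1 + 9 * 5 ^ j) * g ^ 2) ^ j := by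
  have hMr : (0:ℝ) < M := by exact_mod_cast hM
  set K : ℝ := 1 + 9 * 5 ^ j with hK
  have h5 : (1:ℝ) ≤ 5 ^ j := one_le_pow₀ (by norm_num)
  have hK10 : 10 ≤ K := by rw [hK]; linarith
  rw [div_le_iff₀ hMr]
  rcases le_or_gt ‖a‖ g with hag | hag
  · -- large g
    have h1 : ∀ i ∈ range M, ‖a + G i‖ ^ (2 * j) ≤ (‖a‖ ^ 2 + K * g ^ 2) ^ j := by
      intro i hi
      rw [pow_mul]
      apply pow_le_pow_left₀ (by positivity)
      have h2 : ‖a + G i‖ ≤ 2 * g := by
        refine le_trans (norm_add_le _ _) ?_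
        have := hg i hi
        linarith
      have h3 : ‖a + G i‖ ^ 2 ≤ (2 * g) ^ 2 := pow_le_pow_left₀ (norm_nonneg _) h2 2
      have h4 : 4 * g ^ 2 ≤ K * g ^ 2 := mul_le_mul_of_nonneg_right (by linarith) (sq_nonneg g)
      nlinarith [sq_nonneg ‖a‖]
    refine le_trans (Finset.sum_le_sum h1) ?_
    rw [Finset.sum_const, Finset.card_range, nsmul_eq_mul, mul_comm]
  · -- small g
    set A := ‖a‖ with hA
    have hA0 : 0 < A := lt_of_le_of_lt hg0 hag
    rcases Nat.eq_zero_or_pos j with hj | hj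
    · subst hj; simp
    have hjr : (1:ℝ) ≤ j := by exact_mod_cast hj
    set v : ℕ → ℝ := fun i => (2 * inner ℝ a (G i) + ‖G i‖ ^ 2) / A ^ 2 with hv
    have hin : ∀ i, |inner ℝ a (G i)| ≤ A * ‖G i‖ := fun i => abs_real_inner_le_norm _ _
    have hnorm : ∀ i, ‖a + G i‖ ^ 2 = A ^ 2 * (1 + v i) := by
      intro i
      rw [norm_add_sq_real, hv]
      field_simp
      ring
    have hvabs : ∀ i ∈ range M, |v i| ≤ 3 * g / A := by
      intro i hi
      rw [hv]
      simp only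
      rw [abs_div, abs_of_pos (show (0:ℝ) < A ^ 2 by positivity), div_le_div_iff₀ (by positivity) hA0]
      have h1 := hin i
      have h2 := hg i hi
      have h3 : |2 * inner ℝ a (G i) + ‖G i‖ ^ 2| ≤ 2 * (A * g) + g ^ 2 := by
        refine le_trans (abs_add_le _ _) ?_
        rw [abs_mul, abs_of_pos (show (0:ℝ) < 2 by norm_num), abs_of_nonneg (sq_nonneg ‖G i‖)]
        have h4 : |inner ℝ a (G i)| ≤ A * g :=
          h1.trans (mul_le_mul_of_nonneg_left h2 hA0.le)
        have h5 : ‖G i‖ ^ 2 ≤ g ^ 2 := pow_le_pow_left₀ (norm_nonneg _) h2 2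
        linarith
      have h6 : g ^ 2 ≤ A * g := by nlinarith
      have h7 : |2 * inner ℝ a (G i) + ‖G i‖ ^ 2| ≤ 3 * (A * g) := by linarith
      calc |2 * inner ℝ a (G i) + ‖G i‖ ^ 2| * A ≤ 3 * (A * g) * A :=
            mul_le_mul_of_nonneg_right h7 hA0.le
        _ = 3 * g * A ^ 2 := by ring
    have hv3 : ∀ i ∈ range M, |v i| ≤ 3 := by
      intro i hi
      refine (hvabs i hi).trans ?_
      rw [div_le_iff₀ hA0]; nlinarith
    have hvm1 : ∀ i, -1 ≤ v i := by
      intro i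
      have h1 := hnorm i
      have h2 : 0 ≤ A ^ 2 * (1 + v i) := by rw [← h1]; positivity
      have h3 : 0 ≤ 1 + v i := by
        by_contra hcon
        push Not at hcon
        have : A ^ 2 * (1 + v i) < 0 := mul_neg_of_pos_of_neg (by positivity) hcon
        linarith
      linarith
    have hterm : ∀ i ∈ range M, ‖a + G i‖ ^ (2 * j) ≤
        A ^ (2 * j) * (1 + j * v i + 5 ^ j * (9 * g ^ 2 / A ^ 2)) := by
      intro i hi
      rw [pow_mul, hnorm, mul_pow, ← pow_mul]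
      apply mul_le_mul_of_nonneg_left _ (by positivity)
      refine (one_add_pow_le (v i) (hvm1 i) (le_trans (le_abs_self _) (hv3 i hi)) j).trans ?_
      have h1 : v i ^ 2 ≤ 9 * g ^ 2 / A ^ 2 := by
        rw [← sq_abs]
        have := pow_le_pow_left₀ (abs_nonneg _) (hvabs i hi) 2
        refine this.trans (le_of_eq ?_)
        rw [div_pow]; ring
      have h2 : (5:ℝ) ^ j * v i ^ 2 ≤ 5 ^ j * (9 * g ^ 2 / A ^ 2) :=
        mul_le_mul_of_nonneg_left h1 (by positivity)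
      linarith
    refine le_trans (Finset.sum_le_sum hterm) ?_
    rw [← Finset.mul_sum, Finset.sum_add_distrib, Finset.sum_add_distrib, ← Finset.mul_sum,
      Finset.sum_const, Finset.sum_const, Finset.card_range, nsmul_eq_mul, nsmul_eq_mul, mul_one]
    have hsv : ∑ i ∈ range M, v i ≤ M * (g ^ 2 / A ^ 2) := by
      have h1 : ∑ i ∈ range M, v i = (∑ i ∈ range M, ‖G i‖ ^ 2) / A ^ 2 := by
        rw [hv]
        simp only
        rw [← Finset.sum_div, Finset.sum_add_distrib, ← Finset.mul_sum, ← inner_sum, hsum,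
          inner_zero_right, mul_zero, zero_add]
      rw [h1, mul_div_assoc']
      apply div_le_div_of_nonneg_right _ (by positivity)
      have h2 : ∀ i ∈ range M, ‖G i‖ ^ 2 ≤ g ^ 2 := fun i hi =>
        pow_le_pow_left₀ (norm_nonneg _) (hg i hi) 2
      refine (Finset.sum_le_sum h2).trans ?_
      rw [Finset.sum_const, Finset.card_range, nsmul_eq_mul]
    have hB : 1 + (j : ℝ) * (K * (g ^ 2 / A ^ 2)) ≤ (1 + K * (g ^ 2 / A ^ 2)) ^ j := by
      apply one_add_mul_le_pow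
      have : 0 ≤ K * (g ^ 2 / A ^ 2) := by positivity
      linarith
    have hfin : (A ^ 2 + K * g ^ 2) ^ j = A ^ (2 * j) * (1 + K * (g ^ 2 / A ^ 2)) ^ j := by
      rw [pow_mul, ← mul_pow]; congr 1; field_simp
    rw [hfin]
    have hy : 0 ≤ g ^ 2 / A ^ 2 := by positivity
    have hkey : (M : ℝ) + j * (M * (g ^ 2 / A ^ 2)) + M * (5 ^ j * (9 * g ^ 2 / A ^ 2)) ≤
        (1 + (j : ℝ) * (K * (g ^ 2 / A ^ 2))) * M := by
      have e1 : (5:ℝ) ^ j * (9 * g ^ 2 / A ^ 2) = 9 * 5 ^ j * (g ^ 2 / A ^ 2) := by ring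
      rw [e1]
      have h9 : 9 * 5 ^ j * (g ^ 2 / A ^ 2) ≤ j * (9 * 5 ^ j * (g ^ 2 / A ^ 2)) := by
        have : 0 ≤ 9 * (5:ℝ) ^ j * (g ^ 2 / A ^ 2) := by positivity
        nlinarith
      have e2 : (j : ℝ) * (K * (g ^ 2 / A ^ 2)) =
          j * (g ^ 2 / A ^ 2) + j * (9 * 5 ^ j * (g ^ 2 / A ^ 2)) := by rw [hK]; ring
      rw [e2]
      nlinarith
    calc A ^ (2 * j) * (↑M + ↑j * ∑ i ∈ range M, v i + ↑M * (5 ^ j * (9 * g ^ 2 / A ^ 2)))
        ≤ A ^ (2 * j) * ((1 + (j : ℝ) * (K * (g ^ 2 / A ^ 2))) * M) := by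
          apply mul_le_mul_of_nonneg_left _ (by positivity)
          have : (j : ℝ) * ∑ i ∈ range M, v i ≤ j * (M * (g ^ 2 / A ^ 2)) :=
            mul_le_mul_of_nonneg_left hsv (by linarith)
          linarith
      _ ≤ A ^ (2 * j) * ((1 + K * (g ^ 2 / A ^ 2)) ^ j * M) := by gcongr
      _ = _ := by ring

/-- admissible weights in one variable, for exponents bounded by `Lb` -/
def OV (M j Lb : ℕ) (w : ℤ → ℝ) : Prop :=
  (∀ n, 0 ≤ w n) ∧ ∀ (S : Finset ℤ), (∀ n ∈ S, |n| ≤ Lb) → ∀ A : ℤ → ℂ,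
    (∑ i ∈ range M, ‖∑ n ∈ S, (zt M ^ i) ^ n * A n‖ ^ (2 * j)) / M ≤
      (∑ n ∈ S, w n * ‖A n‖ ^ 2) ^ j

lemma norm_zt_zpow (M i : ℕ) (n : ℤ) : ‖(zt M ^ i) ^ n‖ = 1 := by
  rw [norm_zpow, norm_pow, norm_zt]; simp

lemma ov_small {M j Lb : ℕ} (hM : 0 < M) : OV M j Lb (fun _ => (2 * Lb + 1 : ℝ)) := by
  refine ⟨fun _ => by positivity, fun S hS A => ?_⟩
  have hMr : (0:ℝ) < M := by exact_mod_cast hM
  have hcard : (S.card : ℝ) ≤ 2 * Lb + 1 := by
    have h1 : S ⊆ Finset.Icc (-(Lb : ℤ)) Lb := by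
      intro n hn
      have := abs_le.1 (hS n hn)
      exact Finset.mem_Icc.2 this
    have h2 := Finset.card_le_card h1
    rw [Int.card_Icc] at h2
    have h3 : ((Lb : ℤ) + 1 - -(Lb : ℤ)).toNat = 2 * Lb + 1 := by omega
    rw [h3] at h2
    exact_mod_cast h2
  rw [div_le_iff₀ hMr]
  have h1 : ∀ i ∈ range M, ‖∑ n ∈ S, (zt M ^ i) ^ n * A n‖ ^ (2 * j) ≤
      (∑ n ∈ S, (2 * Lb + 1 : ℝ) * ‖A n‖ ^ 2) ^ j := by
    intro i _
    rw [pow_mul]
    apply pow_le_pow_left₀ (by positivity)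
    have h2 : ‖∑ n ∈ S, (zt M ^ i) ^ n * A n‖ ≤ ∑ n ∈ S, ‖A n‖ := by
      refine (norm_sum_le _ _).trans (Finset.sum_le_sum (fun n _ => ?_))
      rw [norm_mul, norm_zt_zpow, one_mul]
    calc ‖∑ n ∈ S, (zt M ^ i) ^ n * A n‖ ^ 2 ≤ (∑ n ∈ S, ‖A n‖) ^ 2 :=
          pow_le_pow_left₀ (norm_nonneg _) h2 2
      _ ≤ S.card * ∑ n ∈ S, ‖A n‖ ^ 2 := sq_sum_le_card_mul_sum_sq
      _ ≤ (2 * Lb + 1) * ∑ n ∈ S, ‖A n‖ ^ 2 :=
          mul_le_mul_of_nonneg_right hcard (Finset.sum_nonneg (fun _ _ => by positivity))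
      _ = _ := by rw [Finset.mul_sum]
  refine (Finset.sum_le_sum h1).trans ?_
  rw [Finset.sum_const, Finset.card_range, nsmul_eq_mul, mul_comm]

/-- the weights: `1` at `0` and `4 K n^2` elsewhere -/
noncomputable def wt (j : ℕ) (n : ℤ) : ℝ := if n = 0 then 1 else 4 * (1 + 9 * 5 ^ j) * (n : ℝ) ^ 2

lemma wt_nonneg (j : ℕ) (n : ℤ) : 0 ≤ wt j n := by
  unfold wt; split_ifs <;> positivity

lemma sum_inv_sq_le (L : ℕ) : ∑ m ∈ Finset.Icc 1 L, (1 / (m : ℝ) ^ 2) ≤ 2 := by
  have h1 : ∀ L : ℕ, 1 ≤ L → ∑ m ∈ Finset.Icc 1 L, (1 / (m : ℝ) ^ 2) ≤ 2 - 1 / (L : ℝ) := by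
    intro L hL
    induction L, hL using Nat.le_induction with
    | base => norm_num
    | succ L hL ih =>
      rw [← Finset.insert_Icc_right_eq_Icc_add_one (by omega), Finset.sum_insert (by simp)]
      have hLr : (1:ℝ) ≤ L := by exact_mod_cast hL
      have h2 : 1 / (((L + 1 : ℕ)) : ℝ) ^ 2 ≤ 1 / (L : ℝ) - 1 / ((L + 1 : ℕ) : ℝ) := by
        push_cast
        rw [div_sub_div _ _ (by positivity) (by positivity), div_le_div_iff₀ (by positivity) (by positivity)]
        nlinarith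
      linarith
  rcases Nat.eq_zero_or_pos L with h | h
  · subst h; simp
  · have := h1 L h
    have h3 : (0:ℝ) ≤ 1 / L := by positivity
    linarith

lemma ov_wt {M j Lb : ℕ} (hM : Lb < M) : OV M j Lb (wt j) := by
  have hM0 : 0 < M := by omega
  refine ⟨wt_nonneg j, fun S hS A => ?_⟩
  set K : ℝ := 1 + 9 * 5 ^ j with hK
  have hK0 : 0 < K := by positivity
  set a : ℂ := if (0:ℤ) ∈ S then A 0 else 0 with ha
  set S' := S.erase 0 with hS'
  set G : ℕ → ℂ := fun i => ∑ n ∈ S', (zt M ^ i) ^ n * A n with hG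
  set g : ℝ := ∑ n ∈ S', ‖A n‖ with hg
  have hsplit : ∀ i, ∑ n ∈ S, (zt M ^ i) ^ n * A n = a + G i := by
    intro i
    by_cases h0 : (0:ℤ) ∈ S
    · rw [ha, if_pos h0, hG, hS']
      simp only
      rw [← Finset.add_sum_erase S _ h0]; simp
    · rw [ha, if_neg h0, hG, hS', Finset.erase_eq_of_notMem h0, zero_add]
  have hgG : ∀ i ∈ range M, ‖G i‖ ≤ g := by
    intro i _
    refine (norm_sum_le _ _).trans (Finset.sum_le_sum (fun n _ => ?_))
    rw [norm_mul, norm_zt_zpow, one_mul]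
  have hsum : ∑ i ∈ range M, G i = 0 := by
    rw [hG, Finset.sum_comm]
    apply Finset.sum_eq_zero
    intro n hn
    rw [← Finset.sum_mul, sum_zt_zpow hM0 (Finset.ne_of_mem_erase hn), zero_mul]
    have := hS n (Finset.mem_of_mem_erase hn)
    have hM' : (Lb : ℤ) < M := by exact_mod_cast hM
    linarith
  have h1 := mean_zero_ineq hM0 a G g (Finset.sum_nonneg (fun _ _ => norm_nonneg _)) hgG hsum j
  have e1 : ∑ i ∈ range M, ‖∑ n ∈ S, (zt M ^ i) ^ n * A n‖ ^ (2 * j) =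
      ∑ i ∈ range M, ‖a + G i‖ ^ (2 * j) :=
    Finset.sum_congr rfl (fun i _ => by rw [hsplit i])
  rw [e1]
  refine h1.trans ?_
  apply pow_le_pow_left₀ (by positivity)
  -- bound `K g^2`
  have hinv : ∑ n ∈ S', (1 / ((n:ℝ) ^ 2)) ≤ 4 := by
    have hsub : S' ⊆ ((Finset.Icc 1 Lb).image (fun m : ℕ => (m : ℤ))) ∪
        ((Finset.Icc 1 Lb).image (fun m : ℕ => -(m : ℤ))) := by
      intro n hn
      have h2 := hS n (Finset.mem_of_mem_erase hn)
      have h3 := Finset.ne_of_mem_erase hn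
      rw [Finset.mem_union, Finset.mem_image, Finset.mem_image]
      rcases lt_or_gt_of_ne h3 with h4 | h4
      · right
        refine ⟨n.natAbs, ?_, by omega⟩
        rw [Finset.mem_Icc]
        rw [abs_of_neg h4] at h2
        omega
      · left
        refine ⟨n.natAbs, ?_, by omega⟩
        rw [Finset.mem_Icc]
        rw [abs_of_pos h4] at h2
        omega
    refine (Finset.sum_le_sum_of_subset_of_nonneg hsub (fun _ _ _ => by positivity)).trans ?_
    have h5 := Finset.sum_union_inter (s₁ := (Finset.Icc 1 Lb).image (fun m : ℕ => (m : ℤ)))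
      (s₂ := (Finset.Icc 1 Lb).image (fun m : ℕ => -(m : ℤ))) (f := fun n : ℤ => 1 / ((n:ℝ) ^ 2))
    have h6 : 0 ≤ ∑ n ∈ ((Finset.Icc 1 Lb).image (fun m : ℕ => (m : ℤ))) ∩
        ((Finset.Icc 1 Lb).image (fun m : ℕ => -(m : ℤ))), (1 / ((n:ℝ) ^ 2)) :=
      Finset.sum_nonneg (fun _ _ => by positivity)
    have h7 : ∑ n ∈ (Finset.Icc 1 Lb).image (fun m : ℕ => (m : ℤ)), (1 / ((n:ℝ) ^ 2)) ≤ 2 := by
      rw [Finset.sum_image (by intro a _ b _ h; simpa using h)]
      exact (sum_inv_sq_le Lb).trans' (le_of_eq (Finset.sum_congr rfl (fun m _ => by push_cast; rfl)))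
    have h8 : ∑ n ∈ (Finset.Icc 1 Lb).image (fun m : ℕ => -(m : ℤ)), (1 / ((n:ℝ) ^ 2)) ≤ 2 := by
      rw [Finset.sum_image (by intro a _ b _ h; simpa using h)]
      exact (sum_inv_sq_le Lb).trans' (le_of_eq (Finset.sum_congr rfl (fun m _ => by push_cast; rw [neg_sq])))
    linarith
  have hC : g ^ 2 ≤ (∑ n ∈ S', (1 / ((n:ℝ) ^ 2))) * (∑ n ∈ S', (n:ℝ) ^ 2 * ‖A n‖ ^ 2) := by
    rw [hg]
    apply Finset.sum_sq_le_sum_mul_sum_of_sq_eq_mul
    · intro n _; positivity
    · intro n _; positivity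
    · intro n hn
      have : (n : ℝ) ≠ 0 := by exact_mod_cast Finset.ne_of_mem_erase hn
      field_simp
  have hC2 : K * g ^ 2 ≤ ∑ n ∈ S', wt j n * ‖A n‖ ^ 2 := by
    have h2 : ∑ n ∈ S', wt j n * ‖A n‖ ^ 2 = 4 * K * ∑ n ∈ S', (n:ℝ) ^ 2 * ‖A n‖ ^ 2 := by
      rw [Finset.mul_sum]
      refine Finset.sum_congr rfl (fun n hn => ?_)
      unfold wt
      rw [if_neg (Finset.ne_of_mem_erase hn), ← hK]; ring
    rw [h2]
    have h3 : 0 ≤ ∑ n ∈ S', (n:ℝ) ^ 2 * ‖A n‖ ^ 2 := Finset.sum_nonneg (fun _ _ => by positivity)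
    have h4 : g ^ 2 ≤ 4 * ∑ n ∈ S', (n:ℝ) ^ 2 * ‖A n‖ ^ 2 :=
      hC.trans (mul_le_mul_of_nonneg_right hinv h3)
    nlinarith
  by_cases h0 : (0:ℤ) ∈ S
  · rw [← Finset.add_sum_erase S _ h0, ← hS', ha, if_pos h0]
    have : wt j 0 = 1 := by unfold wt; simp
    rw [this, one_mul]
    linarith
  · rw [ha, if_neg h0]
    have : S' = S := by rw [hS', Finset.erase_eq_of_notMem h0]
    rw [← this]
    simp only [norm_zero]
    linarith [hC2]

/-! ### averages over grids -/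

/-- grid points -/
def Grid (M : ℕ) (l : List ℕ) (z : ℕ → ℂ) : Prop := ∀ p ∈ l, ∃ i : ℕ, z p = zt M ^ i

lemma avL_congr {𝕜 : Type*} [RCLike 𝕜] (M : ℕ) (l : List ℕ) {F G : (ℕ → ℂ) → 𝕜}
    (h : ∀ z, Grid M l z → F z = G z) (z : ℕ → ℂ) : avL M l F z = avL M l G z := by
  induction l generalizing F G z with
  | nil => exact h z (by intro p hp; cases hp)
  | cons p l ih =>
    show avL M l (Ep M p F) z = avL M l (Ep M p G) z
    apply ih
    intro z' hz'
    unfold Ep
    congr 1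
    refine Finset.sum_congr rfl (fun i _ => ?_)
    apply h
    intro p' hp'
    rcases eq_or_ne p' p with e | e
    · subst e; exact ⟨i, by simp⟩
    · have : p' ∈ l := by simpa [e] using hp'
      obtain ⟨i', hi'⟩ := hz' p' this
      exact ⟨i', by rw [Function.update_of_ne e]; exact hi'⟩

lemma avL_const {𝕜 : Type*} [RCLike 𝕜] {M : ℕ} (hM : 0 < M) (l : List ℕ) (c : 𝕜) (z : ℕ → ℂ) :
    avL M l (fun _ => c) z = c := by
  induction l generalizing z with
  | nil => rfl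
  | cons p l ih =>
    show avL M l (Ep M p (fun _ => c)) z = c
    have : Ep M p (fun _ => c) = fun _ => c := by
      funext z'
      unfold Ep
      rw [Finset.sum_const, Finset.card_range, nsmul_eq_mul]
      have : (M : 𝕜) ≠ 0 := by exact_mod_cast hM.ne'
      field_simp
    rw [this, ih]

lemma avL_minkowski_pos {κ : Type*} {M : ℕ} (hM : 0 < M) (l : List ℕ) {j : ℕ} (hj : 1 ≤ j)
    (T : Finset κ) (w b : κ → ℝ) (hw : ∀ t ∈ T, 0 ≤ w t) (hb : ∀ t ∈ T, 0 < b t)
    (f : κ → (ℕ → ℂ) → ℝ) (hf0 : ∀ t ∈ T, ∀ z, 0 ≤ f t z) (z : ℕ → ℂ)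
    (hf : ∀ t ∈ T, avL M l (fun z => f t z ^ j) z ≤ b t ^ j) :
    avL M l (fun z => (∑ t ∈ T, w t * f t z) ^ j) z ≤ (∑ t ∈ T, w t * b t) ^ j := by
  set B := ∑ t ∈ T, w t * b t with hB
  have hB0 : 0 ≤ B := Finset.sum_nonneg (fun t ht => mul_nonneg (hw t ht) (hb t ht).le)
  rcases eq_or_lt_of_le hB0 with h0 | hBpos
  · have hz : ∀ t ∈ T, w t = 0 := by
      intro t ht
      have h1 := (Finset.sum_eq_zero_iff_of_nonneg
        (fun t ht => mul_nonneg (hw t ht) (hb t ht).le)).1 h0.symm t ht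
      rcases mul_eq_zero.1 h1 with h2 | h2
      · exact h2
      · exact absurd h2 (hb t ht).ne'
    have : (fun z => (∑ t ∈ T, w t * f t z) ^ j) = fun _ => (0:ℝ) := by
      funext z'
      rw [Finset.sum_eq_zero (fun t ht => by rw [hz t ht, zero_mul]), zero_pow (by omega)]
    rw [this, avL_const hM, ← h0]
    exact le_of_eq (zero_pow (by omega)).symm
  · have hpt : ∀ z, (∑ t ∈ T, w t * f t z) ^ j ≤
        ∑ t ∈ T, (B ^ j * (w t * b t / B) * ((b t) ^ j)⁻¹) * f t z ^ j := by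
      intro z
      have h1 := Real.pow_arith_mean_le_arith_mean_pow T (fun t => w t * b t / B)
        (fun t => f t z / b t) (fun t ht => div_nonneg (mul_nonneg (hw t ht) (hb t ht).le) hB0)
        (by rw [← Finset.sum_div, ← hB, div_self hBpos.ne'])
        (fun t ht => div_nonneg (hf0 t ht z) (hb t ht).le) j
      have h2 : ∑ t ∈ T, w t * f t z = B * ∑ t ∈ T, (w t * b t / B) * (f t z / b t) := by
        rw [Finset.mul_sum]
        refine Finset.sum_congr rfl (fun t ht => ?_)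
        have := (hb t ht).ne'
        field_simp
      rw [h2, mul_pow]
      refine (mul_le_mul_of_nonneg_left h1 (by positivity)).trans (le_of_eq ?_)
      rw [Finset.mul_sum]
      refine Finset.sum_congr rfl (fun t ht => ?_)
      rw [div_pow]; ring
    refine (avL_mono M l hpt z).trans ?_
    rw [avL_sum]
    simp only [avL_const_mul]
    have h3 : ∀ t ∈ T, (B ^ j * (w t * b t / B) * ((b t) ^ j)⁻¹) * avL M l (fun z => f t z ^ j) z ≤
        B ^ j * (w t * b t / B) := by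
      intro t ht
      have h4 := hf t ht
      have h5 : 0 ≤ B ^ j * (w t * b t / B) * ((b t) ^ j)⁻¹ := by
        have := hb t ht
        have := hw t ht
        positivity
      refine (mul_le_mul_of_nonneg_left h4 h5).trans (le_of_eq ?_)
      have := (hb t ht).ne'
      field_simp
    refine (Finset.sum_le_sum h3).trans ?_
    rw [← Finset.mul_sum, ← Finset.sum_div, ← hB, div_self hBpos.ne', mul_one]

lemma avL_minkowski {κ : Type*} {M : ℕ} (hM : 0 < M) (l : List ℕ) {j : ℕ} (hj : 1 ≤ j)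
    (T : Finset κ) (w b : κ → ℝ) (hw : ∀ t ∈ T, 0 ≤ w t) (hb : ∀ t ∈ T, 0 ≤ b t)
    (f : κ → (ℕ → ℂ) → ℝ) (hf0 : ∀ t ∈ T, ∀ z, 0 ≤ f t z) (z : ℕ → ℂ)
    (hf : ∀ t ∈ T, avL M l (fun z => f t z ^ j) z ≤ b t ^ j) :
    avL M l (fun z => (∑ t ∈ T, w t * f t z) ^ j) z ≤ (∑ t ∈ T, w t * b t) ^ j := by
  have h1 : ∀ δ : ℝ, 0 < δ → avL M l (fun z => (∑ t ∈ T, w t * f t z) ^ j) z ≤
      (∑ t ∈ T, w t * (b t + δ)) ^ j := by
    intro δ hδ
    apply avL_minkowski_pos hM l hj T w (fun t => b t + δ) hw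
      (fun t ht => by have := hb t ht; linarith) f hf0 z
    intro t ht
    exact (hf t ht).trans (pow_le_pow_left₀ (hb t ht) (by linarith) j)
  have h2 : Filter.Tendsto (fun δ : ℝ => (∑ t ∈ T, w t * (b t + δ)) ^ j) (nhdsWithin 0 (Set.Ioi 0))
      (nhds ((∑ t ∈ T, w t * (b t + 0)) ^ j)) := by
    apply Filter.Tendsto.mono_left _ nhdsWithin_le_nhds
    have : Continuous (fun δ : ℝ => (∑ t ∈ T, w t * (b t + δ)) ^ j) := by fun_prop
    exact this.tendsto 0
  simp only [add_zero] at h2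
  apply ge_of_tendsto h2
  filter_upwards [self_mem_nhdsWithin] with δ hδ
  exact h1 δ hδ

/-- monomials -/
noncomputable def chi (l : List ℕ) (E : ℕ → ℤ) (z : ℕ → ℂ) : ℂ := (l.map (fun p => z p ^ E p)).prod

/-- product weight -/
noncomputable def Wt (j : ℕ) (l : List ℕ) (E : ℕ → ℤ) : ℝ := (l.map (fun p => wt j (E p))).prod

lemma Wt_nonneg (j : ℕ) (l : List ℕ) (E : ℕ → ℤ) : 0 ≤ Wt j l E := by
  unfold Wt
  apply List.prod_nonneg
  intro a ha
  obtain ⟨p, _, rfl⟩ := List.mem_map.1 ha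
  exact wt_nonneg _ _

lemma chi_update {l : List ℕ} {p : ℕ} (hp : p ∉ l) (E : ℕ → ℤ) (z : ℕ → ℂ) (c : ℂ) :
    chi l E (Function.update z p c) = chi l E z := by
  unfold chi
  congr 1
  apply List.map_congr_left
  intro p' hp'
  rw [Function.update_of_ne (by rintro rfl; exact hp hp')]

theorem hyperT {ι : Type*} [DecidableEq ι] {M j Lb : ℕ} (hM : Lb < M) (l : List ℕ) (hl : l.Nodup)
    (E : ι → ℕ → ℤ) (S : Finset ι) (hE : ∀ s ∈ S, ∀ p, |E s p| ≤ Lb)
    (hinj : ∀ s ∈ S, ∀ s' ∈ S, (∀ p ∈ l, E s p = E s' p) → s = s') (C : ι → ℂ) (z : ℕ → ℂ) :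
    avL M l (fun z => ‖∑ s ∈ S, C s * chi l (E s) z‖ ^ (2 * j)) z ≤
      (∑ s ∈ S, ‖C s‖ ^ 2 * Wt j l (E s)) ^ j := by
  have hM0 : 0 < M := by omega
  rcases Nat.eq_zero_or_pos j with hj | hj
  · subst hj
    simp only [mul_zero, pow_zero]
    rw [avL_const hM0]
  induction l generalizing S z with
  | nil =>
    show ‖∑ s ∈ S, C s * chi [] (E s) z‖ ^ (2 * j) ≤ _
    rcases S.eq_empty_or_nonempty with h | ⟨a, ha⟩
    · subst h; simp [hj.ne']
    · have h : S = {a} := by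
        rw [Finset.eq_singleton_iff_unique_mem]
        exact ⟨ha, fun b hb => hinj b hb a ha (by intro p hp; cases hp)⟩
      subst h
      simp only [Finset.sum_singleton, chi, Wt, List.map_nil, List.prod_nil, mul_one]
      rw [← pow_mul]
  | cons p l ih =>
    have hpl : p ∉ l := (List.nodup_cons.1 hl).1
    have hl' : l.Nodup := (List.nodup_cons.1 hl).2
    set T := S.image (fun s => E s p) with hT
    set A : ℤ → (ℕ → ℂ) → ℂ := fun e z => ∑ s ∈ S.filter (fun s => E s p = e), C s * chi l (E s) z with hA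
    have hsum : ∀ (z : ℕ → ℂ) (i : ℕ), ∑ s ∈ S, C s * chi (p :: l) (E s) (Function.update z p (zt M ^ i)) =
        ∑ e ∈ T, (zt M ^ i) ^ e * A e z := by
      intro z i
      rw [← Finset.sum_fiberwise_of_maps_to (s := S) (t := T) (g := fun s => E s p)
        (fun s hs => Finset.mem_image_of_mem _ hs)]
      refine Finset.sum_congr rfl (fun e _ => ?_)
      rw [hA, Finset.mul_sum]
      refine Finset.sum_congr rfl (fun s hs => ?_)
      have hs2 := (Finset.mem_filter.1 hs).2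
      have : chi (p :: l) (E s) (Function.update z p (zt M ^ i)) = (zt M ^ i) ^ (E s p) *
          chi l (E s) (Function.update z p (zt M ^ i)) := by
        unfold chi
        rw [List.map_cons, List.prod_cons, Function.update_self]
      rw [this, chi_update hpl, hs2]; ring
    show avL M l (Ep M p (fun z => ‖∑ s ∈ S, C s * chi (p :: l) (E s) z‖ ^ (2 * j))) z ≤ _
    have hstep : ∀ z', Ep M p (fun z => ‖∑ s ∈ S, C s * chi (p :: l) (E s) z‖ ^ (2 * j)) z' ≤
        (∑ e ∈ T, wt j e * ‖A e z'‖ ^ 2) ^ j := by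
      intro z'
      unfold Ep
      simp only [hsum]
      exact (ov_wt hM).2 T (by
        intro n hn
        obtain ⟨s, hs, rfl⟩ := Finset.mem_image.1 hn
        exact hE s hs p) (fun e => A e z')
    refine (avL_mono M l hstep z).trans ?_
    set b : ℤ → ℝ := fun e => ∑ s ∈ S.filter (fun s => E s p = e), ‖C s‖ ^ 2 * Wt j l (E s) with hb
    have hmink := avL_minkowski hM0 l hj T (wt j) b (fun e _ => wt_nonneg j e)
      (fun e _ => Finset.sum_nonneg (fun s _ => mul_nonneg (by positivity) (Wt_nonneg _ _ _)))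
      (fun e z => ‖A e z‖ ^ 2) (fun e _ z => by positivity) z (by
        intro e _
        have := ih hl' (S.filter (fun s => E s p = e)) (fun s hs => hE s (Finset.mem_of_mem_filter s hs)) (by
          intro s hs s' hs' h
          apply hinj s (Finset.mem_of_mem_filter s hs) s' (Finset.mem_of_mem_filter s' hs')
          intro p' hp'
          rcases List.mem_cons.1 hp' with h1 | h1
          · rw [h1, (Finset.mem_filter.1 hs).2, (Finset.mem_filter.1 hs').2]
          · exact h p' h1) z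
        simp only [← pow_mul]
        exact this)
    refine hmink.trans (le_of_eq ?_)
    congr 1
    rw [← Finset.sum_fiberwise_of_maps_to (s := S) (t := T) (g := fun s => E s p)
        (fun s hs => Finset.mem_image_of_mem _ hs)]
    refine Finset.sum_congr rfl (fun e _ => ?_)
    rw [hb, Finset.mul_sum]
    refine Finset.sum_congr rfl (fun s hs => ?_)
    have hs2 := (Finset.mem_filter.1 hs).2
    unfold Wt
    rw [List.map_cons, List.prod_cons, hs2]; ring

lemma avL_chi {M : ℕ} (hM : 0 < M) (l : List ℕ) (hl : l.Nodup) (e : ℕ → ℤ)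
    (he : ∀ p ∈ l, |e p| < M) (z : ℕ → ℂ) :
    avL M l (chi l e) z = if ∀ p ∈ l, e p = 0 then 1 else 0 := by
  induction l generalizing z with
  | nil => show chi [] e z = _; simp [chi]
  | cons p l ih =>
    have hpl : p ∉ l := (List.nodup_cons.1 hl).1
    have hl' : l.Nodup := (List.nodup_cons.1 hl).2
    have hEp : Ep M p (chi (p :: l) e) = fun z => ((∑ i ∈ range M, (zt M ^ i) ^ (e p)) / M) * chi l e z := by
      funext z'
      unfold Ep
      rw [div_mul_eq_mul_div, Finset.sum_mul]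
      congr 1
      refine Finset.sum_congr rfl (fun i _ => ?_)
      have : chi (p :: l) e (Function.update z' p (zt M ^ i)) = (zt M ^ i) ^ (e p) *
          chi l e (Function.update z' p (zt M ^ i)) := by
        unfold chi
        rw [List.map_cons, List.prod_cons, Function.update_self]
      rw [this, chi_update hpl]
    show avL M l (Ep M p (chi (p :: l) e)) z = _
    rw [hEp, avL_const_mul]
    show _ * avL M l (chi l e) z = _
    rw [ih hl' (fun p' hp' => he p' (List.mem_cons_of_mem _ hp'))]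
    have hMc : (M : ℂ) ≠ 0 := by exact_mod_cast hM.ne'
    by_cases h0 : e p = 0
    · rw [h0]
      simp only [zpow_zero, Finset.sum_const, Finset.card_range, nsmul_eq_mul, mul_one]
      rw [div_self hMc, one_mul]
      simp [h0]
    · rw [sum_zt_zpow hM h0 (he p (List.mem_cons_self)), zero_div, zero_mul]
      rw [if_neg]
      intro h
      exact h0 (h p (List.mem_cons_self))

lemma chi_add {M : ℕ} {l : List ℕ} {z : ℕ → ℂ} (hz : Grid M l z) (E E' : ℕ → ℤ) :
    chi l (fun p => E p + E' p) z = chi l E z * chi l E' z := by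
  unfold chi
  rw [← List.prod_map_mul]
  congr 1
  apply List.map_congr_left
  intro p hp
  obtain ⟨i, hi⟩ := hz p hp
  rw [zpow_add₀]
  rw [hi]; exact pow_ne_zero _ (zt_ne_zero M)

lemma chi_zero (l : List ℕ) (z : ℕ → ℂ) : chi l (fun _ => 0) z = 1 := by
  unfold chi; simp

lemma chi_sum {M : ℕ} {l : List ℕ} {z : ℕ → ℂ} (hz : Grid M l z) {κ : Type*} (T : Finset κ)
    (E : κ → ℕ → ℤ) : chi l (fun p => ∑ t ∈ T, E t p) z = ∏ t ∈ T, chi l (E t) z := by
  classical
  induction T using Finset.induction_on with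
  | empty => simp [chi_zero]
  | insert a T ha ih =>
    rw [Finset.prod_insert ha, ← ih, ← chi_add hz]
    congr 1
    funext p
    rw [Finset.sum_insert ha]

lemma chi_conj {M : ℕ} {l : List ℕ} {z : ℕ → ℂ} (hz : Grid M l z) (E : ℕ → ℤ) :
    (starRingEnd ℂ) (chi l E z) = chi l (fun p => - E p) z := by
  unfold chi
  rw [map_list_prod, List.map_map]
  congr 1
  apply List.map_congr_left
  intro p hp
  obtain ⟨i, hi⟩ := hz p hp
  simp only [Function.comp]
  rw [map_zpow₀, zpow_neg, ← inv_zpow, hi]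
  congr 1
  rw [Complex.inv_def, Complex.normSq_eq_norm_sq]
  rw [norm_pow, norm_zt]; simp

theorem avL_count {ι : Type*} [DecidableEq ι] {M Lb q : ℕ} (hM : 2 * q * Lb < M) (l : List ℕ) (hl : l.Nodup)
    (E : ι → ℕ → ℤ) (S : Finset ι) (hE : ∀ s ∈ S, ∀ p, |E s p| ≤ Lb) (c : ι → ℝ) (z : ℕ → ℂ) :
    avL M l (fun z => ‖∑ s ∈ S, (c s : ℂ) * chi l (E s) z‖ ^ (2 * q)) z =
      ∑ x ∈ Fintype.piFinset (fun _ : Fin q => S), ∑ y ∈ Fintype.piFinset (fun _ : Fin q => S),
        (∏ i, c (x i)) * (∏ i, c (y i)) *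
          (if ∀ p ∈ l, ∑ i, E (x i) p = ∑ i, E (y i) p then 1 else 0) := by
  have hM0 : 0 < M := by omega
  have hcast : ((avL M l (fun z => ‖∑ s ∈ S, (c s : ℂ) * chi l (E s) z‖ ^ (2 * q)) z : ℝ) : ℂ) =
      ((∑ x ∈ Fintype.piFinset (fun _ : Fin q => S), ∑ y ∈ Fintype.piFinset (fun _ : Fin q => S),
        (∏ i, c (x i)) * (∏ i, c (y i)) *
          (if ∀ p ∈ l, ∑ i, E (x i) p = ∑ i, E (y i) p then 1 else 0) : ℝ) : ℂ) := by
    rw [avL_ofReal]
    have h1 : ∀ z, Grid M l z → ((‖∑ s ∈ S, (c s : ℂ) * chi l (E s) z‖ ^ (2 * q) : ℝ) : ℂ) =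
        ∑ x ∈ Fintype.piFinset (fun _ : Fin q => S), ∑ y ∈ Fintype.piFinset (fun _ : Fin q => S),
          (((∏ i, c (x i)) * (∏ i, c (y i)) : ℝ) : ℂ) *
            chi l (fun p => ∑ i, E (x i) p - ∑ i, E (y i) p) z := by
      intro z hz
      have e1 : ((‖∑ s ∈ S, (c s : ℂ) * chi l (E s) z‖ ^ (2 * q) : ℝ) : ℂ) =
          (∑ s ∈ S, (c s : ℂ) * chi l (E s) z) ^ q *
            ((starRingEnd ℂ) (∑ s ∈ S, (c s : ℂ) * chi l (E s) z)) ^ q := by
        rw [pow_mul, Complex.ofReal_pow, ← Complex.normSq_eq_norm_sq, Complex.normSq_eq_conj_mul_self,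
          mul_pow, mul_comm]
      have e2 : (∑ s ∈ S, (c s : ℂ) * chi l (E s) z) ^ q =
          ∑ x ∈ Fintype.piFinset (fun _ : Fin q => S), ∏ i, ((c (x i) : ℂ) * chi l (E (x i)) z) := by
        have := Finset.prod_univ_sum (fun _ : Fin q => S) (fun _ s => (c s : ℂ) * chi l (E s) z)
        rw [Finset.prod_const, Finset.card_univ, Fintype.card_fin] at this
        exact this
      have e3 : ((starRingEnd ℂ) (∑ s ∈ S, (c s : ℂ) * chi l (E s) z)) ^ q =
          ∑ y ∈ Fintype.piFinset (fun _ : Fin q => S), ∏ i, ((c (y i) : ℂ) * chi l (fun p => - E (y i) p) z) := by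
        rw [map_sum]
        have : ∀ s ∈ S, (starRingEnd ℂ) ((c s : ℂ) * chi l (E s) z) =
            (c s : ℂ) * chi l (fun p => - E s p) z := by
          intro s _
          rw [map_mul, chi_conj hz, Complex.conj_ofReal]
        have h5 := Finset.prod_univ_sum (fun _ : Fin q => S)
          (fun _ s => (c s : ℂ) * chi l (fun p => - E s p) z)
        rw [Finset.prod_const, Finset.card_univ, Fintype.card_fin] at h5
        rw [Finset.sum_congr rfl this]
        exact h5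
      rw [e1, e2, e3, Finset.sum_mul_sum]
      refine Finset.sum_congr rfl (fun x _ => Finset.sum_congr rfl (fun y _ => ?_))
      rw [Finset.prod_mul_distrib, Finset.prod_mul_distrib]
      have e4 : chi l (fun p => ∑ i, E (x i) p - ∑ i, E (y i) p) z =
          (∏ i, chi l (E (x i)) z) * (∏ i, chi l (fun p => - E (y i) p) z) := by
        rw [← chi_sum hz, ← chi_sum hz, ← chi_add hz]
        congr 1
        funext p
        rw [Finset.sum_neg_distrib]; ring
      rw [e4]; push_cast; ring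
    rw [avL_congr M l h1 z, avL_sum]
    push_cast
    refine Finset.sum_congr rfl (fun x hx => ?_)
    rw [avL_sum]
    refine Finset.sum_congr rfl (fun y hy => ?_)
    rw [avL_const_mul]
    have hbd : ∀ p ∈ l, |∑ i, E (x i) p - ∑ i, E (y i) p| < M := by
      intro p _
      have b1 : |∑ i, E (x i) p| ≤ q * Lb := by
        refine (Finset.abs_sum_le_sum_abs _ _).trans ?_
        refine (Finset.sum_le_sum (fun i _ => hE (x i) (Fintype.mem_piFinset.1 hx i) p)).trans ?_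
        simp
      have b2 : |∑ i, E (y i) p| ≤ q * Lb := by
        refine (Finset.abs_sum_le_sum_abs _ _).trans ?_
        refine (Finset.sum_le_sum (fun i _ => hE (y i) (Fintype.mem_piFinset.1 hy i) p)).trans ?_
        simp
      have b3 := abs_sub (∑ i, E (x i) p) (∑ i, E (y i) p)
      have b4 : ((2 * q * Lb : ℕ) : ℤ) < M := by exact_mod_cast hM
      push_cast at b4
      nlinarith
    have h2 := avL_chi hM0 l hl (fun p => ∑ i, E (x i) p - ∑ i, E (y i) p) hbd z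
    beta_reduce
    rw [h2]
    simp only [sub_eq_zero]
    split_ifs <;> push_cast <;> ring
  exact_mod_cast hcast

end Pool.Agent.P07318d
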