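import Pool.Agent.Lib.P07318d.Tail

/-!
# The upper bound: choice of parameters
-/

set_option autoImplicit false

namespace Pool.Agent.P07318d

open Finset MeasureTheory Filter

lemma log_pow_le {y T B c : ℝ} {n : ℕ} (hy : 1 ≤ y) (hT : 1 ≤ T) (hB : 0 < B) (hyT : y ^ B ≤ T)
    (hn : (n : ℝ) ≤ c * B) : y ^ n ≤ T ^ c := by
  have h1 : y ^ n = (y ^ B) ^ ((n : ℝ) / B) := by
    rw [← Real.rpow_mul (by linarith), ← Real.rpow_natCast]
    congr 1
    field_simp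
  rw [h1]
  calc (y ^ B) ^ ((n : ℝ) / B) ≤ T ^ ((n : ℝ) / B) := Real.rpow_le_rpow (by positivity) hyT (by positivity)
    _ ≤ T ^ c := Real.rpow_le_rpow_of_exponent_le hT (by rw [div_le_iff₀ hB]; exact hn)

theorem upper (k : ℕ) (hk : 1 ≤ k) (A ε : ℝ) (hA : 0 < A) (hε : 0 < ε) (hε1 : ε ≤ 1) :
    ∃ B C U₀ : ℝ, 1 ≤ B ∧ 0 < C ∧ ∀ U T σ : ℝ, U₀ ≤ U → (Real.log U) ^ B ≤ T → T ^ B ≤ U →
      1 / 2 + C * (Real.log T / Real.log U) ≤ σ → σ ≤ 3 / 4 →
      volume {u ∈ Set.Icc U (2 * U) | ∃ V ∈ Set.Icc 0 T, T ^ (1 / 2 + ε) < |Zw k σ V u - V * Dfull k σ|} ≤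
        ENNReal.ofReal (U * T ^ (-A)) := by
  obtain ⟨q, hq1, hqε⟩ : ∃ q : ℕ, 1 ≤ q ∧ A + 4 ≤ ε * q / 2 := by
    refine ⟨⌈2 * (A + 4) / ε⌉₊, Nat.ceil_pos.2 (by positivity), ?_⟩
    have h1 : 2 * (A + 4) / ε ≤ ⌈2 * (A + 4) / ε⌉₊ := Nat.le_ceil _
    rw [div_le_iff₀ hε] at h1
    linarith
  have hqr : (1:ℝ) ≤ q := by exact_mod_cast hq1
  have hkr : (1:ℝ) ≤ k := by exact_mod_cast hk
  have hqk1 : (1:ℝ) ≤ (q:ℝ) * k := one_le_mul_of_one_le_of_one_le hqr hkr
  obtain ⟨E, hE⟩ : ∃ E : ℕ, E = EE k q ∧ True := ⟨_, rfl, trivial⟩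
  obtain ⟨M4, hM4⟩ : ∃ M4 : ℕ, M4 = 2 ^ (2 * k) ∧ True := ⟨_, rfl, trivial⟩
  obtain ⟨B, hB⟩ : ∃ B : ℝ, B = 4 * E / ε + 2 * M4 + 2 * (5 + A + 4 * q) + 8 := ⟨_, rfl⟩
  have hE0 : (0:ℝ) ≤ E := Nat.cast_nonneg _
  have hM0 : (0:ℝ) ≤ M4 := Nat.cast_nonneg _
  have hEε : 0 ≤ 4 * (E:ℝ) / ε := by positivity
  have hB8 : 8 ≤ B := by rw [hB]; linarith
  have hB0 : 0 < B := by linarith
  obtain ⟨C', hC'⟩ : ∃ C' : ℝ, C' = A + 10 := ⟨_, rfl⟩
  obtain ⟨C, hC⟩ : ∃ C : ℝ, C = 24 * q * k * C' := ⟨_, rfl⟩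
  have hC0 : 0 < C := by rw [hC, hC']; positivity
  have hC24 : 24 ≤ C := by
    rw [hC, hC']
    have h2 : (1:ℝ) * 1 ≤ (q * k) * (A + 10) := mul_le_mul hqk1 (by linarith) (by norm_num) (by positivity)
    linarith
  -- large T
  have hev : ∀ᶠ T : ℝ in atTop, 12 ≤ T ^ (ε / 4) ∧ 4 ≤ T ^ (ε / 2) ∧ 8 * (k:ℝ) * 4 ^ k ≤ T ∧ 52000000 ≤ T ∧
      (2:ℝ) ^ M4 ≤ T ^ ((1:ℝ) / 2) := by
    have t1 := (tendsto_rpow_atTop (show 0 < ε / 4 by positivity)).eventually_ge_atTop 12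
    have t2 := (tendsto_rpow_atTop (show 0 < ε / 2 by positivity)).eventually_ge_atTop 4
    have t3 := eventually_ge_atTop (8 * (k:ℝ) * 4 ^ k)
    have t4 := eventually_ge_atTop (52000000 : ℝ)
    have t5 := (tendsto_rpow_atTop (show (0:ℝ) < 1 / 2 by norm_num)).eventually_ge_atTop ((2:ℝ) ^ M4)
    filter_upwards [t1, t2, t3, t4, t5] with T h1 h2 h3 h4 h5
    exact ⟨h1, h2, h3, h4, h5⟩
  obtain ⟨T₀, hT₀⟩ := eventually_atTop.1 hev
  set y₀ : ℝ := max T₀ (max 2 (24 * q * k)) with hy₀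
  refine ⟨B, C, Real.exp y₀, by linarith, hC0, ?_⟩
  intro U T σ hU hTlow hTup hσlow hσup
  set y := Real.log U with hy
  set x := Real.log T with hx
  have hUpos : 0 < U := lt_of_lt_of_le (Real.exp_pos _) hU
  have hyy : y₀ ≤ y := (Real.le_log_iff_exp_le hUpos).2 hU
  have hy2 : 2 ≤ y := (le_max_left _ _).trans ((le_max_right _ _).trans hyy)
  have hyqk : 24 * (q:ℝ) * k ≤ y := (le_max_right _ _).trans ((le_max_right _ _).trans hyy)
  have hyT : y ≤ T := by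
    refine le_trans ?_ hTlow
    calc y = y ^ (1:ℝ) := (Real.rpow_one y).symm
      _ ≤ y ^ B := Real.rpow_le_rpow_of_exponent_le (by linarith) (by linarith)
  have hTT₀ : T₀ ≤ T := (le_max_left _ _).trans (hyy.trans hyT)
  obtain ⟨hT1, hT2, hT3, hT4, hT5⟩ := hT₀ T hTT₀
  have hTpos : 0 < T := by linarith
  have hT1' : 1 ≤ T := by linarith
  have hx1 : 1 ≤ x := by
    rw [hx, Real.le_log_iff_exp_le hTpos]
    have := Real.exp_one_lt_d9
    linarith
  have hypos : 0 < y := by linarith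
  -- N
  obtain ⟨δ, hδ⟩ : ∃ δ : ℝ, δ = 1 / (12 * q * k) := ⟨_, rfl⟩
  have hδ0 : 0 < δ := by rw [hδ]; positivity
  have hδ1 : δ ≤ 1 := by
    rw [hδ, div_le_one (by positivity)]
    linarith
  have hU1 : 1 ≤ U := by
    have := Real.add_one_le_exp y₀
    have h2 : 2 ≤ y₀ := (le_max_left _ _).trans (le_max_right _ _)
    linarith
  obtain ⟨N, hN⟩ : ∃ N : ℕ, N = ⌊U ^ δ⌋₊ := ⟨_, rfl⟩
  have hUδ1 : 1 ≤ U ^ δ := Real.one_le_rpow hU1 hδ0.le
  have hN1 : 1 ≤ N := by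
    rw [hN]; exact Nat.le_floor (by simpa using hUδ1)
  have hN0 : (0:ℝ) < N := by exact_mod_cast hN1
  have hNU : (N : ℝ) ≤ U ^ δ := by rw [hN]; exact Nat.floor_le (by positivity)
  have hNU1 : (N : ℝ) ≤ U := hNU.trans (by
    calc U ^ δ ≤ U ^ (1:ℝ) := Real.rpow_le_rpow_of_exponent_le hU1 hδ1
      _ = U := Real.rpow_one U)
  have hNlow : U ^ δ / 2 ≤ N := by
    have h1 : U ^ δ < N + 1 := by rw [hN]; exact Nat.lt_floor_add_one _
    have h2 : (1:ℝ) ≤ N := by exact_mod_cast hN1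
    linarith
  -- K
  have hKle : ((N ^ k : ℕ) : ℝ) ≤ U ^ (δ * k) := by
    push_cast
    calc (N:ℝ) ^ k ≤ (U ^ δ) ^ k := pow_le_pow_left₀ hN0.le hNU k
      _ = U ^ (δ * k) := by rw [← Real.rpow_natCast, ← Real.rpow_mul hUpos.le]
  have hK1 : (1:ℝ) ≤ ((N ^ k : ℕ) : ℝ) := by exact_mod_cast Nat.one_le_pow _ _ hN1
  have hlogK : Real.log ((N ^ k : ℕ) : ℝ) ≤ y / 2 := by
    have h1 : Real.log ((N ^ k : ℕ) : ℝ) ≤ Real.log (U ^ (δ * k)) := Real.log_le_log (by linarith) hKle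
    rw [Real.log_rpow hUpos] at h1
    have h2 : δ * k ≤ 1 / 2 := by
      rw [hδ, div_mul_eq_mul_div, one_mul, div_le_iff₀ (by positivity)]
      have h5 : (k:ℝ) * 1 ≤ k * q := mul_le_mul_of_nonneg_left hqr (by positivity)
      linarith
    have h3 : δ * k * Real.log U ≤ 1 / 2 * y := mul_le_mul_of_nonneg_right h2 hypos.le
    linarith
  set Λ := 1 + Real.log ((N ^ k : ℕ) : ℝ) with hΛ
  have hΛ0 : 0 ≤ Λ := by
    have : 0 ≤ Real.log ((N ^ k : ℕ) : ℝ) := Real.log_nonneg hK1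
    linarith
  have hΛy : Λ ≤ y := by linarith
  have hK6 : ((N ^ k : ℕ) : ℝ) ^ (6 * q) ≤ U ^ ((1:ℝ) / 2) := by
    calc ((N ^ k : ℕ) : ℝ) ^ (6 * q) ≤ (U ^ (δ * k)) ^ (6 * q) := pow_le_pow_left₀ (by linarith) hKle _
      _ = U ^ ((1:ℝ) / 2) := by
          rw [← Real.rpow_natCast, ← Real.rpow_mul hUpos.le]
          congr 1
          rw [hδ]; push_cast; field_simp; norm_num
  -- powers of y
  have hyB : y ^ B ≤ T := hTlow
  have hyE : Λ ^ E ≤ T ^ (ε / 4) := by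
    refine (pow_le_pow_left₀ hΛ0 hΛy E).trans ?_
    apply log_pow_le (by linarith) hT1' hB0 hyB
    have h1 : ε / 4 * (4 * E / ε) = E := by field_simp
    have h2 : ε / 4 * (4 * E / ε) ≤ ε / 4 * B := by
      apply mul_le_mul_of_nonneg_left _ (by positivity)
      rw [hB]; linarith
    linarith
  have hyM : y ^ M4 ≤ T ^ ((1:ℝ) / 2) := by
    apply log_pow_le (by linarith) hT1' hB0 hyB
    rw [hB]; linarith
  have hy4 : y ^ 4 ≤ T := by
    have := log_pow_le (c := 1) (n := 4) (by linarith : (1:ℝ) ≤ y) hT1' hB0 hyB (by push_cast; linarith)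
    rwa [Real.rpow_one] at this
  -- U versus T
  have hUT : T ^ (B / 2) ≤ U ^ ((1:ℝ) / 2) := by
    have h1 : T ^ (B / 2) = (T ^ B) ^ ((1:ℝ) / 2) := by
      rw [← Real.rpow_mul hTpos.le]; congr 1; ring
    rw [h1]
    exact Real.rpow_le_rpow (by positivity) hTup (by norm_num)
  have hUhalf : U ^ ((1:ℝ) / 2) * U ^ ((1:ℝ) / 2) = U := by
    rw [← Real.rpow_add hUpos]; norm_num
  have hT4U : T ^ (4:ℝ) ≤ U ^ ((1:ℝ) / 2) :=
    (Real.rpow_le_rpow_of_exponent_le hT1' (by linarith)).trans hUT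
  -- eta
  set η := σ - 1 / 2 with hη
  have hηlow : C * (x / y) ≤ η := by linarith
  have hη0 : 0 < η := lt_of_lt_of_le (by positivity) hηlow
  have hNη : (N : ℝ) ^ (-η) ≤ T ^ (-C') := by
    have hlogN : y / (24 * q * k) ≤ Real.log N := by
      have h1 : Real.log (U ^ δ / 2) ≤ Real.log N := Real.log_le_log (by positivity) hNlow
      rw [Real.log_div (by positivity) (by norm_num), Real.log_rpow hUpos] at h1
      have h2 : Real.log 2 ≤ 1 := by
        have := Real.log_two_lt_d9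
        linarith
      have h3 : δ * y = 2 * (y / (24 * q * k)) := by
        rw [hδ]; field_simp; norm_num
      have h4 : 1 ≤ y / (24 * q * k) := by
        rw [le_div_iff₀ (by positivity)]; linarith
      linarith
    have hexp1 : (N : ℝ) ^ (-η) = Real.exp (-(η * Real.log N)) := by
      rw [Real.rpow_def_of_pos hN0]; congr 1; ring
    have hexp2 : T ^ (-C') = Real.exp (-(C' * x)) := by
      rw [Real.rpow_def_of_pos hTpos]; congr 1; ring
    rw [hexp1, hexp2]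
    apply Real.exp_le_exp.2
    have h1 : C' * x = (C * (x / y)) * (y / (24 * q * k)) := by
      rw [hC]; field_simp
    have h2 : (C * (x / y)) * (y / (24 * q * k)) ≤ η * Real.log N :=
      mul_le_mul hηlow hlogN (by positivity) hη0.le
    linarith
  -- parameters l1, l2
  obtain ⟨l1, hl1⟩ : ∃ l1 : ℝ, l1 = T ^ (1 / 2 + ε / 2) := ⟨_, rfl⟩
  obtain ⟨l2, hl2⟩ : ∃ l2 : ℝ, l2 = T ^ (-(3:ℝ)) := ⟨_, rfl⟩
  have hl10 : 0 < l1 := by rw [hl1]; positivity
  have hl11 : 1 ≤ l1 := by rw [hl1]; exact Real.one_le_rpow hT1' (by positivity)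
  have hl1T : l1 ≤ T := by
    rw [hl1]
    calc T ^ (1 / 2 + ε / 2) ≤ T ^ (1:ℝ) := Real.rpow_le_rpow_of_exponent_le hT1' (by linarith)
      _ = T := Real.rpow_one T
  have hl2cond : 12 * U ^ (-(1 / 2) : ℝ) ≤ l2 := by
    rw [hl2, Real.rpow_neg hUpos.le, Real.rpow_neg hTpos.le]
    rw [← div_eq_mul_inv, div_le_iff₀ (by positivity)]
    have h1 : T ^ (4:ℝ) = T ^ (3:ℝ) * T := by
      rw [← Real.rpow_add_one hTpos.ne']; norm_num
    have h2 : (T ^ (3:ℝ))⁻¹ * (T ^ (3:ℝ) * T) = T := by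
      have : T ^ (3:ℝ) ≠ 0 := by positivity
      field_simp
    have h3 : (T ^ (3:ℝ))⁻¹ * T ^ (4:ℝ) ≤ (T ^ (3:ℝ))⁻¹ * U ^ ((1:ℝ) / 2) :=
      mul_le_mul_of_nonneg_left hT4U (by positivity)
    rw [h1, h2] at h3
    linarith
  have hTU : T + 1 ≤ U := by
    have h1 : T ^ (2:ℝ) ≤ T ^ B := Real.rpow_le_rpow_of_exponent_le hT1' (by linarith)
    have h2 : T ^ (2:ℝ) = T * T := by
      rw [show (2:ℝ) = 1 + 1 by norm_num, Real.rpow_add hTpos, Real.rpow_one]
    have h3 : T * 2 ≤ T * T := mul_le_mul_of_nonneg_left (by linarith) hTpos.le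
    rw [h2] at h1
    have h4 : T + 1 ≤ T * 2 := by linarith
    exact h4.trans (h3.trans (h1.trans hTup))
  have hσ12 : 1 / 2 ≤ σ := by linarith
  have hU8 : 8 ≤ U := by linarith
  have hbad := bad_total N k q hN1 hσ12 (by linarith) (T := T) (U := U) (l1 := l1) (l2 := l2) hT1' hU8
    hTU hNU1 hl10 hl2cond
  rw [← hE.1] at hbad
  refine (measure_mono ?_).trans (hbad.trans ?_)
  · -- inclusion
    rintro u ⟨hu, V, hV, hVl⟩
    refine ⟨hu, ?_⟩
    rintro ⟨hF, hW⟩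
    have hl20 : 0 ≤ l2 := by rw [hl2]; positivity
    have hl2' : l2 ≤ 1 := by rw [hl2]; exact Real.rpow_le_one_of_one_le_of_nonpos hT1' (by norm_num)
    have hg := good_window (N := N) (k := k) (σ := σ) (u := u) (T := T) (l1 := l1) (l2 := l2)
      (by linarith [hu.1]) hl20 hl2' hF hW V hV
    have hDg : Dg N k σ ≤ T ^ ((1:ℝ) / 2) := by
      have h1 := Dg_le N k hσ12
      rw [← hM4.1] at h1
      exact (h1.trans (pow_le_pow_left₀ hΛ0 hΛy _)).trans hyM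
    have hDg0 := Dg_nonneg N k σ
    have hThalf : T ^ ((1:ℝ) / 2) ≤ T := by
      calc T ^ ((1:ℝ) / 2) ≤ T ^ (1:ℝ) := Real.rpow_le_rpow_of_exponent_le hT1' (by norm_num)
        _ = T := Real.rpow_one T
    have hsmall : 2 * (k:ℝ) * 4 ^ k * l2 * (T * Dg N k σ + (l1 + Dg N k σ) + T) ≤ 1 := by
      have h1 : T * Dg N k σ + (l1 + Dg N k σ) + T ≤ 4 * T ^ 2 := by
        have h2 : T * Dg N k σ ≤ T * T := mul_le_mul_of_nonneg_left (hDg.trans hThalf) hTpos.le
        have h3 : T * 1 ≤ T * T := mul_le_mul_of_nonneg_left hT1' hTpos.le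
        have h4 : T ^ 2 = T * T := sq T
        rw [h4]
        linarith
      have h2 : l2 * T ^ 2 = 1 / T := by
        rw [hl2, Real.rpow_neg hTpos.le]
        have : T ^ (3:ℝ) = T ^ 3 := by exact_mod_cast Real.rpow_natCast T 3
        rw [this]; field_simp
      calc 2 * (k:ℝ) * 4 ^ k * l2 * (T * Dg N k σ + (l1 + Dg N k σ) + T) ≤
          2 * (k:ℝ) * 4 ^ k * l2 * (4 * T ^ 2) := mul_le_mul_of_nonneg_left h1 (by positivity)
        _ = 8 * (k:ℝ) * 4 ^ k * (l2 * T ^ 2) := by ring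
        _ = 8 * (k:ℝ) * 4 ^ k / T := by rw [h2]; ring
        _ ≤ 1 := by rw [div_le_one hTpos]; exact hT3
    have htail := diag_tail (N := N) (k := k) hN1 hk hη0 (σ := σ) (by rw [hη]; ring)
    rw [← hM4.1] at htail
    have htail2 : |V * (Dfull k σ - Dg N k σ)| ≤ 1 := by
      rw [abs_mul, abs_of_nonneg hV.1]
      have hinv : 1 / η ≤ y := by
        rw [div_le_iff₀ hη0]
        have h1 : y * (C * (x / y)) = C * x := by field_simp
        have h2 : y * (C * (x / y)) ≤ y * η := mul_le_mul_of_nonneg_left hηlow hypos.le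
        have h3 : (24:ℝ) * 1 ≤ C * x := mul_le_mul hC24 hx1 (by norm_num) hC0.le
        linarith
      have h1 : (1 + 1 / η) ^ M4 ≤ (2 * y) ^ M4 := pow_le_pow_left₀ (by positivity) (by linarith) _
      have h2 : (2 * y) ^ M4 ≤ T := by
        rw [mul_pow]
        calc (2:ℝ) ^ M4 * y ^ M4 ≤ T ^ ((1:ℝ) / 2) * T ^ ((1:ℝ) / 2) :=
              mul_le_mul hT5 hyM (by positivity) (by positivity)
          _ = T := by rw [← Real.rpow_add hTpos]; norm_num
      have h3 : |Dfull k σ - Dg N k σ| ≤ T ^ (-C') * T :=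
        htail.trans (mul_le_mul hNη (h1.trans h2) (by positivity) (by positivity))
      calc V * |Dfull k σ - Dg N k σ| ≤ T * (T ^ (-C') * T) :=
            mul_le_mul hV.2 h3 (abs_nonneg _) hTpos.le
        _ = T ^ (2 - C') := by
            rw [sub_eq_add_neg, Real.rpow_add hTpos]
            have : T ^ (2:ℝ) = T * T := by
              rw [show (2:ℝ) = 1 + 1 by norm_num, Real.rpow_add hTpos, Real.rpow_one]
            rw [this]; ring
        _ ≤ 1 := Real.rpow_le_one_of_one_le_of_nonpos hT1' (by rw [hC']; linarith)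
    have hfin : |Zw k σ V u - V * Dfull k σ| ≤ l1 + T ^ ((1:ℝ) / 2) + 1 + 1 := by
      have e : Zw k σ V u - V * Dfull k σ = (Zw k σ V u - V * Dg N k σ) - V * (Dfull k σ - Dg N k σ) := by ring
      rw [e]
      refine (abs_sub _ _).trans ?_
      linarith
    have hl1' : T ^ ((1:ℝ) / 2) ≤ l1 := by rw [hl1]; exact Real.rpow_le_rpow_of_exponent_le hT1' (by linarith)
    have hfin2 : T ^ (1 / 2 + ε) = l1 * T ^ (ε / 2) := by
      rw [hl1, ← Real.rpow_add hTpos]; congr 1; ring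
    have hfin3 : l1 * 4 ≤ l1 * T ^ (ε / 2) := mul_le_mul_of_nonneg_left hT2 hl10.le
    linarith
  · -- measure
    apply ENNReal.ofReal_le_ofReal
    have hUTA : 0 < U * T ^ (-A) := by positivity
    -- zeta term
    have hz : (T + 1) * (26000000 * U * (Real.log U) ^ 4 * (N : ℝ) ^ (-(2 * σ - 1))) / l2 ^ 2 ≤ U * T ^ (-A) / 4 := by
      have e1 : (N : ℝ) ^ (-(2 * σ - 1)) = ((N : ℝ) ^ (-η)) ^ 2 := by
        rw [← Real.rpow_natCast, ← Real.rpow_mul hN0.le]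
        congr 1; rw [hη]; push_cast; ring
      have h1 : (N : ℝ) ^ (-(2 * σ - 1)) ≤ T ^ (-(2 * C')) := by
        rw [e1]
        have e2 : T ^ (-(2 * C')) = (T ^ (-C')) ^ 2 := by
          rw [← Real.rpow_natCast, ← Real.rpow_mul hTpos.le]; congr 1; push_cast; ring
        rw [e2]
        exact pow_le_pow_left₀ (by positivity) hNη 2
      have e3 : l2 ^ 2 = (T ^ (6:ℝ))⁻¹ := by
        rw [hl2, ← Real.rpow_natCast, ← Real.rpow_mul hTpos.le, ← Real.rpow_neg hTpos.le]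
        congr 1; norm_num
      rw [e3, div_inv_eq_mul]
      have h2 : (T + 1) * (26000000 * U * (Real.log U) ^ 4 * (N : ℝ) ^ (-(2 * σ - 1))) ≤
          U * (T * T * T * T ^ (-(2 * C'))) := by
        have h3 : (T + 1) * 26000000 ≤ T * T := by
          have := mul_le_mul_of_nonneg_right hT4 hTpos.le
          linarith
        have h4 : (Real.log U) ^ 4 * (N : ℝ) ^ (-(2 * σ - 1)) ≤ T * T ^ (-(2 * C')) :=
          mul_le_mul hy4 h1 (by positivity) hTpos.le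
        calc (T + 1) * (26000000 * U * (Real.log U) ^ 4 * (N : ℝ) ^ (-(2 * σ - 1))) =
            U * (((T + 1) * 26000000) * ((Real.log U) ^ 4 * (N : ℝ) ^ (-(2 * σ - 1)))) := by ring
          _ ≤ U * ((T * T) * (T * T ^ (-(2 * C')))) := by
              apply mul_le_mul_of_nonneg_left _ hUpos.le
              exact mul_le_mul h3 h4 (by positivity) (by positivity)
          _ = _ := by ring
      have h5 : U * (T * T * T * T ^ (-(2 * C'))) * T ^ (6:ℝ) = U * T ^ (9 - 2 * C') := by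
        have e4 : T ^ (9 - 2 * C') = T ^ (3:ℝ) * T ^ (-(2 * C')) * T ^ (6:ℝ) := by
          rw [← Real.rpow_add hTpos, ← Real.rpow_add hTpos]; congr 1; ring
        have e5 : T ^ (3:ℝ) = T * T * T := by
          have : T ^ (3:ℝ) = T ^ 3 := by exact_mod_cast Real.rpow_natCast T 3
          rw [this]; ring
        rw [e4, e5]; ring
      have h6 : T ^ (9 - 2 * C') ≤ T ^ (-A) / 4 := by
        have e6 : T ^ (-A) = T ^ (9 - 2 * C') * T ^ (A + 11) := by
          rw [← Real.rpow_add hTpos]; congr 1; rw [hC']; ring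
        have h7 : 4 ≤ T ^ (A + 11) := by
          calc (4:ℝ) ≤ T := by linarith
            _ = T ^ (1:ℝ) := (Real.rpow_one T).symm
            _ ≤ T ^ (A + 11) := Real.rpow_le_rpow_of_exponent_le hT1' (by linarith)
        rw [e6]
        have h8 : 0 < T ^ (9 - 2 * C') := by positivity
        rw [le_div_iff₀ (by norm_num)]
        exact mul_le_mul_of_nonneg_left h7 h8.le
      calc _ ≤ U * (T * T * T * T ^ (-(2 * C'))) * T ^ (6:ℝ) := mul_le_mul_of_nonneg_right h2 (by positivity)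
        _ = U * T ^ (9 - 2 * C') := h5
        _ ≤ U * (T ^ (-A) / 4) := mul_le_mul_of_nonneg_left h6 hUpos.le
        _ = _ := by ring
    -- moment term
    have hl1pow : l1 ^ (2 * q) = (T ^ (1 + ε)) ^ q := by
      rw [pow_mul]
      congr 1
      rw [hl1, ← Real.rpow_natCast, ← Real.rpow_mul hTpos.le]; congr 1; push_cast; ring
    have hX : (6 * (2 * T) * Λ ^ E) ^ q / l1 ^ (2 * q) ≤ T ^ (-(A + 4)) := by
      rw [hl1pow, ← div_pow]
      have h1 : 6 * (2 * T) * Λ ^ E / T ^ (1 + ε) ≤ T ^ (-(ε / 2)) := by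
        rw [div_le_iff₀ (by positivity), ← Real.rpow_add hTpos]
        have e1 : T ^ (-(ε / 2) + (1 + ε)) = T * (T ^ (ε / 4) * T ^ (ε / 4)) := by
          rw [← Real.rpow_add hTpos, ← Real.rpow_one_add' hTpos.le (by positivity)]
          congr 1; ring
        rw [e1]
        have h2 : 12 * Λ ^ E ≤ T ^ (ε / 4) * T ^ (ε / 4) := mul_le_mul hT1 hyE (by positivity) (by positivity)
        have h3 := mul_le_mul_of_nonneg_left h2 hTpos.le
        linarith
      calc (6 * (2 * T) * Λ ^ E / T ^ (1 + ε)) ^ q ≤ (T ^ (-(ε / 2))) ^ q := pow_le_pow_left₀ (by positivity) h1 q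
        _ = T ^ (-(ε * q / 2)) := by
            rw [← Real.rpow_natCast, ← Real.rpow_mul hTpos.le]; congr 1; ring
        _ ≤ T ^ (-(A + 4)) := Real.rpow_le_rpow_of_exponent_le hT1' (by linarith)
    have hY : ((2 * T) * ((N ^ k : ℕ) : ℝ) ^ 2) ^ (2 * q) * (2 * ((N ^ k : ℕ) : ℝ) ^ (2 * q)) / l1 ^ (2 * q) ≤
        2 * T ^ (4 * (q:ℝ)) * U ^ ((1:ℝ) / 2) := by
      have h1 : 1 ≤ l1 ^ (2 * q) := one_le_pow₀ hl11
      have h2 : ((2 * T) * ((N ^ k : ℕ) : ℝ) ^ 2) ^ (2 * q) * (2 * ((N ^ k : ℕ) : ℝ) ^ (2 * q)) =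
          2 * (2 * T) ^ (2 * q) * ((N ^ k : ℕ) : ℝ) ^ (6 * q) := by
        rw [mul_pow, ← pow_mul, show 6 * q = 2 * (2 * q) + 2 * q by ring, pow_add]; ring
      have h3 : (2 * T) ^ (2 * q) ≤ T ^ (4 * (q:ℝ)) := by
        have h4 : (2 * T) ^ (2 * q) ≤ (T ^ 2) ^ (2 * q) := pow_le_pow_left₀ (by positivity) (by
          rw [sq]; exact mul_le_mul_of_nonneg_right (by linarith) hTpos.le) _
        have h5 : (T ^ 2) ^ (2 * q) = T ^ (4 * (q:ℝ)) := by
          rw [← pow_mul, ← Real.rpow_natCast]; congr 1; push_cast; ring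
        linarith
      refine (div_le_self (by positivity) h1).trans ?_
      rw [h2]
      apply mul_le_mul _ hK6 (by positivity) (by positivity)
      linarith
    have hm : (3 * T) * ((U * (6 * (2 * T) * Λ ^ E) ^ q +
        ((2 * T) * ((N ^ k : ℕ) : ℝ) ^ 2) ^ (2 * q) * (2 * ((N ^ k : ℕ) : ℝ) ^ (2 * q))) / l1 ^ (2 * q)) ≤
        U * T ^ (-A) / 2 := by
      rw [add_div, mul_div_assoc]
      have h1 : (3 * T) * (U * ((6 * (2 * T) * Λ ^ E) ^ q / l1 ^ (2 * q))) ≤ U * T ^ (-A) / 4 := by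
        have h2 : U * ((6 * (2 * T) * Λ ^ E) ^ q / l1 ^ (2 * q)) ≤ U * T ^ (-(A + 4)) :=
          mul_le_mul_of_nonneg_left hX hUpos.le
        have h3 : T ^ (-A) = T ^ (-(A + 4)) * T ^ (4:ℝ) := by
          rw [← Real.rpow_add hTpos]; congr 1; ring
        have h4 : 12 * T ≤ T ^ (4:ℝ) := by
          have : T ^ (2:ℝ) = T * T := by
            rw [show (2:ℝ) = 1 + 1 by norm_num, Real.rpow_add hTpos, Real.rpow_one]
          have h5 : T ^ (2:ℝ) ≤ T ^ (4:ℝ) := Real.rpow_le_rpow_of_exponent_le hT1' (by norm_num)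
          have h7 : 12 * T ≤ T * T := mul_le_mul_of_nonneg_right (by linarith) hTpos.le
          rw [this] at h5
          exact h7.trans h5
        have h6 : 0 < T ^ (-(A + 4)) := by positivity
        calc (3 * T) * (U * ((6 * (2 * T) * Λ ^ E) ^ q / l1 ^ (2 * q))) ≤ (3 * T) * (U * T ^ (-(A + 4))) :=
              mul_le_mul_of_nonneg_left h2 (by positivity)
          _ = U * T ^ (-(A + 4)) * (12 * T) / 4 := by ring
          _ ≤ U * T ^ (-(A + 4)) * T ^ (4:ℝ) / 4 := by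
              apply div_le_div_of_nonneg_right _ (by norm_num)
              exact mul_le_mul_of_nonneg_left h4 (by positivity)
          _ = _ := by rw [h3]; ring
      have h2 : (3 * T) * (((2 * T) * ((N ^ k : ℕ) : ℝ) ^ 2) ^ (2 * q) * (2 * ((N ^ k : ℕ) : ℝ) ^ (2 * q)) / l1 ^ (2 * q)) ≤
          U * T ^ (-A) / 4 := by
        have h3 : 24 * T * T ^ (4 * (q:ℝ)) * T ^ A ≤ U ^ ((1:ℝ) / 2) := by
          refine le_trans ?_ hUT
          have h4 : 24 * T ≤ T ^ (2:ℝ) := by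
            have : T ^ (2:ℝ) = T * T := by
              rw [show (2:ℝ) = 1 + 1 by norm_num, Real.rpow_add hTpos, Real.rpow_one]
            rw [this]
            exact mul_le_mul_of_nonneg_right (by linarith) hTpos.le
          calc 24 * T * T ^ (4 * (q:ℝ)) * T ^ A ≤ T ^ (2:ℝ) * T ^ (4 * (q:ℝ)) * T ^ A := by gcongr
            _ = T ^ (2 + 4 * (q:ℝ) + A) := by rw [← Real.rpow_add hTpos, ← Real.rpow_add hTpos]
            _ ≤ T ^ (B / 2) := Real.rpow_le_rpow_of_exponent_le hT1' (by rw [hB]; linarith)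
        have h5 : T ^ A * T ^ (-A) = 1 := by rw [← Real.rpow_add hTpos]; simp
        calc _ ≤ (3 * T) * (2 * T ^ (4 * (q:ℝ)) * U ^ ((1:ℝ) / 2)) :=
              mul_le_mul_of_nonneg_left hY (by positivity)
          _ = (24 * T * T ^ (4 * (q:ℝ)) * (T ^ A * T ^ (-A))) * U ^ ((1:ℝ) / 2) / 4 := by rw [h5]; ring
          _ = (24 * T * T ^ (4 * (q:ℝ)) * T ^ A) * U ^ ((1:ℝ) / 2) * T ^ (-A) / 4 := by ring
          _ ≤ U ^ ((1:ℝ) / 2) * U ^ ((1:ℝ) / 2) * T ^ (-A) / 4 := by gcongr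
          _ = _ := by rw [hUhalf]
      linarith
    linarith

end Pool.Agent.P07318d
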