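import Pool.Agent.Lib.P07318d.DivSum

/-!
# Window moments of partial sums of zeta
-/

set_option autoImplicit false

namespace Pool.Agent.P07318d

open Finset MeasureTheory

/-- number of `k`-tuples of integers in `[1,N]` with product `n` -/
def al (N k n : ℕ) : ℕ := ((Fintype.piFinset (fun _ : Fin k => Finset.Icc 1 N)).filter (fun x => ∏ i, x i = n)).card

/-- number of `k`-tuples of positive integers with product `n` -/
def dk (k n : ℕ) : ℕ := (Nat.finMulAntidiag k n).card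

lemma al_le_dk {N k n : ℕ} (hn : n ≠ 0) : al N k n ≤ dk k n := by
  unfold al dk
  apply Finset.card_le_card
  intro x hx
  rw [Finset.mem_filter] at hx
  rw [Nat.mem_finMulAntidiag]
  exact ⟨hx.2, hn⟩

lemma al_eq_dk {N k n : ℕ} (hn : n ≠ 0) (hnN : n ≤ N) : al N k n = dk k n := by
  unfold al dk
  congr 1
  ext x
  rw [Finset.mem_filter, Nat.mem_finMulAntidiag, Fintype.mem_piFinset]
  constructor
  · rintro ⟨_, h⟩; exact ⟨h, hn⟩
  · rintro ⟨h, _⟩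
    refine ⟨fun i => ?_, h⟩
    have h1 : x i ∣ n := by rw [← h]; exact Finset.dvd_prod_of_mem _ (Finset.mem_univ i)
    rw [Finset.mem_Icc]
    exact ⟨Nat.pos_of_dvd_of_pos h1 (Nat.pos_of_ne_zero hn), (Nat.le_of_dvd (Nat.pos_of_ne_zero hn) h1).trans hnN⟩

lemma dk_le {k n : ℕ} (hn : n ≠ 0) : (dk k n : ℝ) ≤ dd n ^ k := by
  unfold dk dd
  have h : Nat.finMulAntidiag k n ⊆ Fintype.piFinset (fun _ : Fin k => n.divisors) := by
    intro x hx
    rw [Nat.mem_finMulAntidiag] at hx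
    rw [Fintype.mem_piFinset]
    intro i
    rw [Nat.mem_divisors]
    exact ⟨by rw [← hx.1]; exact Finset.dvd_prod_of_mem _ (Finset.mem_univ i), hn⟩
  have h2 := Finset.card_le_card h
  rw [Fintype.card_piFinset_const] at h2
  exact_mod_cast h2

lemma al_le {N k n : ℕ} (hn : n ≠ 0) : (al N k n : ℝ) ≤ dd n ^ k :=
  le_trans (by exact_mod_cast al_le_dk hn) (dk_le hn)

lemma sum_al (N k : ℕ) : ∑ n ∈ Finset.Icc 1 (N ^ k), al N k n = N ^ k := by
  unfold al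
  rw [← Finset.card_eq_sum_card_fiberwise (f := fun x : Fin k → ℕ => ∏ i, x i)
    (s := Fintype.piFinset (fun _ : Fin k => Finset.Icc 1 N)) (t := Finset.Icc 1 (N ^ k))]
  · rw [Fintype.card_piFinset_const]; simp
  · intro x hx
    have hx' := Fintype.mem_piFinset.1 (Finset.mem_coe.1 hx)
    rw [Finset.mem_coe, Finset.mem_Icc]
    constructor
    · apply Nat.one_le_iff_ne_zero.2
      apply Finset.prod_ne_zero_iff.2
      intro i _
      have := (Finset.mem_Icc.1 (hx' i)).1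
      omega
    · refine (Finset.prod_le_prod' (fun i _ => (Finset.mem_Icc.1 (hx' i)).2)).trans ?_
      simp

/-- `n^(-σ-it)` -/
noncomputable def en (σ t : ℝ) (n : ℕ) : ℂ := ((n : ℝ) ^ (-σ) : ℝ) * Complex.exp (((-(t * Real.log n) : ℝ) : ℂ) * Complex.I)

lemma en_eq {σ t : ℝ} {n : ℕ} (hn : n ≠ 0) : (n : ℂ) ^ (-((σ : ℂ) + t * Complex.I)) = en σ t n := by
  unfold en
  have hn' : (n : ℂ) ≠ 0 := by exact_mod_cast hn
  have hpos : (0:ℝ) < n := by exact_mod_cast Nat.pos_of_ne_zero hn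
  rw [neg_add, Complex.cpow_add _ _ hn', Complex.ofReal_cpow hpos.le]
  congr 1
  · push_cast; rfl
  · rw [Complex.cpow_def_of_ne_zero hn', ← Complex.ofReal_natCast, ← Complex.ofReal_log hpos.le]
    congr 1
    push_cast; ring

lemma en_mul {σ t : ℝ} {m n : ℕ} (hm : m ≠ 0) (hn : n ≠ 0) : en σ t (m * n) = en σ t m * en σ t n := by
  unfold en
  have hm' : (0:ℝ) < m := by exact_mod_cast Nat.pos_of_ne_zero hm
  have hn' : (0:ℝ) < n := by exact_mod_cast Nat.pos_of_ne_zero hn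
  have h1 : (((m * n : ℕ)) : ℝ) ^ (-σ) = (m : ℝ) ^ (-σ) * (n : ℝ) ^ (-σ) := by
    push_cast; rw [Real.mul_rpow hm'.le hn'.le]
  have h2 : Real.log ((m * n : ℕ) : ℝ) = Real.log m + Real.log n := by
    push_cast; rw [Real.log_mul hm'.ne' hn'.ne']
  rw [h1, h2]
  have h3 : Complex.exp (((-(t * (Real.log m + Real.log n)) : ℝ) : ℂ) * Complex.I) =
      Complex.exp (((-(t * Real.log m) : ℝ) : ℂ) * Complex.I) *
      Complex.exp (((-(t * Real.log n) : ℝ) : ℂ) * Complex.I) := by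
    rw [← Complex.exp_add]; congr 1; push_cast; ring
  rw [h3]; push_cast; ring

lemma en_one (σ t : ℝ) : en σ t 1 = 1 := by unfold en; simp

lemma en_prod {σ t : ℝ} {ι : Type*} (s : Finset ι) (x : ι → ℕ) (hx : ∀ i ∈ s, x i ≠ 0) :
    en σ t (∏ i ∈ s, x i) = ∏ i ∈ s, en σ t (x i) := by
  classical
  induction s using Finset.induction_on with
  | empty => simp [en_one]
  | insert a s ha ih =>
    rw [Finset.prod_insert ha, Finset.prod_insert ha, en_mul (hx a (Finset.mem_insert_self _ _))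
      (Finset.prod_ne_zero_iff.2 (fun i hi => hx i (Finset.mem_insert_of_mem hi))),
      ih (fun i hi => hx i (Finset.mem_insert_of_mem hi))]

/-- partial sum of zeta -/
noncomputable def PN (N : ℕ) (σ t : ℝ) : ℂ := ∑ n ∈ Finset.Icc 1 N, en σ t n

lemma PN_pow (N k : ℕ) (σ t : ℝ) :
    PN N σ t ^ k = ∑ n ∈ Finset.Icc 1 (N ^ k), (al N k n : ℂ) * en σ t n := by
  have h1 := Finset.prod_univ_sum (fun _ : Fin k => Finset.Icc 1 N) (fun _ n => en σ t n)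
  rw [Finset.prod_const, Finset.card_univ, Fintype.card_fin] at h1
  unfold PN
  rw [h1, ← Finset.sum_fiberwise_of_maps_to (s := Fintype.piFinset (fun _ : Fin k => Finset.Icc 1 N))
    (t := Finset.Icc 1 (N ^ k)) (g := fun x : Fin k → ℕ => ∏ i, x i)]
  · refine Finset.sum_congr rfl (fun n _ => ?_)
    unfold al
    rw [← nsmul_eq_mul, ← Finset.sum_const]
    refine Finset.sum_congr rfl (fun x hx => ?_)
    rw [Finset.mem_filter] at hx
    rw [← hx.2, en_prod _ _ (fun i _ => ?_)]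
    have := (Finset.mem_Icc.1 (Fintype.mem_piFinset.1 hx.1 i)).1
    omega
  · intro x hx
    have hx' := Fintype.mem_piFinset.1 hx
    rw [Finset.mem_Icc]
    constructor
    · apply Nat.one_le_iff_ne_zero.2
      apply Finset.prod_ne_zero_iff.2
      intro i _
      have := (Finset.mem_Icc.1 (hx' i)).1
      omega
    · refine (Finset.prod_le_prod' (fun i _ => (Finset.mem_Icc.1 (hx' i)).2)).trans ?_
      simp

lemma en_mul_conj (σ t : ℝ) (m n : ℕ) : en σ t m * (starRingEnd ℂ) (en σ t n) =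
    (((m : ℝ) ^ (-σ) * (n : ℝ) ^ (-σ) : ℝ) : ℂ) *
      Complex.exp (((t * (Real.log n - Real.log m) : ℝ) : ℂ) * Complex.I) := by
  unfold en
  rw [map_mul, Complex.conj_ofReal, ← Complex.exp_conj, map_mul, Complex.conj_ofReal, Complex.conj_I]
  have : Complex.exp (((t * (Real.log n - Real.log m) : ℝ) : ℂ) * Complex.I) =
      Complex.exp (((-(t * Real.log m) : ℝ) : ℂ) * Complex.I) *
      Complex.exp (((-(t * Real.log n) : ℝ) : ℂ) * -Complex.I) := by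
    rw [← Complex.exp_add]; congr 1; push_cast; ring
  rw [this]; push_cast; ring

/-- coefficient of a pair -/
noncomputable def gam (N k : ℕ) (σ : ℝ) (p : ℕ × ℕ) : ℝ :=
  (al N k p.1 * al N k p.2 : ℝ) * ((p.1 : ℝ) ^ (-σ) * (p.2 : ℝ) ^ (-σ))

lemma gam_nonneg (N k : ℕ) (σ : ℝ) (p : ℕ × ℕ) : 0 ≤ gam N k σ p := by
  unfold gam; positivity

lemma PN_norm_pow (N k : ℕ) (σ t : ℝ) :
    ((‖PN N σ t‖ ^ (2 * k) : ℝ) : ℂ) = ∑ p ∈ Finset.Icc 1 (N ^ k) ×ˢ Finset.Icc 1 (N ^ k),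
      (gam N k σ p : ℂ) * Complex.exp (((t * ph p : ℝ) : ℂ) * Complex.I) := by
  have e1 : ((‖PN N σ t‖ ^ (2 * k) : ℝ) : ℂ) =
      (PN N σ t) ^ k * ((starRingEnd ℂ) (PN N σ t ^ k)) := by
    rw [pow_mul, Complex.ofReal_pow, ← Complex.normSq_eq_norm_sq, Complex.normSq_eq_conj_mul_self,
      mul_pow, mul_comm, map_pow]
  rw [e1, PN_pow, map_sum, Finset.sum_mul_sum, Finset.sum_product]
  refine Finset.sum_congr rfl (fun m _ => Finset.sum_congr rfl (fun n _ => ?_))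
  rw [map_mul, Complex.conj_natCast]
  have h := en_mul_conj σ t m n
  unfold gam ph
  push_cast at h ⊢
  linear_combination ((al N k m : ℂ) * (al N k n : ℂ)) * h

/-- reduced fraction -/
def red (p : ℕ × ℕ) : ℕ × ℕ := (p.1 / Nat.gcd p.1 p.2, p.2 / Nat.gcd p.1 p.2)

/-- off-diagonal pairs -/
def offd (K : ℕ) : Finset (ℕ × ℕ) := (Finset.Icc 1 K ×ˢ Finset.Icc 1 K).filter (fun p => p.1 ≠ p.2)

lemma mem_offd {K : ℕ} {p : ℕ × ℕ} : p ∈ offd K ↔ ((1 ≤ p.1 ∧ p.1 ≤ K) ∧ (1 ≤ p.2 ∧ p.2 ≤ K)) ∧ p.1 ≠ p.2 := by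
  unfold offd
  rw [Finset.mem_filter, Finset.mem_product, Finset.mem_Icc, Finset.mem_Icc]

lemma red_spec {p : ℕ × ℕ} (h1 : 1 ≤ p.1) (h2 : 1 ≤ p.2) :
    1 ≤ Nat.gcd p.1 p.2 ∧ (red p).1 * Nat.gcd p.1 p.2 = p.1 ∧ (red p).2 * Nat.gcd p.1 p.2 = p.2 ∧
      1 ≤ (red p).1 ∧ 1 ≤ (red p).2 ∧ Nat.Coprime (red p).1 (red p).2 := by
  have hg : 1 ≤ Nat.gcd p.1 p.2 := Nat.gcd_pos_of_pos_left _ h1
  refine ⟨hg, Nat.div_mul_cancel (Nat.gcd_dvd_left _ _), Nat.div_mul_cancel (Nat.gcd_dvd_right _ _), ?_, ?_,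
    Nat.coprime_div_gcd_div_gcd hg⟩
  · exact Nat.div_pos (Nat.gcd_le_left _ h1) hg
  · exact Nat.div_pos (Nat.gcd_le_right _ h2) hg

lemma ph_red {p : ℕ × ℕ} (h1 : 1 ≤ p.1) (h2 : 1 ≤ p.2) : ph (red p) = ph p := by
  obtain ⟨hg, e1, e2, hr1, hr2, _⟩ := red_spec h1 h2
  have hg' : (0:ℝ) < ((Nat.gcd p.1 p.2 : ℕ) : ℝ) := by exact_mod_cast hg
  have hr1' : (0:ℝ) < (((red p).1 : ℕ) : ℝ) := by exact_mod_cast hr1
  have hr2' : (0:ℝ) < (((red p).2 : ℕ) : ℝ) := by exact_mod_cast hr2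
  have l1 : Real.log p.1 = Real.log (red p).1 + Real.log (Nat.gcd p.1 p.2) := by
    rw [← Real.log_mul hr1'.ne' hg'.ne']
    congr 1
    exact_mod_cast e1.symm
  have l2 : Real.log p.2 = Real.log (red p).2 + Real.log (Nat.gcd p.1 p.2) := by
    rw [← Real.log_mul hr2'.ne' hg'.ne']
    congr 1
    exact_mod_cast e2.symm
  unfold ph
  rw [l1, l2]; ring

/-- reduced off-diagonal pairs -/
def RR (K : ℕ) : Finset (ℕ × ℕ) := (offd K).image red

lemma RR_spec {K : ℕ} : ∀ r ∈ RR K, ((1 ≤ r.1 ∧ r.1 ≤ K) ∧ (1 ≤ r.2 ∧ r.2 ≤ K)) := by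
  intro r hr
  obtain ⟨p, hp, rfl⟩ := Finset.mem_image.1 hr
  rw [mem_offd] at hp
  obtain ⟨hg, e1, e2, hr1, hr2, _⟩ := red_spec hp.1.1.1 hp.1.2.1
  have h3 : (red p).1 ≤ p.1 := Nat.div_le_self _ _
  have h4 : (red p).2 ≤ p.2 := Nat.div_le_self _ _
  exact ⟨⟨hr1, h3.trans hp.1.1.2⟩, ⟨hr2, h4.trans hp.1.2.2⟩⟩

lemma RR_coprime {K : ℕ} : ∀ r ∈ RR K, Nat.Coprime r.1 r.2 := by
  intro r hr
  obtain ⟨p, hp, rfl⟩ := Finset.mem_image.1 hr
  rw [mem_offd] at hp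
  exact (red_spec hp.1.1.1 hp.1.2.1).2.2.2.2.2

lemma RR_sub {K : ℕ} : RR K ⊆ offd K := by
  intro r hr
  have h1 := RR_spec r hr
  obtain ⟨p, hp, rfl⟩ := Finset.mem_image.1 hr
  rw [mem_offd] at hp ⊢
  refine ⟨h1, ?_⟩
  obtain ⟨hg, e1, e2, hr1, hr2, _⟩ := red_spec hp.1.1.1 hp.1.2.1
  intro h
  apply hp.2
  calc p.1 = (red p).1 * Nat.gcd p.1 p.2 := e1.symm
    _ = (red p).2 * Nat.gcd p.1 p.2 := by rw [h]
    _ = p.2 := e2

/-- window weight -/
noncomputable def wV (V θ : ℝ) : ℂ := ∫ t in (0:ℝ)..V, Complex.exp (((t * θ : ℝ) : ℂ) * Complex.I)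

lemma window_phase (u V θ : ℝ) : ∫ t in u..(u + V), Complex.exp (((t * θ : ℝ) : ℂ) * Complex.I) =
    Complex.exp (((u * θ : ℝ) : ℂ) * Complex.I) * wV V θ := by
  unfold wV
  rw [← intervalIntegral.integral_const_mul]
  have h := intervalIntegral.integral_comp_add_left (a := 0) (b := V)
    (fun t : ℝ => Complex.exp (((t * θ : ℝ) : ℂ) * Complex.I)) u
  rw [add_zero] at h
  rw [← h]
  congr 1
  funext t
  rw [← Complex.exp_add]
  congr 1
  push_cast; ring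

lemma norm_wV_le {V θ : ℝ} (hV : 0 ≤ V) : ‖wV V θ‖ ≤ V := by
  unfold wV
  have := intervalIntegral.norm_integral_le_of_norm_le_const (a := 0) (b := V) (C := 1)
    (f := fun t : ℝ => Complex.exp (((t * θ : ℝ) : ℂ) * Complex.I))
    (fun t _ => by rw [Complex.norm_exp_ofReal_mul_I])
  rw [one_mul, sub_zero, abs_of_nonneg hV] at this
  exact this

lemma norm_wV_sq_le {V θ : ℝ} (hV : 0 ≤ V) (hθ : θ ≠ 0) : ‖wV V θ‖ ^ 2 ≤ V * (2 / |θ|) := by
  have h1 := norm_wV_le (V := V) (θ := θ) hV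
  have h2 : ‖wV V θ‖ ≤ 2 / |θ| := norm_integral_exp_le hθ 0 V
  rw [sq]
  exact mul_le_mul h1 h2 (norm_nonneg _) hV

/-- coefficients of the window error -/
noncomputable def cw (N k : ℕ) (σ V : ℝ) (r : ℕ × ℕ) : ℂ :=
  ((∑ p ∈ (offd (N ^ k)).filter (fun p => red p = r), gam N k σ p : ℝ) : ℂ) * wV V (ph r)

/-- diagonal -/
noncomputable def Dg (N k : ℕ) (σ : ℝ) : ℝ := ∑ n ∈ Finset.Icc 1 (N ^ k), (al N k n : ℝ) ^ 2 * (n : ℝ) ^ (-(2 * σ))

theorem window_eq (N k : ℕ) (σ u V : ℝ) :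
    (((∫ t in u..(u + V), ‖PN N σ t‖ ^ (2 * k)) - V * Dg N k σ : ℝ) : ℂ) =
      Osum (RR (N ^ k)) (cw N k σ V) u := by
  have hI : ((∫ t in u..(u + V), ‖PN N σ t‖ ^ (2 * k) : ℝ) : ℂ) =
      ∑ p ∈ Finset.Icc 1 (N ^ k) ×ˢ Finset.Icc 1 (N ^ k),
        (gam N k σ p : ℂ) * (Complex.exp (((u * ph p : ℝ) : ℂ) * Complex.I) * wV V (ph p)) := by
    rw [← intervalIntegral.integral_ofReal]
    have : ∀ t, ((‖PN N σ t‖ ^ (2 * k) : ℝ) : ℂ) = _ := fun t => PN_norm_pow N k σ t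
    simp_rw [this]
    rw [intervalIntegral.integral_finset_sum]
    · refine Finset.sum_congr rfl (fun p _ => ?_)
      rw [intervalIntegral.integral_const_mul, window_phase]
    · intro p _
      apply Continuous.intervalIntegrable
      fun_prop
  have hdiag : ∑ p ∈ (Finset.Icc 1 (N ^ k) ×ˢ Finset.Icc 1 (N ^ k)).filter (fun p => ¬ (p.1 ≠ p.2)),
        (gam N k σ p : ℂ) * (Complex.exp (((u * ph p : ℝ) : ℂ) * Complex.I) * wV V (ph p)) =
      ((V * Dg N k σ : ℝ) : ℂ) := by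
    have h1 : (Finset.Icc 1 (N ^ k) ×ˢ Finset.Icc 1 (N ^ k)).filter (fun p => ¬ (p.1 ≠ p.2)) =
        (Finset.Icc 1 (N ^ k)).image (fun n => (n, n)) := by
      ext ⟨a, b⟩
      simp only [Finset.mem_filter, Finset.mem_product, Finset.mem_image, not_not, Prod.mk.injEq]
      constructor
      · rintro ⟨⟨h, _⟩, rfl⟩; exact ⟨a, h, rfl, rfl⟩
      · rintro ⟨c, h, rfl, rfl⟩; exact ⟨⟨h, h⟩, rfl⟩
    rw [h1, Finset.sum_image (by intro a _ b _ h; exact (Prod.mk.inj h).1)]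
    unfold Dg
    rw [Finset.mul_sum]
    push_cast
    refine Finset.sum_congr rfl (fun n hn => ?_)
    have hph : ph (n, n) = 0 := by unfold ph; simp
    have hw : wV V (ph (n, n)) = V := by
      rw [hph]; unfold wV; simp
    rw [hw, hph]
    have hn1 := (Finset.mem_Icc.1 hn).1
    have hn0 : (0:ℝ) < n := by exact_mod_cast hn1
    have h2 : (n : ℝ) ^ (-(2 * σ)) = (n : ℝ) ^ (-σ) * (n : ℝ) ^ (-σ) := by
      rw [← Real.rpow_add hn0]; congr 1; ring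
    have h3 : (gam N k σ (n, n) : ℂ) = ((al N k n : ℝ) ^ 2 * (n : ℝ) ^ (-(2 * σ)) : ℝ) := by
      rw [h2]; unfold gam; push_cast; ring
    rw [h3]
    push_cast
    simp
    ring
  have hoff : ∑ p ∈ (Finset.Icc 1 (N ^ k) ×ˢ Finset.Icc 1 (N ^ k)).filter (fun p => p.1 ≠ p.2),
        (gam N k σ p : ℂ) * (Complex.exp (((u * ph p : ℝ) : ℂ) * Complex.I) * wV V (ph p)) =
      Osum (RR (N ^ k)) (cw N k σ V) u := by
    change ∑ p ∈ offd (N ^ k), _ = _
    rw [← Finset.sum_fiberwise_of_maps_to (s := offd (N ^ k)) (t := RR (N ^ k)) (g := red)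
      (fun p hp => Finset.mem_image_of_mem _ hp)]
    unfold Osum cw
    refine Finset.sum_congr rfl (fun r _ => ?_)
    push_cast
    rw [Finset.sum_mul, Finset.sum_mul]
    refine Finset.sum_congr rfl (fun p hp => ?_)
    rw [Finset.mem_filter, mem_offd] at hp
    rw [← hp.2, ph_red hp.1.1.1.1 hp.1.1.2.1]
    push_cast
    ring
  rw [Complex.ofReal_sub, hI, ← Finset.sum_filter_add_sum_filter_not _ (fun p : ℕ × ℕ => p.1 ≠ p.2), hoff, hdiag]
  ring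

end Pool.Agent.P07318d
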